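import Pool.Agent.V7H53.GG.Chief

/-!
# The criterion
-/

set_option autoImplicit false

namespace Pool.Agent.V7H53.GG

open Subgroup Module IntermediateField Pool.Agent.Q60.MU Pool.Agent.V7H44.MF Pool.Agent.V7H53.TR
open scoped Pointwise commutatorElement

variable {p : ℕ} [Fact p.Prime]

theorem fd_of_le {E N : IntermediateField ℚ Qb} (hN : FiniteDimensional ℚ N) (h : E ≤ N) :
    FiniteDimensional ℚ E :=
  Submodule.finiteDimensional_of_le (S₁ := Subalgebra.toSubmodule E.toSubalgebra)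
    (S₂ := Subalgebra.toSubmodule N.toSubalgebra) h

theorem rank_zero (S : Set ℕ) {E : IntermediateField ℚ Qb} (hE : FiniteDimensional ℚ E) :
    PRankGe p S E 0 := by
  have h : ∀ σ ∈ E.fixingSubgroup, ∀ x ∈ E, σ x = x := fun σ hσ x hx =>
    (mem_fixingSubgroup_iff _ _).1 hσ x hx
  refine ⟨E, ⟨le_rfl, hE, fun σ hσ x hx => ?_, fun σ hσ τ hτ x hx => ?_, fun σ hσ x hx => ?_,
    fun A _ σ _ hσ x hx => h σ hσ x hx⟩, by rw [pow_zero, one_mul]⟩
  · rw [h σ hσ x hx]
    exact hx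
  · rw [h τ hτ x hx, h σ hσ x hx, h τ hτ x hx]
  · exact h (σ ^ p) (Subgroup.pow_mem _ hσ p) x hx

theorem exists_degree {R : ℕ → IntermediateField ℚ Qb} (hR : IsCyclotomicTower p R)
    {N : IntermediateField ℚ Qb} (hN : FiniteDimensional ℚ N) (m : ℕ) :
    ∃ n, finrank ℚ (N ⊔ R m : IntermediateField ℚ Qb) = n * finrank ℚ N ∧
      p ^ m ≤ n * finrank ℚ N := by
  have hp : p.Prime := Fact.out
  have hRf := tower_finite hR m
  have h1 := relIndex_mul_index
    (inf_le_left : N.fixingSubgroup ⊓ (R m).fixingSubgroup ≤ N.fixingSubgroup)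
  have e : finrank ℚ (N ⊔ R m : IntermediateField ℚ Qb) =
      (N.fixingSubgroup ⊓ (R m).fixingSubgroup).relIndex N.fixingSubgroup * finrank ℚ N := by
    rw [finrank_eq_fixingSubgroup_index, finrank_eq_fixingSubgroup_index, fixingSubgroup_sup, h1]
  refine ⟨_, e, ?_⟩
  rw [← e]
  have h2 : p ^ m ∣ finrank ℚ (N ⊔ R m : IntermediateField ℚ Qb) := by
    rw [finrank_eq_fixingSubgroup_index, fixingSubgroup_sup, ← tower_index hR m]
    exact index_dvd_of_le inf_le_right
  exact Nat.le_of_dvd finrank_pos h2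

theorem RelBdd.bdd {S : Set ℕ} {R : ℕ → IntermediateField ℚ Qb} {F N : IntermediateField ℚ Qb}
    (h : RelBdd p S R F N) (hF : Bdd p S R F) : Bdd p S R N := by
  obtain ⟨b, hb⟩ := h
  obtain ⟨r, hr⟩ := hF
  exact ⟨r + b, fun m => hb m r (hr m)⟩

theorem dim_one (k F N : IntermediateField ℚ Qb) : DimGe p k F N 1 := by
  intro V _ _ _ τ _ h2 _
  have hnt : Nontrivial V := h2.1
  exact finrank_pos

theorem IsPLayer.self {k F N : IntermediateField ℚ Qb} (hFN : F ≤ N) (hFk : StableOver k F)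
    (h : NoPLayer p k F N) : IsPLayer p k F N F :=
  ⟨le_rfl, hFN, hFk, ⟨0, by rw [pow_zero, one_mul]⟩, h⟩

variable (hp2 : p ≠ 2) {S : Set ℕ} (hS : p ∈ S) {R : ℕ → IntermediateField ℚ Qb}
  (hR : IsCyclotomicTower p R) {k F N F' : IntermediateField ℚ Qb} (hN : FiniteDimensional ℚ N)
  (hkF : k ≤ F) (hNk : StableOver k N) (hF' : IsPLayer p k F N F')

include hp2 hR hN hkF hF' in
theorem layer_bdd (h : Bdd p S R F) : Bdd p S R F' := by
  obtain ⟨a, ha⟩ := hF'.degree
  refine bdd_up hp2 hR (fd_of_le hN hF'.le') hF'.le (fun σ hσ x hx => ?_) ha h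
  exact hF'.stable σ (fixingSubgroup_le hkF hσ) x hx

include hp2 hS hR hN hkF hNk hF' in
theorem layer_level {d : ℕ} (hd : DimGe p k F N d) {m : ℕ} (hgap : ¬ GapAt p S R F' N d m) :
    RelBdd p S R F' N :=
  one_level hp2 hS hR hN (hkF.trans hF'.le) hF'.le' hF'.stable hNk hF'.maximal (hd.up hF'.le) hgap

include hp2 hS hR hN hkF hNk hF' in
/-- **The criterion.** -/
theorem criterion {d : ℕ} (hd : DimGe p k F N d) (hd0 : 0 < d) :
    Bdd p S R N ↔ Bdd p S R F ∧ ∃ m, ¬ GapAt p S R F' N d m := by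
  have hFN := hF'.le.trans hF'.le'
  constructor
  · intro h
    refine ⟨bdd_sub hR hN hFN h, ?_⟩
    obtain ⟨r, hr⟩ := h
    obtain ⟨n, hn1, hn2⟩ := exists_degree hR hN (r * finrank ℚ N)
    refine ⟨r * finrank ℚ N, fun hgap => ?_⟩
    have hRm := tower_finite hR (r * finrank ℚ N)
    have hF'f := fd_of_le hN hF'.le'
    have h1 := hgap r 0 n (hr _) (rank_zero S inferInstance) hn1
    have h2 : r * finrank ℚ N < p ^ (r * finrank ℚ N) :=
      Nat.lt_pow_self (Fact.out : p.Prime).one_lt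
    have h3 : r < n := Nat.lt_of_mul_lt_mul_right (h2.trans_le hn2)
    have h4 : n ≤ d * n := Nat.le_mul_of_pos_left n hd0
    omega
  · rintro ⟨h, m, hm⟩
    exact (layer_level hp2 hS hR hN hkF hNk hF' hd hm).bdd (layer_bdd hp2 hR hN hkF hF' h)

include hp2 hS hR hN hkF hNk hF' in
/-- **The numerical criterion.** -/
theorem numerical {d : ℕ} (hd : DimGe p k F N d) (h : Bdd p S R F) {m n : ℕ}
    (hn : LayerDegree R N m n)
    (hr : PRankLe p S (N ⊔ R m) (d * n)) : Bdd p S R N := by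
  refine (layer_level (m := m) hp2 hS hR hN hkF hNk hF' hd fun hgap => ?_).bdd
    (layer_bdd hp2 hR hN hkF hF' h)
  have h1 := hgap _ 1 n hr (one_le_rank hp2 hS hR (fd_of_le hN hF'.le') m) hn
  omega

end Pool.Agent.V7H53.GG
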