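import Pool.Agent.V7H53.TR.Defs

/-!
# Growth of `p`-ranks in the cyclotomic tower: definitions
-/

set_option autoImplicit false

namespace Pool.Agent.V7H53.GG

open Module IntermediateField Pool.Agent.Q60.MU Pool.Agent.V7H44.MF Pool.Agent.V7H53.TR

/-- The `p`-rank of the Galois group of the maximal abelian extension of `E` unramified outside `S`
is at least `r`. -/
def PRankGe (p : ℕ) (S : Set ℕ) (E : IntermediateField ℚ Qb) (r : ℕ) : Prop :=
  ∃ M, IsElementary p S E M ∧ p ^ r * finrank ℚ E ≤ finrank ℚ M

/-- The automorphisms of the field of algebraic numbers over `k` map `E` to itself; for `k ≤ E` this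
says that `E / k` is a Galois extension. -/
def StableOver (k E : IntermediateField ℚ Qb) : Prop := ∀ σ ∈ k.fixingSubgroup, ∀ x ∈ E, σ x ∈ E

/-- There is no field `E ≠ F` between `F` and `N` which is Galois over `k` and whose degree over `F`
is a power of `p`. -/
def NoPLayer (p : ℕ) (k F N : IntermediateField ℚ Qb) : Prop :=
  ∀ E, F ≤ E → E ≤ N → StableOver k E → (∃ a, finrank ℚ E = p ^ a * finrank ℚ F) → E = F

/-- The Galois group of the field of algebraic numbers over `k`. -/
def GalOver (k : IntermediateField ℚ Qb) : Type := k.fixingSubgroup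

/-- The group structure is the composition. -/
noncomputable instance (k : IntermediateField ℚ Qb) : Group (GalOver k) :=
  Subgroup.toGroup k.fixingSubgroup

/-- The automorphisms over `k` and `E`. -/
noncomputable def galSub (k E : IntermediateField ℚ Qb) : Subgroup (GalOver k) :=
  E.fixingSubgroup.subgroupOf k.fixingSubgroup

/-- The irreducible representations over `𝔽_p` of the Galois group of `k` which are trivial on the
Galois group of `N`, but not on that of `F`, have dimension at least `d`. -/
def DimGe (p : ℕ) [Fact p.Prime] (k F N : IntermediateField ℚ Qb) (d : ℕ) : Prop :=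
  ∀ (V : Type) [AddCommGroup V] [Module (ZMod p) V] [Module.Finite (ZMod p) V]
    (τ : Representation (ZMod p) (GalOver k) V),
    TrivialOf τ (galSub k N) → IsSimple τ → ¬ TrivialOf τ (galSub k F) → d ≤ finrank (ZMod p) V

/-- The automorphisms of `E` over `F` commute. -/
def CommutesOver (F E : IntermediateField ℚ Qb) : Prop :=
  ∀ σ ∈ F.fixingSubgroup, ∀ τ ∈ F.fixingSubgroup, ∀ x ∈ E, σ (τ x) = τ (σ x)

/-- There is no field `E ≠ F` between `F` and `N` which is an abelian extension of `F`; for a Galois
extension `N / F` this says that its Galois group is perfect. -/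
def NoAbelianLayer (F N : IntermediateField ℚ Qb) : Prop :=
  ∀ E, F ≤ E → E ≤ N → StableOver F E → CommutesOver F E → E = F

/-- The degree of `N R_m` over `N` is `n`. -/
def LayerDegree (R : ℕ → IntermediateField ℚ Qb) (N : IntermediateField ℚ Qb) (m n : ℕ) : Prop :=
  finrank ℚ (N ⊔ R m : IntermediateField ℚ Qb) = n * finrank ℚ N

/-- There is no field strictly between `F` and `N` which is Galois over `k`. -/
def MinimalLayer (k F N : IntermediateField ℚ Qb) : Prop :=
  ∀ E, F ≤ E → E ≤ N → StableOver k E → E = F ∨ E = N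

/-- `F'` is a field between `F` and `N`, Galois over `k`, of degree a power of `p` over `F`, which
cannot be enlarged. -/
structure IsPLayer (p : ℕ) (k F N F' : IntermediateField ℚ Qb) : Prop where
  le : F ≤ F'
  le' : F' ≤ N
  stable : StableOver k F'
  degree : ∃ a, finrank ℚ F' = p ^ a * finrank ℚ F
  maximal : NoPLayer p k F' N

/-- The `p`-ranks of the layers of `N` exceed those of `F` at most by a constant. -/
def RelBdd (p : ℕ) (S : Set ℕ) (R : ℕ → IntermediateField ℚ Qb) (F N : IntermediateField ℚ Qb) :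
    Prop := ∃ b, ∀ m t, PRankLe p S (F ⊔ R m) t → PRankLe p S (N ⊔ R m) (t + b)

/-- At the level `m` the `p`-rank of `N` exceeds that of `F` at least by `d` times the degree of
that layer over `N`. -/
def GapAt (p : ℕ) (S : Set ℕ) (R : ℕ → IntermediateField ℚ Qb) (F N : IntermediateField ℚ Qb)
    (d m : ℕ) : Prop :=
  ∀ r s n, PRankLe p S (N ⊔ R m) r → PRankGe p S (F ⊔ R m) s → LayerDegree R N m n → s + d * n ≤ r

/-- `k ≤ F ≤ N` are number fields, and `F / k` and `N / k` are Galois extensions. -/
structure IsGaloisPair (k F N : IntermediateField ℚ Qb) : Prop where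
  finite : FiniteDimensional ℚ N
  le : k ≤ F
  le' : F ≤ N
  stable : StableOver k F
  stable' : StableOver k N

/-- The main part, for the layer `F'` of `p`-power degree over `F` in `N` and the dimension `d`. -/
def MainPart (p : ℕ) (S : Set ℕ) (R : ℕ → IntermediateField ℚ Qb)
    (F N F' : IntermediateField ℚ Qb) (d : ℕ) : Prop :=
  (∀ m, ¬ GapAt p S R F' N d m → RelBdd p S R F' N) ∧
  (0 < d → (Bdd p S R N ↔ Bdd p S R F ∧ ∃ m, ¬ GapAt p S R F' N d m)) ∧
  (Bdd p S R F → ∀ E ≤ N, ¬ Bdd p S R E → ∀ m, GapAt p S R F' N d m) ∧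
  (Bdd p S R F → ∀ m n : ℕ, LayerDegree R N m n → PRankLe p S (N ⊔ R m) (d * n) →
    ∀ E ≤ N, Bdd p S R E)

/-- The part on totally real fields over abelian fields. -/
def RealPart (p : ℕ) (S : Set ℕ) (R : ℕ → IntermediateField ℚ Qb)
    (F N F' : IntermediateField ℚ Qb) (d : ℕ) : Prop :=
  AbelianReal p S R → IsReal N → IsAbelianField F →
    (∀ E ≤ N, IsReal E ∧ (Bdd p S R E ∨ ∀ m, GapAt p S R F' N d m)) ∧
    (0 < d → (Bdd p S R N ↔ ∃ m, ¬ GapAt p S R F' N d m))

/-- Values which are allowed for `F'` and `d`. -/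
def DimPart (p : ℕ) [Fact p.Prime] (k F N : IntermediateField ℚ Qb) : Prop :=
  DimGe p k F N 1 ∧
  (NoAbelianLayer F N → IsPLayer p k F N F ∧ DimGe p k F N 2) ∧
  (MinimalLayer k F N → ∀ ℓ : ℕ, ℓ.Prime → ℓ ≠ p → ℓ * finrank ℚ F ∣ finrank ℚ N →
    IsPLayer p k F N F ∧ DimGe p k F N (orderOf (p : ZMod ℓ)))

end Pool.Agent.V7H53.GG
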