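import Pool.Agent.V7H53.GG.Tower
import Pool.Agent.V7H53.GG.Defs

/-!
# The growth theorem for number fields
-/

set_option autoImplicit false

namespace Pool.Agent.V7H53.GG

open Subgroup Module IntermediateField Pool.Agent.Q60.MU Pool.Agent.V7H44.MF Pool.Agent.V7H53.TR
open scoped Pointwise commutatorElement

variable {p : ℕ} [Fact p.Prime]

theorem inertiaOff_le_tower {S : Set ℕ} (hS : p ∈ S) {R : ℕ → IntermediateField ℚ Qb}
    (hR : IsCyclotomicTower p R) (A : ValuationSubring Qb) (m : ℕ) :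
    inertiaOff S A ≤ (R m).fixingSubgroup := by
  intro σ hσ
  by_cases h1 : σ = 1
  · rw [h1]
    exact Subgroup.one_mem _
  · obtain ⟨h2, h3⟩ := (mem_inertiaOff h1).1 hσ
    refine fixingSubgroup_le (hR m).1 (inertia_cyc (p := p) (fun h => h2 ⟨p, hS, h⟩) h3 m)

theorem conj_of_stable {k E : IntermediateField ℚ Qb} (h : StableOver k E) :
    ∀ d ∈ k.fixingSubgroup, ∀ x ∈ E.fixingSubgroup, d * x * d⁻¹ ∈ E.fixingSubgroup := by
  intro d hd x hx
  rw [IntermediateField.mem_fixingSubgroup_iff] at hx ⊢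
  intro y hy
  have h1 : d⁻¹ y ∈ E := h _ (inv_mem hd) y hy
  rw [AlgEquiv.mul_apply, AlgEquiv.mul_apply, hx _ h1, ← AlgEquiv.mul_apply, mul_inv_cancel,
    AlgEquiv.one_apply]

theorem valid_of_elementary (S : Set ℕ) {E : IntermediateField ℚ Qb} [FiniteDimensional ℚ E]
    {r : ℕ} (h : PRankGe p S E r) :
    ∃ Q, Valid p (inertiaOff S) E.fixingSubgroup Q ∧ p ^ r ≤ Q.relIndex E.fixingSubgroup := by
  have hK0 := index_ne_zero' E
  obtain ⟨M, ⟨hEM, hM, h1, h2, h3, h4⟩, h5⟩ := h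
  have hWK : M.fixingSubgroup ≤ E.fixingSubgroup := fixingSubgroup_le hEM
  have hmul := relIndex_mul_index hWK
  have hW0 := index_ne_zero' M
  refine ⟨M.fixingSubgroup, ⟨hWK, M.fixingSubgroup_isOpen, ?_, ?_⟩, ?_⟩
  · intro h0
    rw [h0, zero_mul] at hmul
    exact hW0 hmul.symm
  · rintro x ((⟨a, ha, rfl⟩ | ⟨a, ha, b, hb, rfl⟩) | ⟨hx, w, hw⟩)
    · exact (mem_fixingSubgroup_iff _ _).2 fun x hx => h3 a ha x hx
    · refine (mem_fixingSubgroup_iff _ _).2 fun x hx => ?_
      have hb' : b⁻¹ x ∈ M := h1 _ (inv_mem hb) x hx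
      have ha' : a⁻¹ (b⁻¹ x) ∈ M := h1 _ (inv_mem ha) _ hb'
      have h6 := h2 a ha b hb _ ha'
      show ⁅a, b⁆ x = x
      have h7 : ⁅a, b⁆ x = a (b (a⁻¹ (b⁻¹ x))) := rfl
      have h8 : a (a⁻¹ (b⁻¹ x)) = b⁻¹ x := by
        rw [← AlgEquiv.mul_apply, mul_inv_cancel, AlgEquiv.one_apply]
      have h9 : b (b⁻¹ x) = x := by
        rw [← AlgEquiv.mul_apply, mul_inv_cancel, AlgEquiv.one_apply]
      rw [h7, h6, h8, h9]
    · by_cases hx1 : x = 1
      · rw [hx1]
        exact Subgroup.one_mem _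
      · obtain ⟨h10, h11⟩ := (mem_inertiaOff hx1).1 hw
        exact (mem_fixingSubgroup_iff _ _).2 fun y hy => h4 w h10 x h11 hx y hy
  · rw [finrank_eq_fixingSubgroup_index, finrank_eq_fixingSubgroup_index, ← hmul] at h5
    exact Nat.le_of_mul_le_mul_right h5 (Nat.pos_of_ne_zero hK0)

theorem fixed_stable {k : IntermediateField ℚ Qb} {C : Subgroup Gal(Qb/ℚ)}
    (hC : ∀ d ∈ k.fixingSubgroup, ∀ x ∈ C, d * x * d⁻¹ ∈ C) : StableOver k (fixedField C) := by
  intro σ hσ x hx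
  rw [mem_fixedField_iff] at hx ⊢
  intro w hw
  have h1 := hC σ⁻¹ (inv_mem hσ) w hw
  have h2 : w (σ x) = σ ((σ⁻¹ * w * σ⁻¹⁻¹) x) := by
    rw [← AlgEquiv.mul_apply, ← AlgEquiv.mul_apply]
    congr 1
    group
  rw [h2, hx _ h1]

/-- **One level suffices.** -/
theorem one_level (hp2 : p ≠ 2) {S : Set ℕ} (hS : p ∈ S) {R : ℕ → IntermediateField ℚ Qb}
    (hR : IsCyclotomicTower p R) {k F N : IntermediateField ℚ Qb} (hN : FiniteDimensional ℚ N)
    (hkF : k ≤ F) (hFN : F ≤ N) (hFk : StableOver k F) (hNk : StableOver k N)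
    (hlay : NoPLayer p k F N) {d : ℕ} (hd : DimGe p k F N d) {m : ℕ} (hgap : ¬ GapAt p S R F N d m) :
    RelBdd p S R F N := by
  classical
  have hp : p.Prime := Fact.out
  have hF : FiniteDimensional ℚ F :=
    Submodule.finiteDimensional_of_le (S₁ := Subalgebra.toSubmodule F.toSubalgebra)
      (S₂ := Subalgebra.toSubmodule N.toSubalgebra) hFN
  unfold GapAt at hgap
  push Not at hgap
  obtain ⟨r, s, n, hr, hs, hn, hlt⟩ := hgap
  have hRf := tower_finite hR
  have hRm := hRf m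
  have hKo := N.fixingSubgroup_isOpen
  have hKf := index_ne_zero' N
  have hKL : N.fixingSubgroup ≤ F.fixingSubgroup := fixingSubgroup_le hFN
  have hDo := tower_open hR
  obtain ⟨t, ht⟩ := ramified_of_finDec (finDec hp hp2 fun m => (hR m).1) hKo hKf
  rw [← rankLe_level S hRf] at hr
  have hs' := valid_of_elementary S hs
  rw [fixingSubgroup_sup] at hs'
  have hidx : (N.fixingSubgroup ⊓ (R m).fixingSubgroup).relIndex N.fixingSubgroup = n := by
    have h1 := relIndex_mul_index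
      (inf_le_left : N.fixingSubgroup ⊓ (R m).fixingSubgroup ≤ N.fixingSubgroup)
    unfold LayerDegree at hn
    rw [finrank_eq_fixingSubgroup_index, finrank_eq_fixingSubgroup_index, fixingSubgroup_sup,
      ← h1] at hn
    exact Nat.eq_of_mul_eq_mul_right (Nat.pos_of_ne_zero hKf) hn
  obtain ⟨b, hb⟩ := growth (p := p) (I := inertiaOff S) (inertiaOff_conj S) hKL
    (fixingSubgroup_le hkF) (conj_of_stable hNk) (conj_of_stable hFk) hKo hKf
    (D := fun m => (R m).fixingSubgroup) (tower_normal hR) hDo (tower_index hR)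
    (tower_cyclic hR hp2) (tower_anti hR hp2) (inertiaOff_le_tower hS hR)
    ⟨t, fun m => by
      obtain ⟨T, hT1, hT2⟩ := ht m
      exact ⟨T, hT1, fun w => (hT2 w).imp
        (fun h => (inf_le_inf_right _ (inertiaOff_le S w)).trans h) id⟩⟩
    (by
      intro C hKC hCL hCn hCi
      obtain ⟨a, ha⟩ := hCi
      have hCo : IsOpen (C : Set Gal(Qb/ℚ)) := Subgroup.isOpen_mono hKC hKo
      have hfix := fix_fixed hCo
      have h1 : F ≤ fixedField C := (le_iff_le _ _).2 hCL
      have h2 : fixedField C ≤ N := by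
        rw [← InfiniteGalois.fixedField_fixingSubgroup N]
        exact fixedField_antitone hKC
      have h3 := hlay (fixedField C) h1 h2 (fixed_stable hCn) ⟨a, by
        rw [finrank_eq_fixingSubgroup_index, finrank_eq_fixingSubgroup_index, hfix, ← ha]
        exact (relIndex_mul_index hCL).symm⟩
      rw [← hfix, h3])
    (d := d) (fun V _ _ _ τ h1 h2 h3 => hd V τ (fun g hg x => h1 g hg x) h2 (fun h4 => by
      obtain ⟨g, hg, x, hx⟩ := h3
      exact hx (h4 g hg x))) (m := m) (r := r) (s := s) hr hs' (by rw [hidx]; exact hlt)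
  obtain ⟨c, hc⟩ := exists_pow hp b
  refine ⟨c, fun M t hM => ?_⟩
  rw [← rankLe_level S hRf] at hM ⊢
  refine (hb M _ hM).mono ?_
  rw [add_comm, pow_add]
  exact Nat.mul_le_mul_right _ hc

end Pool.Agent.V7H53.GG
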