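import Pool.Agent.V7H53.GG.Growth

/-!
# The growth theorem for groups: the totally ramified case
-/

set_option autoImplicit false

namespace Pool.Agent.V7H53.GG

open Subgroup Module Polynomial Pool.Agent.Q60.MU
open scoped commutatorElement

section poly

variable {p : ℕ} [Fact p.Prime]

theorem sum_dvd' {c₀ c : ℕ} (hc : c₀ ≤ c) (i : ℕ) :
    ((X - 1 : (ZMod p)[X]) ^ (p ^ c - p ^ c₀)) ∣
      ∑ j ∈ Finset.range (p ^ (c - c₀) * i), (X ^ p ^ c₀) ^ j := by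
  have hp : 0 < p := (Fact.out : p.Prime).pos
  have h0 : (X - 1 : (ZMod p)[X]) ≠ 0 := by
    have := X_sub_C_ne_zero (1 : ZMod p)
    rwa [map_one] at this
  have h1 := mul_geom_sum (X ^ p ^ c₀ : (ZMod p)[X]) (p ^ (c - c₀) * i)
  have h2 := pow_sub_dvd (p := p) c i
  have h3 : p ^ c = p ^ c₀ + (p ^ c - p ^ c₀) :=
    (Nat.add_sub_cancel' (Nat.pow_le_pow_right hp hc)).symm
  have h4 : (X ^ p ^ c₀ - 1 : (ZMod p)[X]) = (X - 1) ^ p ^ c₀ := by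
    rw [sub_pow_char_pow, one_pow]
  have h5 : p ^ c₀ * (p ^ (c - c₀) * i) = p ^ c * i := by
    rw [← mul_assoc, ← pow_add, Nat.add_sub_cancel' hc]
  rw [h4, ← pow_mul, h5] at h1
  rw [← h1] at h2
  have h6 : (((X - 1 : (ZMod p)[X]) ^ p ^ c₀) * (X - 1) ^ (p ^ c - p ^ c₀)) ∣
      (X - 1) ^ p ^ c₀ * ∑ j ∈ Finset.range (p ^ (c - c₀) * i), (X ^ p ^ c₀) ^ j := by
    rw [← pow_add, ← h3]
    exact h2
  exact (mul_dvd_mul_iff_left (pow_ne_zero _ h0)).1 h6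

theorem range_mono {V : Type} [AddCommGroup V] [Module (ZMod p) V] (f : Module.End (ZMod p) V)
    {M N : ℕ} (h : M ≤ N) : LinearMap.range (f ^ N) ≤ LinearMap.range (f ^ M) := by
  obtain ⟨j, rfl⟩ := Nat.exists_eq_add_of_le h
  rintro _ ⟨v, rfl⟩
  refine ⟨(f ^ j) v, ?_⟩
  rw [pow_add]
  rfl

end poly

variable {𝔾 : Type} [Group 𝔾] [TopologicalSpace 𝔾] [ContinuousMul 𝔾] {p : ℕ} [Fact p.Prime]
  {Ω : Type} {I : Ω → Subgroup 𝔾}

section kernel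

variable {H K A B WA W : Subgroup 𝔾} {γ : 𝔾} {c c₀ : ℕ}
  (hP : Pair p H K A B γ c)
  {V : Type} [AddCommGroup V] [Module (ZMod p) V] {ρ : Representation (ZMod p) H V}
  {π : 𝔾 → V} (hQ : IsQ H B W ρ π) (hB : ∀ g : H, (g : 𝔾) ∈ B → ∀ v, ρ g v = v)
  (hW : Valid p I B W) (hmin : ∀ W', Valid p I A W' → WA ≤ W')
  {w₀ : Ω} {e₀ : 𝔾} (he₀ : e₀ ∈ B) (hw₀ : e₀ * γ ^ p ^ c₀ ∈ I w₀) (hc : c₀ ≤ c)
  (hun : ∀ w, I w ⊓ A ≤ B ∨ ∃ e ∈ B, e * γ ^ p ^ c₀ ∈ I w)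
  (hBA : B.relIndex A ≠ 0)

omit [TopologicalSpace 𝔾] [ContinuousMul 𝔾] in
include hP hQ in
theorem power_sum {e : 𝔾} (he : e ∈ B) (u k : ℕ) : ∃ e' ∈ B, (e * γ ^ u) ^ k = e' * γ ^ (u * k) ∧
    π e' = aeval (ρ (gen hP)) (∑ j ∈ Finset.range k, (X ^ u) ^ j : (ZMod p)[X]) (π e) := by
  induction k with
  | zero =>
    refine ⟨1, B.one_mem, by rw [mul_zero, pow_zero, pow_zero, mul_one], ?_⟩
    rw [hQ.one, Finset.sum_range_zero, map_zero, LinearMap.zero_apply]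
  | succ k ih =>
    obtain ⟨e', he', h1, h2⟩ := ih
    have h3 : γ ^ (u * k) * e * (γ ^ (u * k))⁻¹ ∈ B := hP.Bn _ ((gen hP) ^ (u * k)).2 _ he
    have h4 : ρ ((gen hP) ^ (u * k)) (π e) = π (γ ^ (u * k) * e * (γ ^ (u * k))⁻¹) :=
      hQ.act ((gen hP) ^ (u * k)) e he
    refine ⟨e' * (γ ^ (u * k) * e * (γ ^ (u * k))⁻¹), B.mul_mem he' h3, ?_, ?_⟩
    · rw [pow_succ, h1, mul_add, mul_one, pow_add]
      group
    · rw [hQ.mul _ he' _ h3, h2, ← h4, Finset.sum_range_succ, map_add, LinearMap.add_apply,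
        map_pow, ← pow_mul, map_pow, aeval_X]

include hP hQ hB hW hmin he₀ hw₀ hc hun hBA in
/-- The kernel is small. -/
theorem ker_small (b : 𝔾) (hb : b ∈ B) (hbW : b ∈ WA) :
    π b ∈ LinearMap.range ((ρ (gen hP) - 1) ^ (p ^ c - p ^ c₀)) := by
  set R₁ : Submodule (ZMod p) V := LinearMap.range ((ρ (gen hP) - 1) ^ (p ^ c - p ^ c₀)) with hR₁
  have hRR : R hP ρ ≤ R₁ := range_mono _ (Nat.sub_le _ _)
  have hst : Stable ρ R₁ := by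
    rintro g _ ⟨v, rfl⟩
    exact ⟨ρ g v, pow_comm' (T_comm fun g x => act_comm hP hB g x) _ g v⟩
  have hAH : A ≤ H := hP.AK.trans hP.KH
  have hpc : ∀ i, p ^ c₀ * (p ^ (c - c₀) * i) = p ^ c * i := fun i => by
    rw [← mul_assoc, ← pow_add, Nat.add_sub_cancel' hc]
  -- the powers of the elements of the inertia groups
  have hpow : ∀ e ∈ B, ∀ i : ℕ, ∃ e' ∈ B, (e * γ ^ p ^ c₀) ^ (p ^ (c - c₀) * i) =
      e' * γ ^ (p ^ c * i) ∧ π e' ∈ R₁ := by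
    intro e he i
    obtain ⟨e', he', h1, h2⟩ := power_sum hP hQ he (p ^ c₀) (p ^ (c - c₀) * i)
    rw [hpc] at h1
    refine ⟨e', he', h1, ?_⟩
    rw [h2]
    exact aeval_range _ _ (sum_dvd' hc i) _
  set δ : 𝔾 := (e₀ * γ ^ p ^ c₀) ^ p ^ (c - c₀) with hδ
  have hδi : ∀ i : ℕ, ∃ e' ∈ B, δ ^ i = e' * γ ^ (p ^ c * i) ∧ π e' ∈ R₁ := by
    intro i
    obtain ⟨e', he', h1, h2⟩ := hpow e₀ he₀ i
    exact ⟨e', he', by rw [hδ, ← pow_mul, h1], h2⟩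
  have hδA : δ ∈ A := by
    obtain ⟨e', he', h1, -⟩ := hδi 1
    rw [pow_one, mul_one] at h1
    rw [h1]
    exact A.mul_mem (hP.BA he') hP.γA
  have hδI : δ ∈ I w₀ := (I w₀).pow_mem hw₀ _
  have hconj : ∀ (k : ℤ) (q : 𝔾), q ∈ B → π q ∈ R₁ → δ ^ k * q * (δ ^ k)⁻¹ ∈ B ∧
      π (δ ^ k * q * (δ ^ k)⁻¹) ∈ R₁ := by
    intro k q hq hqR
    have h1 : δ ^ k ∈ H := H.zpow_mem (hAH hδA) k
    refine ⟨hP.Bn _ h1 q hq, ?_⟩
    have h2 := hQ.act ⟨δ ^ k, h1⟩ q hq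
    have h3 : π (δ ^ k * q * (δ ^ k)⁻¹) = ρ ⟨δ ^ k, h1⟩ (π q) := h2.symm
    rw [h3]
    exact hst _ _ hqR
  let W' : Subgroup 𝔾 :=
    { carrier := {x | ∃ i : ℤ, ∃ q ∈ B, π q ∈ R₁ ∧ x = q * δ ^ i}
      mul_mem' := by
        rintro _ _ ⟨i, q, hq, hqR, rfl⟩ ⟨j, q', hq', hqR', rfl⟩
        obtain ⟨h1, h2⟩ := hconj i q' hq' hqR'
        refine ⟨i + j, _, B.mul_mem hq h1, ?_, ?_⟩
        · rw [hQ.mul _ hq _ h1]
          exact R₁.add_mem hqR h2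
        · rw [zpow_add]
          group
      one_mem' := by
        refine ⟨0, 1, B.one_mem, ?_, ?_⟩
        · rw [hQ.one]
          exact R₁.zero_mem
        · rw [zpow_zero, mul_one]
      inv_mem' := by
        rintro _ ⟨i, q, hq, hqR, rfl⟩
        have h0 : π q⁻¹ ∈ R₁ := by
          rw [hQ.inv hq]
          exact R₁.neg_mem hqR
        obtain ⟨h1, h2⟩ := hconj (-i) q⁻¹ (B.inv_mem hq) h0
        refine ⟨-i, _, h1, h2, ?_⟩
        rw [zpow_neg]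
        group }
  have hmem : ∀ x, x ∈ W' ↔ ∃ i : ℤ, ∃ q ∈ B, π q ∈ R₁ ∧ x = q * δ ^ i := fun x => Iff.rfl
  have hin : ∀ x ∈ B, π x ∈ R₁ → x ∈ W' := by
    intro x hx hxR
    exact (hmem x).2 ⟨0, x, hx, hxR, by rw [zpow_zero, mul_one]⟩
  have hin' : ∀ x ∈ B, π x ∈ R₁ → ∀ i : ℕ, x * γ ^ (p ^ c * i) ∈ W' := by
    intro x hx hxR i
    obtain ⟨e', he', h1, h2⟩ := hδi i
    refine (hmem _).2 ⟨i, x * e'⁻¹, B.mul_mem hx (B.inv_mem he'), ?_, ?_⟩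
    · rw [hQ.mul _ hx _ (B.inv_mem he'), hQ.inv he']
      exact R₁.add_mem hxR (R₁.neg_mem h2)
    · rw [zpow_natCast, h1]
      group
  have hWW' : W ≤ W' := by
    intro x hx
    refine hin x (hW.le hx) ?_
    rw [(hQ.ker x (hW.le hx)).2 hx]
    exact R₁.zero_mem
  have hval : Valid p I A W' := by
    refine ⟨?_, isOpen_mono hWW' hW.opn, ?_, ?_⟩
    · intro x hx
      obtain ⟨i, q, hq, -, rfl⟩ := (hmem x).1 hx
      exact A.mul_mem (hP.BA hq) (A.zpow_mem hδA _)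
    · have h1 := relIndex_mul_relIndex W B A hW.le hP.BA
      have h2 : W.relIndex A ≠ 0 := by
        rw [← h1]
        exact mul_ne_zero hW.fin hBA
      intro h3
      have h4 := relIndex_dvd_of_le_left A hWW'
      rw [h3] at h4
      exact h2 (Nat.eq_zero_of_zero_dvd h4)
    · rintro x ((⟨a, ha, rfl⟩ | ⟨a, ha, a', ha', rfl⟩) | ⟨hx, w, hw⟩)
      · obtain ⟨i, b, hb, rfl⟩ := hP.Aγ a ha
        have hδ : γ ^ (p ^ c * i) ∈ A := by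
          rw [pow_mul]
          exact A.pow_mem hP.γA i
        obtain ⟨b', hb', h1, h2⟩ := pow_form hP hQ hB hb hδ p
        rw [← Nat.cast_smul_eq_nsmul (ZMod p), CharP.cast_eq_zero, zero_smul, sub_zero] at h2
        rw [h1, ← pow_mul, mul_assoc]
        exact hin' b' hb' (hRR h2) (i * p)
      · obtain ⟨h1, h2⟩ := comm_form hP hQ hB ha ha'
        exact hin _ h1 (hRR h2)
      · rcases hun w with h | ⟨e, he, heI⟩
        · have h1 : x ∈ B := h ⟨hw, hx⟩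
          exact hWW' (hW.gen (Or.inr ⟨h1, w, hw⟩))
        · obtain ⟨i, b, hb, hxb⟩ := hP.Aγ x hx
          obtain ⟨e', he', h1, h3⟩ := hpow e he i
          have h4 : b * e'⁻¹ ∈ B := B.mul_mem hb (B.inv_mem he')
          have h5 : b * e'⁻¹ ∈ I w := by
            have h6 : b * e'⁻¹ = x * ((e * γ ^ p ^ c₀) ^ (p ^ (c - c₀) * i))⁻¹ := by
              rw [h1, hxb]
              group
            rw [h6]
            exact (I w).mul_mem hw ((I w).inv_mem ((I w).pow_mem heI _))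
          have h6 : π (b * e'⁻¹) = 0 := (hQ.ker _ h4).2 (hW.gen (Or.inr ⟨h4, w, h5⟩))
          rw [hQ.mul _ hb _ (B.inv_mem he'), hQ.inv he', ← sub_eq_add_neg, sub_eq_zero] at h6
          rw [hxb]
          exact hin' b hb (by rw [h6]; exact h3) i
  obtain ⟨i, q, hq, hqR, hbq⟩ := (hmem b).1 (hmin W' hval hbW)
  have hz : δ ^ i ∈ B := by
    have h1 : δ ^ i = q⁻¹ * b := by rw [hbq]; group
    rw [h1]
    exact B.mul_mem (B.inv_mem hq) hb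
  have h1 : π (δ ^ i) = 0 :=
    (hQ.ker _ hz).2 (hW.gen (Or.inr ⟨hz, w₀, (I w₀).zpow_mem hδI _⟩))
  rw [hbq, hQ.mul q hq _ hz, h1, add_zero]
  exact hqR

end kernel

variable [MulAction 𝔾 Ω]
  (hI : ∀ (g : 𝔾) (w : Ω), ∀ x ∈ I w, g * x * g⁻¹ ∈ I (g • w))
  {H K L : Subgroup 𝔾}

include hI in
/-- **The growth theorem, totally ramified case.** -/
theorem growth_tot (hKL : K ≤ L) (hLH : L ≤ H) (hKn : ∀ d ∈ H, ∀ x ∈ K, d * x * d⁻¹ ∈ K)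
    (hLn : ∀ d ∈ H, ∀ x ∈ L, d * x * d⁻¹ ∈ L) (hKo : IsOpen (K : Set 𝔾)) (hKf : K.index ≠ 0)
    {D : ℕ → Subgroup 𝔾} (hDn : ∀ m, (D m).Normal) (hDo : ∀ m, IsOpen (D m : Set 𝔾))
    (hDi : ∀ m, (D m).index = p ^ m) (hDc : ∀ m, IsCyclic (𝔾 ⧸ D m)) (hanti : Antitone D)
    {m₀ : ℕ} {w₀ : Ω} (hw₀ : ∀ M, ∀ x ∈ K ⊓ D m₀, ∃ y ∈ I w₀, y ∈ K ∧ y⁻¹ * x ∈ D M)
    (hun : ∀ w, (∀ M, I w ≤ D M) ∨ ∀ M, ∀ x ∈ K ⊓ D m₀, ∃ y ∈ I w, y ∈ K ∧ y⁻¹ * x ∈ D M)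
    (hram : ∃ t, ∀ m, ∃ T : Finset Ω, T.card ≤ t ∧
      ∀ w, I w ⊓ D m ≤ K ∨ ∃ u ∈ T, ∃ d ∈ D m, w = d • u)
    (hgen : ∀ C : Subgroup 𝔾, K ≤ C → C ≤ L → (∀ d ∈ H, ∀ x ∈ C, d * x * d⁻¹ ∈ C) →
      (∃ k, C.relIndex L = p ^ k) → C = L) {d : ℕ}
    (hd : ∀ (S : Type) [AddCommGroup S] [Module (ZMod p) S] [Module.Finite (ZMod p) S]
      (τ : Representation (ZMod p) H S), (∀ g : H, (g : 𝔾) ∈ K → ∀ x, τ g x = x) → IsSimple τ →
      (∃ g : H, (g : 𝔾) ∈ L ∧ ∃ x, τ g x ≠ x) → d ≤ finrank (ZMod p) S)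
    {m r s : ℕ} (hm : m₀ ≤ m) (hr : RankLe p I (K ⊓ D m) (p ^ r))
    (hs : ∃ Q, Valid p I (L ⊓ D m) Q ∧ p ^ s ≤ Q.relIndex (L ⊓ D m))
    (hn1 : (K ⊓ D m₀).relIndex K < (K ⊓ D m).relIndex K)
    (hlt : r < s + d * ((K ⊓ D m).relIndex K - (K ⊓ D m₀).relIndex K)) :
    ∃ b, ∀ M C, RankLe p I (L ⊓ D M) C → RankLe p I (K ⊓ D M) (b * C) := by
  classical
  have hp : p.Prime := Fact.out
  obtain ⟨t, ht⟩ := hram
  have hKH := hKL.trans hLH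
  have hKD : ∀ M, IsOpen ((K ⊓ D M : Subgroup 𝔾) : Set 𝔾) := fun M => by
    rw [coe_inf]
    exact hKo.inter (hDo M)
  have hDf : ∀ M, (D M).index ≠ 0 := fun M => by
    rw [hDi]
    exact pow_ne_zero _ hp.ne_zero
  have hKDf : ∀ M (Z : Subgroup 𝔾), (K ⊓ D M).relIndex Z ≠ 0 := fun M Z h =>
    index_inf_ne_zero hKf (hDf M) (index_eq_zero_of_relIndex_eq_zero h)
  have hLDn : ∀ M, ∀ d ∈ H, ∀ x ∈ L ⊓ D M, d * x * d⁻¹ ∈ L ⊓ D M := fun M d hd x hx =>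
    ⟨hLn d hd x hx.1, (hDn M).conj_mem x hx.2 d⟩
  have hLf : L.index ≠ 0 := fun h => hKf (by
    have := relIndex_mul_index hKL
    rw [h, mul_zero] at this
    exact this.symm)
  have hLo : IsOpen (L : Set 𝔾) := isOpen_mono hKL hKo
  have hKLf : K.relIndex L ≠ 0 := fun h => hKf (index_eq_zero_of_relIndex_eq_zero h)
  have hg := gen_top hKL hLH hKn hLn hKLf hgen
  have hgl : ∀ M, L ⊓ D M ≤ Subgroup.closure (Reg p (K ⊓ D M) (L ⊓ D M) ∪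
      ((K ⊓ D M : Subgroup 𝔾) : Set 𝔾)) := fun M => gen_level hKL hLH hKn hg (hDn M) (hDi M)
  refine ⟨p ^ (K.index * r) * cst K.index (L.index * t) + p ^ r * p ^ m, fun M C hC => ?_⟩
  rcases le_total m M with hmM | hMm
  · obtain ⟨γ, c, hc, hP⟩ := exists_pair hKH hKn (hDn m) (hDn M) (hanti hmM)
      (hDi m) (hDi M) (hDc M)
    -- the base level
    have h01 : (K ⊓ D m₀).relIndex K ∣ p ^ m₀ := by
      rw [inf_relIndex_left, ← hDi m₀]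
      exact relIndex_dvd_index_of_normal (D m₀) K
    obtain ⟨c₀, -, hc₀⟩ := (Nat.dvd_prime_pow hp).1 h01
    have hγ₀ : γ ^ p ^ c₀ ∈ K ⊓ D m₀ := by
      have hN : ((K ⊓ D m₀).subgroupOf K).Normal := ⟨fun q hq l => ⟨(l * q * l⁻¹).2, by
        have h3 : ((l * q * l⁻¹ : K) : 𝔾) = l * q * (l : 𝔾)⁻¹ := rfl
        show ((l * q * l⁻¹ : K) : 𝔾) ∈ D m₀
        rw [h3]
        exact (hDn m₀).conj_mem _ hq.2 _⟩⟩
      have h1 := ((K ⊓ D m₀).subgroupOf K).pow_index_mem (⟨γ, hP.γK⟩ : K)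
      have h2 : ((K ⊓ D m₀).subgroupOf K).index = p ^ c₀ := hc₀
      rw [h2, mem_subgroupOf] at h1
      exact h1
    rw [hc, hc₀] at hlt hn1
    have hcc : c₀ ≤ c := ((Nat.pow_lt_pow_iff_right hp.one_lt).1 hn1).le
    obtain ⟨T, hTt, hT⟩ := ht M
    have hLDf : (L ⊓ D M).relIndex (D M) ≠ 0 := fun h =>
      index_inf_ne_zero hLf (hDf M) (index_eq_zero_of_relIndex_eq_zero h)
    obtain ⟨T', hT'c, hT'⟩ := exists_TL hLDf T
    have h1 : T'.card ≤ L.index * t := by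
      refine hT'c.trans (Nat.mul_le_mul ?_ hTt)
      rw [inf_relIndex_right]
      exact relIndex_le_index' hLf
    have h2 : (K ⊓ D M).relIndex (L ⊓ D M) ≤ K.index := by
      rw [inf_relIndex_inf]
      exact relIndex_le_index' hKf
    obtain ⟨j, hj⟩ : ∃ j, p ^ c - p ^ c₀ = j + 1 := ⟨p ^ c - p ^ c₀ - 1, by omega⟩
    have hel : ∀ w, (∃ y ∈ I w, y ∈ K ∧ y⁻¹ * γ ^ p ^ c₀ ∈ D M) →
        ∃ e ∈ K ⊓ D M, e * γ ^ p ^ c₀ ∈ I w := by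
      rintro w ⟨y, hyI, hyK, hyD⟩
      refine ⟨y * (γ ^ p ^ c₀)⁻¹, ⟨K.mul_mem hyK (K.inv_mem hγ₀.1), ?_⟩, by
        rw [inv_mul_cancel_right]
        exact hyI⟩
      have h3 := (hDn M).conj_mem _ ((D M).inv_mem hyD) (γ ^ p ^ c₀)
      have h4 : γ ^ p ^ c₀ * (y⁻¹ * γ ^ p ^ c₀)⁻¹ * (γ ^ p ^ c₀)⁻¹ = y * (γ ^ p ^ c₀)⁻¹ := by
        group
      show y * (γ ^ p ^ c₀)⁻¹ ∈ D M
      rw [← h4]
      exact h3
    have hunP : ∀ w, I w ⊓ (K ⊓ D m) ≤ K ⊓ D M ∨ ∃ e ∈ K ⊓ D M, e * γ ^ p ^ c₀ ∈ I w := by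
      intro w
      rcases hun w with h | h
      · exact Or.inl fun x hx => ⟨hx.2.1, h M hx.1⟩
      · exact Or.inr (hel w (h M _ hγ₀))
    obtain ⟨e₀, he₀, hw₀'⟩ := hel w₀ (hw₀ M _ hγ₀)
    refine (upper hI hP (hKDf m H) (hKDf M H) (hKD m) (hKD M) (inf_le_inf_right _ hKL)
      (inf_le_inf_right _ hKL) (inf_le_inf_left _ (hanti hmM)) (inf_le_left.trans hLH)
      inf_le_left (hLDn M) (hgl m) (hgl M)
      (j := j) (by
        intro WA W hmin hW V _ _ ρ π hQ hB b hb hbW g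
        rw [← hj]
        have h5 := ker_small hP hQ hB hW hmin he₀ hw₀' hcc hunP (hKDf M _) b hb hbW
        refine Submodule.sub_mem _ ?_ h5
        obtain ⟨v, hv⟩ := h5
        rw [← hv]
        exact ⟨ρ g v, pow_comm' (T_comm fun g x => act_comm hP hB g x) _ g v⟩)
      hd hr hs (by rwa [← hj]) h2 (hKDf M _) T' h1 ?_ hC).mono ?_
    · intro w
      rcases hT w with h | ⟨u, hu, d, hd, rfl⟩
      · exact Or.inl fun x hx => ⟨h ⟨hx.1, hx.2.2⟩, hx.2.2⟩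
      · exact Or.inr (hT' u hu d hd)
    · rw [← mul_assoc]
      exact Nat.mul_le_mul_right _ (Nat.le_add_right _ _)
  · have h1 : K ⊓ D m ≤ K ⊓ D M := inf_le_inf_left _ (hanti hMm)
    refine (hr.of_le h1 (hKD m) (hKDf m _)).mono ?_
    have h2 : (K ⊓ D m).relIndex (K ⊓ D M) ≤ p ^ m := by
      rw [inf_comm K, inf_comm K, inf_relIndex_inf, ← hDi m]
      exact relIndex_le_index' (hDf m)
    have h3 : 1 ≤ C := by
      have h4 : Valid p I (L ⊓ D M) (L ⊓ D M) := Valid.self (by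
        rw [coe_inf]
        exact hLo.inter (hDo M))
      have h5 := hC _ h4.le h4.opn h4.fin h4.gen
      rwa [relIndex_self] at h5
    calc p ^ r * (K ⊓ D m).relIndex (K ⊓ D M) ≤ p ^ r * p ^ m := Nat.mul_le_mul_left _ h2
      _ ≤ p ^ (K.index * r) * cst K.index (L.index * t) + p ^ r * p ^ m := Nat.le_add_left _ _
      _ = (p ^ (K.index * r) * cst K.index (L.index * t) + p ^ r * p ^ m) * 1 := (mul_one _).symm
      _ ≤ _ := Nat.mul_le_mul_left _ h3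

end Pool.Agent.V7H53.GG
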