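import Pool.Agent.V7H53.GG.Defs

/-!
# Growth of `p`-ranks in the cyclotomic tower: definitions for the case that `p` is not in `S`
-/

set_option autoImplicit false

namespace Pool.Agent.V7H53.GG

open Module IntermediateField Pool.Agent.Q60.MU Pool.Agent.V7H44.MF Pool.Agent.V7H53.TR

/-- The degree of `N` is less than `p ^ (m₀ + 1)`, or `N` is contained in a Galois extension of `ℚ`
whose degree is finite and not divisible by `p ^ (m₀ + 1)`. -/
def BaseLevel (p : ℕ) (N : IntermediateField ℚ Qb) (m₀ : ℕ) : Prop :=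
  finrank ℚ N < p ^ (m₀ + 1) ∨
    ∃ N', N ≤ N' ∧ FiniteDimensional ℚ N' ∧ StableOver ⊥ N' ∧ ¬ p ^ (m₀ + 1) ∣ finrank ℚ N'

/-- At the level `m` the `p`-rank of `N` exceeds that of `F` at least by
`d * ([N R_m : N] - [N R_m₀ : N])`. -/
def GapFrom (p : ℕ) (S : Set ℕ) (R : ℕ → IntermediateField ℚ Qb) (F N : IntermediateField ℚ Qb)
    (d m₀ m : ℕ) : Prop :=
  ∀ r s n n₀, PRankLe p S (N ⊔ R m) r → PRankGe p S (F ⊔ R m) s → LayerDegree R N m n →
    LayerDegree R N m₀ n₀ → s + d * n ≤ r + d * n₀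

/-- The main part, for the layer `F'` of `p`-power degree over `F` in `N`, the dimension `d` and the
base level `m₀`. -/
def MainPartFrom (p : ℕ) (S : Set ℕ) (R : ℕ → IntermediateField ℚ Qb)
    (F N F' : IntermediateField ℚ Qb) (d m₀ : ℕ) : Prop :=
  (∀ m > m₀, ¬ GapFrom p S R F' N d m₀ m → RelBdd p S R F' N) ∧
  (0 < d → (Bdd p S R N ↔ Bdd p S R F ∧ ∃ m > m₀, ¬ GapFrom p S R F' N d m₀ m)) ∧
  (Bdd p S R F → ∀ E ≤ N, ¬ Bdd p S R E → ∀ m > m₀, GapFrom p S R F' N d m₀ m) ∧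
  (Bdd p S R F → ∀ m > m₀, ∀ r n n₀ : ℕ, LayerDegree R N m n → LayerDegree R N m₀ n₀ →
    PRankLe p S (N ⊔ R m) r → r + d * n₀ < d * n → ∀ E ≤ N, Bdd p S R E)

/-- The `p`-ranks of the layers of the abelian number fields are bounded. -/
def AbelianZero (p : ℕ) (S : Set ℕ) (R : ℕ → IntermediateField ℚ Qb) : Prop :=
  ∀ F : IntermediateField ℚ Qb, FiniteDimensional ℚ F → IsAbelianField F → Bdd p S R F

/-- The part on the extensions of abelian number fields. -/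
def AbelianPart (p : ℕ) (S : Set ℕ) (R : ℕ → IntermediateField ℚ Qb)
    (F N F' : IntermediateField ℚ Qb) (d m₀ : ℕ) : Prop :=
  AbelianZero p S R → IsAbelianField F →
    (∀ E ≤ N, Bdd p S R E ∨ ∀ m > m₀, GapFrom p S R F' N d m₀ m) ∧
    (0 < d → (Bdd p S R N ↔ ∃ m > m₀, ¬ GapFrom p S R F' N d m₀ m))

end Pool.Agent.V7H53.GG
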