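import Pool.Agent.V7H53.GG.Inert
import Pool.Agent.V7H53.GG.Tot
import Pool.Agent.V7H53.GG.Fld
import Pool.Agent.V7H53.GG.Crit
import Pool.Agent.V7H53.GG.TotDefs

/-!
# The growth theorem for number fields, when `p` is not in `S`
-/

set_option autoImplicit false

namespace Pool.Agent.V7H53.GG

open Subgroup Module IntermediateField Pool.Agent.Q60.MU Pool.Agent.V7H44.MF Pool.Agent.V7H53.TR
open scoped Pointwise commutatorElement

variable {p : ℕ} [Fact p.Prime]

section group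

variable {𝔾 : Type} [Group 𝔾]

theorem base_level {D : ℕ → Subgroup 𝔾} (hDn : ∀ m, (D m).Normal)
    (hDi : ∀ m, (D m).index = p ^ m) (hDc : ∀ M, ∃ γ : 𝔾, ∀ x, ∃ i : ℤ, (γ ^ i)⁻¹ * x ∈ D M)
    (hanti : Antitone D) {I J : Subgroup 𝔾} (hsurj : ∀ M x, ∃ y ∈ I, y⁻¹ * x ∈ D M)
    (hJ : J ≤ I) {m₀ : ℕ} (hidx : ∀ a, p ^ a ∣ J.relIndex I → a ≤ m₀) (M : ℕ) :
    ∀ x ∈ D m₀, ∃ y ∈ J, y⁻¹ * x ∈ D M := by
  have hp : p.Prime := Fact.out
  intro x hx
  have hN := hDn M
  obtain ⟨γ, hγ⟩ := hDc M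
  rcases le_total M m₀ with h | h
  · exact ⟨1, J.one_mem, by rw [inv_one, one_mul]; exact hanti h hx⟩
  set W := J ⊔ D M with hW
  have hDW : D M ≤ W := le_sup_right
  -- `W` is normal
  have hWn : W.Normal := by
    refine ⟨fun w hw g => ?_⟩
    obtain ⟨i, hi⟩ := hγ w
    obtain ⟨j, hj⟩ := hγ g
    have e1 : w = γ ^ i * ((γ ^ i)⁻¹ * w) := by group
    have e2 : g = γ ^ j * ((γ ^ j)⁻¹ * g) := by group
    have h1 : g * w * g⁻¹ * w⁻¹ ∈ D M := by
      rw [← QuotientGroup.eq_one_iff (N := D M)]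
      have q1 : ((w : 𝔾) : 𝔾 ⧸ D M) = (γ : 𝔾 ⧸ D M) ^ i := by
        rw [← QuotientGroup.mk_zpow]
        exact (QuotientGroup.eq.2 hi).symm
      have q2 : ((g : 𝔾) : 𝔾 ⧸ D M) = (γ : 𝔾 ⧸ D M) ^ j := by
        rw [← QuotientGroup.mk_zpow]
        exact (QuotientGroup.eq.2 hj).symm
      rw [QuotientGroup.mk_mul, QuotientGroup.mk_mul, QuotientGroup.mk_mul, QuotientGroup.mk_inv,
        QuotientGroup.mk_inv, q1, q2]
      group
    have h2 : g * w * g⁻¹ = (g * w * g⁻¹ * w⁻¹) * w := by group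
    rw [h2]
    exact W.mul_mem (hDW h1) hw
  have h1 : W.index ∣ p ^ M := by
    rw [← hDi M]
    exact index_dvd_of_le hDW
  obtain ⟨a, -, ha⟩ := (Nat.dvd_prime_pow hp).1 h1
  have hIW : I ⊔ W = ⊤ := by
    rw [eq_top_iff]
    intro z _
    obtain ⟨y, hy, hyz⟩ := hsurj M z
    have h2 : z = y * (y⁻¹ * z) := by group
    rw [h2]
    exact mul_mem (le_sup_left (a := I) hy) (le_sup_right (b := W) (hDW hyz))
  have h2 : W.index = W.relIndex I := by
    rw [← relIndex_top_right, ← hIW, relIndex_sup_right]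
  have h3 : W.relIndex I ∣ J.relIndex I := relIndex_dvd_of_le_left I le_sup_left
  have ham : a ≤ m₀ := hidx a (by rw [← ha, h2]; exact h3)
  -- `x` is in `W`
  obtain ⟨i, hi⟩ := hγ x
  have hγi : γ ^ i ∈ D m₀ := by
    have h4 : γ ^ i = x * ((γ ^ i)⁻¹ * x)⁻¹ := by group
    rw [h4]
    exact mul_mem hx (inv_mem (hanti h hi))
  have hN0 := hDn m₀
  have hord : orderOf (γ : 𝔾 ⧸ D m₀) = p ^ m₀ := by
    rw [← hDi m₀]
    refine orderOf_eq_card_of_forall_mem_zpowers fun y => ?_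
    obtain ⟨z, rfl⟩ := QuotientGroup.mk_surjective y
    obtain ⟨j, hj⟩ := hγ z
    refine ⟨j, ?_⟩
    show (γ : 𝔾 ⧸ D m₀) ^ j = _
    rw [← QuotientGroup.mk_zpow]
    exact QuotientGroup.eq.2 (hanti h hj)
  have h4 : ((p ^ m₀ : ℕ) : ℤ) ∣ i := by
    rw [← hord]
    apply orderOf_dvd_iff_zpow_eq_one.2
    rw [← QuotientGroup.mk_zpow, QuotientGroup.eq_one_iff]
    exact hγi
  have h5 : γ ^ i ∈ W := by
    obtain ⟨j, hj⟩ := (Int.natCast_dvd_natCast.2 (pow_dvd_pow p ham)).trans h4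
    rw [hj, zpow_mul, zpow_natCast]
    refine zpow_mem ?_ j
    rw [← ha]
    exact pow_index_mem _ γ
  have h6 : x ∈ W := by
    have h7 : x = γ ^ i * ((γ ^ i)⁻¹ * x) := by group
    rw [h7]
    exact W.mul_mem h5 (hDW hi)
  rw [← SetLike.mem_coe, hW, mul_normal] at h6
  obtain ⟨y, hy, z, hz, rfl⟩ := Set.mem_mul.1 h6
  exact ⟨y, hy, by rw [inv_mul_cancel_left]; exact hz⟩

end group

/-- There is a prime above `p`. -/
theorem exists_above : ∃ A : ValuationSubring Qb, (p : Qb) ∈ A.nonunits := by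
  have hp : p.Prime := Fact.out
  have h : ((p : Qb)⁻¹) ∉ (integralClosure ℤ Qb).toSubring := by
    intro h1
    have h2 : IsIntegral ℤ ((p : Qb)⁻¹) := h1
    have h3 : (p : Qb)⁻¹ = algebraMap ℚ Qb ((p : ℚ)⁻¹) := by rw [map_inv₀, map_natCast]
    rw [h3, isIntegral_algebraMap_iff (algebraMap ℚ Qb).injective] at h2
    obtain ⟨n, hn⟩ := IsIntegrallyClosed.isIntegral_iff.1 h2
    have h4 : (n : ℚ) = (p : ℚ)⁻¹ := hn
    have h5 : (n : ℚ) * (p : ℚ) = 1 := by
      rw [h4, inv_mul_cancel₀]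
      exact_mod_cast hp.ne_zero
    have h6 : n * (p : ℤ) = 1 := by exact_mod_cast h5
    have h7 : IsUnit (p : ℤ) := IsUnit.of_mul_eq_one n (by rw [mul_comm]; exact h6)
    exact hp.one_lt.ne' (by simpa using Int.isUnit_iff_natAbs_eq.1 h7)
  obtain ⟨V, -, hV⟩ := Subring.exists_le_valuationSubring_of_isIntegrallyClosedIn h
  exact ⟨V, by
    rw [ValuationSubring.mem_nonunits_iff_or]
    exact Or.inr hV⟩

theorem not_above {S : Set ℕ} (hS : ∀ ℓ ∈ S, ℓ.Prime) (hpS : p ∉ S) {A : ValuationSubring Qb}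
    (hA : (p : Qb) ∈ A.nonunits) : ¬ Above S A := by
  have hp : p.Prime := Fact.out
  rintro ⟨ℓ, hℓ, h⟩
  have hne : ℓ ≠ p := fun e => hpS (e ▸ hℓ)
  have hco : Nat.Coprime ℓ p := (Nat.coprime_primes (hS ℓ hℓ) hp).2 hne
  obtain ⟨a, b, hab⟩ := Int.isCoprime_iff_gcd_eq_one.2 (by simpa using hco : Int.gcd (ℓ : ℤ) p = 1)
  have h1 : (1 : Qb) = (ℓ : Qb) * (a : Qb) + (p : Qb) * (b : Qb) := by
    have := congrArg (Int.cast (R := Qb)) hab
    push_cast at this
    rw [← this]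
    ring
  have h2 : (1 : Qb) ∈ A.nonunits := by
    rw [h1]
    exact add_mem (mul_nonunits h (intCast_mem A a)) (mul_nonunits hA (intCast_mem A b))
  rw [ValuationSubring.mem_nonunits_iff, map_one] at h2
  exact lt_irrefl _ h2

/-- Bounds for the ramification in the tower of `N`. -/
theorem base_field (hp2 : p ≠ 2) {S : Set ℕ} (hS : ∀ ℓ ∈ S, ℓ.Prime) (hpS : p ∉ S)
    {R : ℕ → IntermediateField ℚ Qb} (hR : IsCyclotomicTower p R) {N : IntermediateField ℚ Qb}
    (hN : FiniteDimensional ℚ N) {m₀ : ℕ} (hm₀ : BaseLevel p N m₀) {A : ValuationSubring Qb}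
    (hA : (p : Qb) ∈ A.nonunits) (M : ℕ) : ∀ x ∈ (R m₀).fixingSubgroup,
      ∃ y ∈ inertiaOff S A, y ∈ N.fixingSubgroup ∧ y⁻¹ * x ∈ (R M).fixingSubgroup := by
  have hp : p.Prime := Fact.out
  have hI : inertiaOff S A = inertia A := by
    unfold inertiaOff
    rw [if_neg (not_above hS hpS hA)]
  intro x hx
  have hKf := index_ne_zero' N
  obtain ⟨y, hy, hyx⟩ := base_level (p := p) (D := fun m => (R m).fixingSubgroup)
    (tower_normal hR) (tower_index hR)
    (fun M => by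
      obtain ⟨γ, hγ⟩ := exists_cyc_gen (p := p) hp2 M
      exact ⟨γ, fun x => by
        obtain ⟨i, hi⟩ := hγ x
        exact ⟨i, fixingSubgroup_le (hR M).1 hi⟩⟩)
    (tower_anti hR hp2) (I := inertia A) (J := inertia A ⊓ N.fixingSubgroup)
    (fun M x => by
      obtain ⟨y, hy, h⟩ := inertia_surj hA hp2 x M
      exact ⟨y, hy, fixingSubgroup_le (hR M).1 h⟩)
    inf_le_left (m₀ := m₀) (by
      intro a ha
      rw [inf_relIndex_left] at ha
      rcases hm₀ with h | ⟨N', hNN', hfd, hgal, h⟩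
      · have h1 : N.fixingSubgroup.relIndex (inertia A) ≤ finrank ℚ N := by
          rw [finrank_eq_fixingSubgroup_index]
          exact relIndex_le_index' hKf
        have h2 : N.fixingSubgroup.relIndex (inertia A) ≠ 0 := fun h0 =>
          hKf (index_eq_zero_of_relIndex_eq_zero h0)
        have h3 := (Nat.le_of_dvd (Nat.pos_of_ne_zero h2) ha).trans_lt (h1.trans_lt h)
        exact Nat.lt_succ_iff.1 ((Nat.pow_lt_pow_iff_right hp.one_lt).1 h3)
      · have hn : N'.fixingSubgroup.Normal := (InfiniteGalois.normal_iff_isGalois N').2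
          (isGalois_iff.2 ⟨inferInstance, (normal_iff_forall_map_le'.2 fun σ => by
            rintro _ ⟨x, hx, rfl⟩
            exact hgal σ (by rw [IntermediateField.fixingSubgroup_bot]; trivial) x hx)⟩)
        have h1 : p ^ a ∣ finrank ℚ N' := by
          rw [finrank_eq_fixingSubgroup_index]
          exact ha.trans ((relIndex_dvd_of_le_left _ (fixingSubgroup_le hNN')).trans
            (relIndex_dvd_index_of_normal _ _))
        by_contra hcon
        exact h ((pow_dvd_pow p (not_le.1 hcon)).trans h1)) M x hx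
  exact ⟨y, by rw [hI]; exact hy.1, hy.2, hyx⟩

theorem layer_lt (hp2 : p ≠ 2) {R : ℕ → IntermediateField ℚ Qb} (hR : IsCyclotomicTower p R)
    {N : IntermediateField ℚ Qb} (hN : FiniteDimensional ℚ N) {m₀ : ℕ} (hm₀ : BaseLevel p N m₀)
    {m : ℕ} (hm : m₀ < m) : (N.fixingSubgroup ⊓ (R m₀).fixingSubgroup).relIndex N.fixingSubgroup <
      (N.fixingSubgroup ⊓ (R m).fixingSubgroup).relIndex N.fixingSubgroup := by
  have hp : p.Prime := Fact.out
  obtain ⟨A, hA⟩ := exists_above (p := p)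
  have hanti := tower_anti hR hp2 hm.le
  have hanti' : (R m).fixingSubgroup ≤ (R m₀).fixingSubgroup := hanti
  have hle : N.fixingSubgroup ⊓ (R m).fixingSubgroup ≤ N.fixingSubgroup ⊓ (R m₀).fixingSubgroup :=
    inf_le_inf_left _ hanti'
  have hKf := index_ne_zero' N
  have hf : ∀ i, (N.fixingSubgroup ⊓ (R i).fixingSubgroup).relIndex N.fixingSubgroup ≠ 0 := by
    intro i h
    have := index_eq_zero_of_relIndex_eq_zero h
    exact index_inf_ne_zero hKf (by rw [tower_index hR]; exact pow_ne_zero _ hp.ne_zero) this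
  refine lt_of_le_of_ne (Nat.le_of_dvd (Nat.pos_of_ne_zero (hf m))
    (relIndex_dvd_of_le_left _ hle)) fun heq => ?_
  have h1 := relIndex_mul_relIndex _ _ _ hle inf_le_left
  rw [heq] at h1
  have h2 : (N.fixingSubgroup ⊓ (R m).fixingSubgroup).relIndex
      (N.fixingSubgroup ⊓ (R m₀).fixingSubgroup) = 1 :=
    Nat.eq_of_mul_eq_mul_right (Nat.pos_of_ne_zero (hf m)) (by rw [h1, one_mul])
  have h3 := relIndex_eq_one.1 h2
  have h4 : (R m₀).fixingSubgroup ≤ (R m).fixingSubgroup := by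
    intro x hx
    obtain ⟨y, -, hy, hyx⟩ := base_field hp2 (S := ∅) (fun _ h => absurd h (Set.notMem_empty _))
      (Set.notMem_empty _) hR hN hm₀ hA m x hx
    have h5 : y ∈ (R m₀).fixingSubgroup := by
      have h6 : y = x * (y⁻¹ * x)⁻¹ := by group
      rw [h6]
      exact mul_mem hx (inv_mem (hanti' hyx))
    have h6 : x = y * (y⁻¹ * x) := by group
    rw [h6]
    exact mul_mem (h3 ⟨hy, h5⟩).2 hyx
  have h5 := relIndex_mul_index hanti'
  rw [relIndex_eq_one.2 h4, one_mul, tower_index hR, tower_index hR] at h5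
  exact absurd h5 ((Nat.pow_lt_pow_iff_right hp.one_lt).2 hm).ne

/-- **One level suffices.** -/
theorem one_level_from (hp2 : p ≠ 2) {S : Set ℕ} (hS : ∀ ℓ ∈ S, ℓ.Prime) (hpS : p ∉ S)
    {R : ℕ → IntermediateField ℚ Qb}
    (hR : IsCyclotomicTower p R) {k F N : IntermediateField ℚ Qb} (hN : FiniteDimensional ℚ N)
    (hkF : k ≤ F) (hFN : F ≤ N) (hFk : StableOver k F) (hNk : StableOver k N) {m₀ : ℕ}
    (hm₀ : BaseLevel p N m₀)
    (hlay : NoPLayer p k F N) {d : ℕ} (hd : DimGe p k F N d) {m : ℕ} (hm : m₀ < m)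
    (hgap : ¬ GapFrom p S R F N d m₀ m) : RelBdd p S R F N := by
  classical
  have hp : p.Prime := Fact.out
  have hF : FiniteDimensional ℚ F := fd_of_le hN hFN
  unfold GapFrom at hgap
  push Not at hgap
  obtain ⟨r, s, n, n₀, hr, hs, hn, hn₀, hlt⟩ := hgap
  have hRf := tower_finite hR
  have hRm := hRf m
  have hKo := N.fixingSubgroup_isOpen
  have hKf := index_ne_zero' N
  have hKL : N.fixingSubgroup ≤ F.fixingSubgroup := fixingSubgroup_le hFN
  have hDo := tower_open hR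
  obtain ⟨t, ht⟩ := ramified_of_finDec (finDec hp hp2 fun m => (hR m).1) hKo hKf
  rw [← rankLe_level S hRf] at hr
  have hs' := valid_of_elementary S hs
  rw [fixingSubgroup_sup] at hs'
  have hidx : ∀ i q, LayerDegree R N i q →
      (N.fixingSubgroup ⊓ (R i).fixingSubgroup).relIndex N.fixingSubgroup = q := by
    intro i q hq
    have hRi := hRf i
    have h1 := relIndex_mul_index
      (inf_le_left : N.fixingSubgroup ⊓ (R i).fixingSubgroup ≤ N.fixingSubgroup)
    unfold LayerDegree at hq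
    rw [finrank_eq_fixingSubgroup_index, finrank_eq_fixingSubgroup_index, fixingSubgroup_sup,
      ← h1] at hq
    exact Nat.eq_of_mul_eq_mul_right (Nat.pos_of_ne_zero hKf) hq
  have hstep := layer_lt hp2 hR hN hm₀ hm
  obtain ⟨w₀, hw₀⟩ := exists_above (p := p)
  have hbase : ∀ w : ValuationSubring Qb, (p : Qb) ∈ w.nonunits → ∀ M,
      ∀ x ∈ N.fixingSubgroup ⊓ (R m₀).fixingSubgroup,
        ∃ y ∈ inertiaOff S w, y ∈ N.fixingSubgroup ∧ y⁻¹ * x ∈ (R M).fixingSubgroup :=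
    fun w hw M x hx => base_field hp2 hS hpS hR hN hm₀ hw M x hx.2
  obtain ⟨b, hb⟩ := growth_tot (p := p) (I := inertiaOff S) (inertiaOff_conj S) hKL
    (fixingSubgroup_le hkF) (conj_of_stable hNk) (conj_of_stable hFk) hKo hKf
    (D := fun m => (R m).fixingSubgroup) (tower_normal hR) hDo (tower_index hR)
    (tower_cyclic hR hp2) (tower_anti hR hp2) (m₀ := m₀) (w₀ := w₀) (hbase w₀ hw₀)
    (fun w => by
      by_cases hw : (p : Qb) ∈ w.nonunits
      · exact Or.inr (hbase w hw)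
      · exact Or.inl fun M σ hσ => fixingSubgroup_le (hR M).1
          (inertia_cyc hw (inertiaOff_le S w hσ) M))
    ⟨t, fun m => by
      obtain ⟨T, hT1, hT2⟩ := ht m
      exact ⟨T, hT1, fun w => (hT2 w).imp
        (fun h => (inf_le_inf_right _ (inertiaOff_le S w)).trans h) id⟩⟩
    (by
      intro C hKC hCL hCn hCi
      obtain ⟨a, ha⟩ := hCi
      have hCo : IsOpen (C : Set Gal(Qb/ℚ)) := Subgroup.isOpen_mono hKC hKo
      have hfix := fix_fixed hCo
      have h1 : F ≤ fixedField C := (le_iff_le _ _).2 hCL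
      have h2 : fixedField C ≤ N := by
        rw [← InfiniteGalois.fixedField_fixingSubgroup N]
        exact fixedField_antitone hKC
      have h3 := hlay (fixedField C) h1 h2 (fixed_stable hCn) ⟨a, by
        rw [finrank_eq_fixingSubgroup_index, finrank_eq_fixingSubgroup_index, hfix, ← ha]
        exact (relIndex_mul_index hCL).symm⟩
      rw [← hfix, h3])
    (d := d) (fun V _ _ _ τ h1 h2 h3 => hd V τ (fun g hg x => h1 g hg x) h2 (fun h4 => by
      obtain ⟨g, hg, x, hx⟩ := h3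
      exact hx (h4 g hg x))) (m := m) (r := r) (s := s) hm.le hr hs' hstep (by
        rw [hidx m n hn, hidx m₀ n₀ hn₀]
        rw [hidx m n hn, hidx m₀ n₀ hn₀] at hstep
        rw [Nat.mul_sub]
        have h5 : d * n₀ ≤ d * n := Nat.mul_le_mul_left d hstep.le
        omega)
  obtain ⟨c, hc⟩ := exists_pow hp b
  refine ⟨c, fun M t hM => ?_⟩
  rw [← rankLe_level S hRf] at hM ⊢
  refine (hb M _ hM).mono ?_
  rw [add_comm, pow_add]
  exact Nat.mul_le_mul_right _ hc

end Pool.Agent.V7H53.GG
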