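import Pool.Agent.V7H53.GG.One

/-!
# Minimal layers
-/

set_option autoImplicit false

namespace Pool.Agent.V7H53.GG

open Subgroup Module IntermediateField Pool.Agent.Q60.MU Pool.Agent.V7H44.MF Pool.Agent.V7H53.TR
open scoped Pointwise commutatorElement

variable {p : ℕ} [Fact p.Prime]

/-- A linear map of prime order `ℓ ≠ p`. -/
theorem order_le {V : Type} [AddCommGroup V] [Module (ZMod p) V] [Module.Finite (ZMod p) V]
    {ℓ : ℕ} (hℓ : ℓ.Prime) (hne : ℓ ≠ p) (f : Module.End (ZMod p) V) (hf : f ^ ℓ = 1)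
    (hf1 : f ≠ 1) : orderOf (p : ZMod ℓ) ≤ finrank (ZMod p) V := by
  classical
  have hp : p.Prime := Fact.out
  have hℓf : Fact ℓ.Prime := ⟨hℓ⟩
  have hfin : Finite V := Module.finite_of_finite (ZMod p)
  have ft : Fintype V := Fintype.ofFinite V
  let U : Submodule (ZMod p) V := LinearMap.ker (f - 1)
  have hU : U ≠ ⊤ := by
    intro h
    apply hf1
    have h1 : f - 1 = 0 := LinearMap.ker_eq_top.1 h
    exact sub_eq_zero.1 h1
  have hlt : finrank (ZMod p) U < finrank (ZMod p) V := Submodule.finrank_lt hU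
  let g : Function.End V := fun x => f x
  have hpow : ∀ (n : ℕ) (x : V), (g ^ n) x = (f ^ n) x := by
    intro n
    induction n with
    | zero => intro x; rfl
    | succ n ih =>
      intro x
      rw [pow_succ, pow_succ, Module.End.mul_apply, ← ih]
      rfl
  have hg : g ^ ℓ ^ 1 = 1 := by
    rw [pow_one]
    funext x
    rw [hpow, hf]
    rfl
  have h1 := Equiv.Perm.card_fixedPoints_modEq (p := ℓ) (n := 1) (f := g) hg
  have h2 : Fintype.card V = p ^ finrank (ZMod p) V := by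
    have h3 := Module.natCard_eq_pow_finrank (K := ZMod p) (V := V)
    rwa [Nat.card_zmod, Nat.card_eq_fintype_card] at h3
  have h3 : Fintype.card (Function.fixedPoints g) = p ^ finrank (ZMod p) U := by
    have h4 := Module.natCard_eq_pow_finrank (K := ZMod p) (V := U)
    rw [Nat.card_zmod] at h4
    rw [← h4, ← Nat.card_eq_fintype_card]
    refine Nat.card_congr (Equiv.subtypeEquivRight fun x => ?_)
    show g x = x ↔ x ∈ LinearMap.ker (f - 1)
    change f x = x ↔ x ∈ LinearMap.ker (f - 1)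
    rw [LinearMap.mem_ker, LinearMap.sub_apply, Module.End.one_apply, sub_eq_zero]
  rw [h2, h3] at h1
  obtain ⟨c, hc⟩ := Nat.exists_eq_add_of_lt hlt
  have h4 : ((p : ZMod ℓ)) ^ (c + 1) = 1 := by
    have h5 : ((p ^ finrank (ZMod p) V : ℕ) : ZMod ℓ) = ((p ^ finrank (ZMod p) U : ℕ) : ZMod ℓ) :=
      (ZMod.natCast_eq_natCast_iff _ _ _).2 h1
    rw [hc] at h5
    push_cast at h5
    rw [add_assoc, pow_add] at h5
    have h6 : ((p : ZMod ℓ)) ^ finrank (ZMod p) U ≠ 0 := by
      apply pow_ne_zero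
      intro h7
      have h8 := (ZMod.natCast_eq_zero_iff p ℓ).1 h7
      exact hne ((Nat.prime_dvd_prime_iff_eq hℓ hp).1 h8)
    have h7 : ((p : ZMod ℓ)) ^ finrank (ZMod p) U * (p : ZMod ℓ) ^ (c + 1) =
      ((p : ZMod ℓ)) ^ finrank (ZMod p) U * 1 := by rw [mul_one]; exact h5
    exact mul_left_cancel₀ h6 h7
  have h5 := orderOf_dvd_of_pow_eq_one h4
  have h6 := Nat.le_of_dvd (Nat.succ_pos c) h5
  omega

theorem minimal_layer {k F N : IntermediateField ℚ Qb} (hkF : k ≤ F) (hFN : F ≤ N)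
    (hNk : StableOver k N) (hFk : StableOver k F)
    (hN : FiniteDimensional ℚ N) (hmin : MinimalLayer k F N) {ℓ : ℕ} (hℓ : ℓ.Prime) (hne : ℓ ≠ p)
    (hdvd : ℓ * finrank ℚ F ∣ finrank ℚ N) :
    NoPLayer p k F N ∧ DimGe p k F N (orderOf (p : ZMod ℓ)) := by
  classical
  have hp : p.Prime := Fact.out
  have hℓf : Fact ℓ.Prime := ⟨hℓ⟩
  have hF : FiniteDimensional ℚ F :=
    Submodule.finiteDimensional_of_le (S₁ := Subalgebra.toSubmodule F.toSubalgebra)
      (S₂ := Subalgebra.toSubmodule N.toSubalgebra) hFN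
  have hF0 : 0 < finrank ℚ F := finrank_pos
  refine ⟨?_, ?_⟩
  · rintro E hE1 hE2 hE3 ⟨a, ha⟩
    rcases hmin E hE1 hE2 hE3 with h | h
    · exact h
    · exfalso
      rw [h] at ha
      rw [ha] at hdvd
      have h1 : ℓ ∣ p ^ a := Nat.dvd_of_mul_dvd_mul_right hF0 hdvd
      exact hne ((Nat.prime_dvd_prime_iff_eq hℓ hp).1 (hℓ.dvd_of_dvd_pow h1))
  · intro V _ _ _ τ' h1 h2 h3
    let τ : Representation (ZMod p) k.fixingSubgroup V := τ'
    have hLH : F.fixingSubgroup ≤ k.fixingSubgroup := fixingSubgroup_le hkF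
    have hKL : N.fixingSubgroup ≤ F.fixingSubgroup := fixingSubgroup_le hFN
    let C : Subgroup Gal(Qb/ℚ) :=
      { carrier := {g | ∃ h : g ∈ F.fixingSubgroup, ∀ x, τ ⟨g, hLH h⟩ x = x}
        mul_mem' := by
          rintro a b ⟨ha, ha'⟩ ⟨hb, hb'⟩
          refine ⟨Subgroup.mul_mem _ ha hb, fun x => ?_⟩
          have h4 : (⟨a * b, hLH (Subgroup.mul_mem _ ha hb)⟩ : k.fixingSubgroup) =
            ⟨a, hLH ha⟩ * ⟨b, hLH hb⟩ := rfl
          rw [h4, map_mul, Module.End.mul_apply, hb', ha']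
        one_mem' := by
          refine ⟨Subgroup.one_mem _, fun x => ?_⟩
          have h4 : (⟨1, hLH (Subgroup.one_mem _)⟩ : k.fixingSubgroup) = 1 := rfl
          rw [h4, map_one]
          rfl
        inv_mem' := by
          rintro a ⟨ha, ha'⟩
          refine ⟨Subgroup.inv_mem _ ha, fun x => ?_⟩
          have h4 : (⟨a⁻¹, hLH (Subgroup.inv_mem _ ha)⟩ : k.fixingSubgroup) = (⟨a, hLH ha⟩)⁻¹ := rfl
          conv_lhs => rw [h4, ← ha' x]
          rw [← Module.End.mul_apply, ← map_mul, inv_mul_cancel, map_one]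
          rfl }
    have hCm : ∀ g, g ∈ C ↔ ∃ h : g ∈ F.fixingSubgroup, ∀ x, τ ⟨g, hLH h⟩ x = x := fun g => Iff.rfl
    have hCL : C ≤ F.fixingSubgroup := fun g hg => ((hCm g).1 hg).1
    have hKC : N.fixingSubgroup ≤ C := fun g hg => (hCm g).2 ⟨hKL hg, fun x => h1 _ hg x⟩
    have hCo : IsOpen (C : Set Gal(Qb/ℚ)) := Subgroup.isOpen_mono hKC N.fixingSubgroup_isOpen
    have hfix := fix_fixed hCo
    have hCn : ∀ d ∈ k.fixingSubgroup, ∀ x ∈ C, d * x * d⁻¹ ∈ C := by
      intro d hd x hx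
      obtain ⟨hxL, hx'⟩ := (hCm x).1 hx
      have hm := conj_of_stable hFk d hd x hxL
      refine (hCm _).2 ⟨hm, fun y => ?_⟩
      have h4 : (⟨d * x * d⁻¹, hLH hm⟩ : k.fixingSubgroup) =
          ⟨d, hd⟩ * ⟨x, hLH hxL⟩ * (⟨d, hd⟩)⁻¹ := rfl
      rw [h4, map_mul, map_mul, Module.End.mul_apply, Module.End.mul_apply, hx',
        ← Module.End.mul_apply, ← map_mul, mul_inv_cancel, map_one]
      rfl
    have hCne : C ≠ F.fixingSubgroup := by
      intro h
      apply h3
      intro g hg x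
      let g' : k.fixingSubgroup := g
      have h6 : (g' : Gal(Qb/ℚ)) ∈ C := by
        rw [h]
        exact hg
      exact ((hCm _).1 h6).2 x
    have hCK : C = N.fixingSubgroup := by
      rcases hmin (fixedField C) ((le_iff_le _ _).2 hCL) (by
        rw [← InfiniteGalois.fixedField_fixingSubgroup N]
        exact fixedField_antitone hKC) (fixed_stable hCn) with h | h
      · exact absurd (by rw [← hfix, h]) hCne
      · rw [← hfix, h]
    -- an element of order `ℓ`
    have hKn : (N.fixingSubgroup.subgroupOf F.fixingSubgroup).Normal :=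
      ⟨fun q hq l => conj_of_stable hNk l (hLH l.2) q hq⟩
    have hmul := relIndex_mul_index hKL
    have hdvd' : ℓ ∣ Nat.card (F.fixingSubgroup ⧸ N.fixingSubgroup.subgroupOf F.fixingSubgroup) := by
      show ℓ ∣ N.fixingSubgroup.relIndex F.fixingSubgroup
      have e1 : finrank ℚ N = N.fixingSubgroup.index := by rw [finrank_eq_fixingSubgroup_index]
      have e2 : finrank ℚ F = F.fixingSubgroup.index := by rw [finrank_eq_fixingSubgroup_index]
      rw [e1, ← hmul, ← e2] at hdvd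
      exact Nat.dvd_of_mul_dvd_mul_right hF0 hdvd
    have hfin : Finite (F.fixingSubgroup ⧸ N.fixingSubgroup.subgroupOf F.fixingSubgroup) := by
      apply Nat.finite_of_card_ne_zero
      show N.fixingSubgroup.relIndex F.fixingSubgroup ≠ 0
      intro h
      rw [h, zero_mul] at hmul
      exact index_ne_zero' N hmul.symm
    obtain ⟨z, hz⟩ := exists_prime_orderOf_dvd_card' ℓ hdvd'
    obtain ⟨x, rfl⟩ := QuotientGroup.mk_surjective z
    have hx1 : (x : Gal(Qb/ℚ)) ∉ N.fixingSubgroup := by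
      intro h
      have h4 : ((x : F.fixingSubgroup) :
          F.fixingSubgroup ⧸ N.fixingSubgroup.subgroupOf F.fixingSubgroup) = 1 := by
        rw [QuotientGroup.eq_one_iff]
        exact h
      rw [h4, orderOf_one] at hz
      exact hℓ.one_lt.ne hz
    have hxℓ : (x : Gal(Qb/ℚ)) ^ ℓ ∈ N.fixingSubgroup := by
      have h4 := pow_orderOf_eq_one ((x : F.fixingSubgroup) :
          F.fixingSubgroup ⧸ N.fixingSubgroup.subgroupOf F.fixingSubgroup)
      rw [hz, ← QuotientGroup.mk_pow, QuotientGroup.eq_one_iff] at h4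
      exact h4
    refine order_le hℓ hne (τ ⟨x, hLH x.2⟩) ?_ ?_
    · rw [← map_pow]
      apply LinearMap.ext
      intro v
      exact h1 (⟨x, hLH x.2⟩ ^ ℓ) hxℓ v
    · intro h
      apply hx1
      rw [← hCK]
      refine (hCm _).2 ⟨x.2, fun v => ?_⟩
      rw [h]
      rfl

end Pool.Agent.V7H53.GG
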