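import Pool.Agent.V7H53.GG.Pair

/-!
# Comparing the representations of two levels
-/

set_option autoImplicit false

namespace Pool.Agent.V7H53.GG

open Subgroup Module Polynomial Pool.Agent.Q60.MU
open scoped commutatorElement

variable {𝔾 : Type} [Group 𝔾] [TopologicalSpace 𝔾] [ContinuousMul 𝔾] {p : ℕ} [Fact p.Prime]
  {Ω : Type} {I : Ω → Subgroup 𝔾} {H K A B WA W : Subgroup 𝔾} {γ : 𝔾} {c : ℕ}
  (hP : Pair p H K A B γ c)
  {V : Type} [AddCommGroup V] [Module (ZMod p) V] {ρ : Representation (ZMod p) H V}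
  {π : 𝔾 → V} (hQ : IsQ H B W ρ π) (hB : ∀ g : H, (g : 𝔾) ∈ B → ∀ v, ρ g v = v)
  (hW : Valid p I B W) (hmin : ∀ W', Valid p I A W' → WA ≤ W')
  (hun : ∀ w, I w ⊓ A ≤ B) (hBA : B.relIndex A ≠ 0)

include hP hQ hB hW hmin hun hBA in
theorem ker_form (b : 𝔾) (hbW : b ∈ WA) :
    ∃ i : ℤ, ∃ q ∈ B, π q ∈ R hP ρ ∧ b = q * γ ^ (((p ^ c * p : ℕ) : ℤ) * i) := by
  have hst := R_stable hP hB
  have hconj : ∀ (k : ℤ) (q : 𝔾), q ∈ B → π q ∈ R hP ρ → γ ^ k * q * (γ ^ k)⁻¹ ∈ B ∧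
      π (γ ^ k * q * (γ ^ k)⁻¹) ∈ R hP ρ := by
    intro k q hq hqR
    have h1 : γ ^ k ∈ H := H.zpow_mem (hP.KH hP.γK) k
    refine ⟨hP.Bn _ h1 q hq, ?_⟩
    have h2 := hQ.act ⟨γ ^ k, h1⟩ q hq
    have h3 : π (γ ^ k * q * (γ ^ k)⁻¹) = ρ ⟨γ ^ k, h1⟩ (π q) := h2.symm
    rw [h3]
    exact hst _ _ hqR
  let W' : Subgroup 𝔾 :=
    { carrier := {x | ∃ i : ℤ, ∃ q ∈ B, π q ∈ R hP ρ ∧ x = q * γ ^ (((p ^ c * p : ℕ) : ℤ) * i)}
      mul_mem' := by
        rintro _ _ ⟨i, q, hq, hqR, rfl⟩ ⟨j, q', hq', hqR', rfl⟩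
        obtain ⟨h1, h2⟩ := hconj (((p ^ c * p : ℕ) : ℤ) * i) q' hq' hqR'
        refine ⟨i + j, _, B.mul_mem hq h1, ?_, ?_⟩
        · rw [hQ.mul _ hq _ h1]
          exact (R hP ρ).add_mem hqR h2
        · rw [mul_add, zpow_add]
          group
      one_mem' := by
        refine ⟨0, 1, B.one_mem, ?_, ?_⟩
        · rw [hQ.one]
          exact (R hP ρ).zero_mem
        · rw [mul_zero, zpow_zero, mul_one]
      inv_mem' := by
        rintro _ ⟨i, q, hq, hqR, rfl⟩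
        have h0 : π q⁻¹ ∈ R hP ρ := by
          rw [hQ.inv hq]
          exact (R hP ρ).neg_mem hqR
        obtain ⟨h1, h2⟩ := hconj (((p ^ c * p : ℕ) : ℤ) * (-i)) q⁻¹ (B.inv_mem hq) h0
        refine ⟨-i, _, h1, h2, ?_⟩
        rw [mul_neg, zpow_neg]
        group }
  have hmem : ∀ x, x ∈ W' ↔ ∃ i : ℤ, ∃ q ∈ B, π q ∈ R hP ρ ∧
      x = q * γ ^ (((p ^ c * p : ℕ) : ℤ) * i) := fun x => Iff.rfl
  have hin : ∀ x ∈ B, π x ∈ R hP ρ → x ∈ W' := by
    intro x hx hxR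
    exact (hmem x).2 ⟨0, x, hx, hxR, by rw [mul_zero, zpow_zero, mul_one]⟩
  have hWW' : W ≤ W' := by
    intro x hx
    refine hin x (hW.le hx) ?_
    rw [(hQ.ker x (hW.le hx)).2 hx]
    exact (R hP ρ).zero_mem
  have hval : Valid p I A W' := by
    refine ⟨?_, isOpen_mono hWW' hW.opn, ?_, ?_⟩
    · intro x hx
      obtain ⟨i, q, hq, -, rfl⟩ := (hmem x).1 hx
      refine A.mul_mem (hP.BA hq) ?_
      have h1 : γ ^ (((p ^ c * p : ℕ) : ℤ) * i) = (γ ^ p ^ c) ^ ((p : ℤ) * i) := by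
        rw [← zpow_natCast, ← zpow_mul]
        congr 1
        push_cast
        ring
      rw [h1]
      exact A.zpow_mem hP.γA _
    · have h1 := relIndex_mul_relIndex W B A hW.le hP.BA
      have h2 : W.relIndex A ≠ 0 := by
        rw [← h1]
        exact mul_ne_zero hW.fin hBA
      intro h3
      have h4 := relIndex_dvd_of_le_left A hWW'
      rw [h3] at h4
      exact h2 (Nat.eq_zero_of_zero_dvd h4)
    · rintro x ((⟨a, ha, rfl⟩ | ⟨a, ha, a', ha', rfl⟩) | ⟨hx, w, hw⟩)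
      · obtain ⟨i, b, hb, rfl⟩ := hP.Aγ a ha
        have hδ : γ ^ (p ^ c * i) ∈ A := by
          rw [pow_mul]
          exact A.pow_mem hP.γA i
        obtain ⟨b', hb', h1, h2⟩ := pow_form hP hQ hB hb hδ p
        refine (hmem _).2 ⟨i, b', hb', ?_, ?_⟩
        · rwa [← Nat.cast_smul_eq_nsmul (ZMod p), CharP.cast_eq_zero, zero_smul, sub_zero] at h2
        · rw [h1, ← pow_mul, ← zpow_natCast]
          congr 2
          push_cast
          ring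
      · obtain ⟨h1, h2⟩ := comm_form hP hQ hB ha ha'
        exact hin _ h1 h2
      · have h1 : x ∈ B := hun w ⟨hw, hx⟩
        exact hWW' (hW.gen (Or.inr ⟨h1, w, hw⟩))
  exact (hmem b).1 (hmin W' hval hbW)

include hP hQ hB hW hmin hun hBA in
/-- The group `H` acts trivially on the kernel, modulo the image of `(γ - 1)^(p^c)`. -/
theorem ker_triv (b : 𝔾) (hb : b ∈ B) (hbW : b ∈ WA) (g : H) :
    ρ g (π b) - π b ∈ R hP ρ := by
  have hst := R_stable hP hB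
  obtain ⟨i, q, hq, hqR, hbq⟩ := ker_form hP hQ hB hW hmin hun hBA b hbW
  have key : ∀ k : ℕ, γ ^ (p ^ c * p * k) ∈ B →
      ρ g (π (γ ^ (p ^ c * p * k))) - π (γ ^ (p ^ c * p * k)) ∈ R hP ρ := by
    intro k hk
    rw [← hQ.comm hP.Bn g hk]
    exact norm_mem hP hQ g k
  set z := γ ^ (((p ^ c * p : ℕ) : ℤ) * i) with hz
  have hzB : z ∈ B := by
    have h1 : z = q⁻¹ * b := by rw [hbq]; group
    rw [h1]
    exact B.mul_mem (B.inv_mem hq) hb
  have hzR : ρ g (π z) - π z ∈ R hP ρ := by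
    obtain ⟨k, rfl | rfl⟩ := i.eq_nat_or_neg
    · have h1 : z = γ ^ (p ^ c * p * k) := by
        rw [hz, ← Nat.cast_mul, zpow_natCast]
      rw [h1]
      exact key k (h1 ▸ hzB)
    · have h1 : z = (γ ^ (p ^ c * p * k))⁻¹ := by
        rw [hz, mul_neg, zpow_neg, ← Nat.cast_mul, zpow_natCast]
      have h2 : γ ^ (p ^ c * p * k) ∈ B := by
        have h3 := B.inv_mem hzB
        rwa [h1, inv_inv] at h3
      rw [h1, hQ.inv h2, map_neg]
      have h3 := (R hP ρ).neg_mem (key k h2)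
      have h4 : -ρ g (π (γ ^ (p ^ c * p * k))) - -π (γ ^ (p ^ c * p * k)) =
          -(ρ g (π (γ ^ (p ^ c * p * k))) - π (γ ^ (p ^ c * p * k))) := by abel
      rw [h4]
      exact h3
  rw [hbq, hQ.mul q hq z hzB, map_add]
  have h5 : ρ g (π q) + ρ g (π z) - (π q + π z) = (ρ g (π q) - π q) + (ρ g (π z) - π z) := by abel
  rw [h5]
  exact (R hP ρ).add_mem ((R hP ρ).sub_mem (hst g _ hqR) hqR) hzR

/-- the comparison map -/
theorem exists_map {VA : Type} [AddCommGroup VA] [Module (ZMod p) VA]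
    {ρA : Representation (ZMod p) H VA} {πA : 𝔾 → VA} (hQA : IsQ H A WA ρA πA)
    (hQ : IsQ H B W ρ π) (hBA : B ≤ A) (hBn : ∀ d ∈ H, ∀ x ∈ B, d * x * d⁻¹ ∈ B)
    (hWA : W ≤ WA) :
    ∃ φ : V →ₗ[ZMod p] VA, (∀ b ∈ B, φ (π b) = πA b) ∧ ∀ g v, φ (ρ g v) = ρA g (φ v) := by
  have hwell : ∀ x ∈ B, ∀ y ∈ B, π x = π y → πA x = πA y := by
    intro x hx y hy h
    have h1 : π (x * y⁻¹) = 0 := by
      rw [hQ.mul x hx _ (B.inv_mem hy), hQ.inv hy, h, add_neg_cancel]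
    have h2 := hWA ((hQ.ker _ (B.mul_mem hx (B.inv_mem hy))).1 h1)
    have h3 := (hQA.ker _ (A.mul_mem (hBA hx) (A.inv_mem (hBA hy)))).2 h2
    rw [hQA.mul x (hBA hx) _ (A.inv_mem (hBA hy)), hQA.inv (hBA hy)] at h3
    exact eq_of_sub_eq_zero (by rw [sub_eq_add_neg]; exact h3)
  choose f hf1 hf2 using hQ.surj
  have hφ : ∀ b ∈ B, πA (f (π b)) = πA b := fun b hb => hwell _ (hf1 _) _ hb (hf2 _)
  let φ₀ : V →+ VA :=
    { toFun := fun v => πA (f v)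
      map_zero' := by
        show πA (f 0) = 0
        have h1 := hφ 1 B.one_mem
        rw [hQ.one, hQA.one] at h1
        exact h1
      map_add' := fun u v => by
        show πA (f (u + v)) = πA (f u) + πA (f v)
        have h1 : π (f u * f v) = u + v := by rw [hQ.mul _ (hf1 u) _ (hf1 v), hf2, hf2]
        rw [← h1, hφ _ (B.mul_mem (hf1 u) (hf1 v)), hQA.mul _ (hBA (hf1 u)) _ (hBA (hf1 v))] }
  refine ⟨φ₀.toZModLinearMap p, fun b hb => hφ b hb, fun g v => ?_⟩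
  show πA (f (ρ g v)) = ρA g (πA (f v))
  have h1 : ρ g v = π (g * f v * (g : 𝔾)⁻¹) := by
    rw [← hQ.act g _ (hf1 v), hf2]
  rw [h1, hφ _ (hBn g g.2 _ (hf1 v)), hQA.act g _ (hBA (hf1 v))]

end Pool.Agent.V7H53.GG
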