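import Pool.Agent.V7H53.GG.Base

/-!
# The criterion when `p` is not in `S`
-/

set_option autoImplicit false

namespace Pool.Agent.V7H53.GG

open Subgroup Module IntermediateField Pool.Agent.Q60.MU Pool.Agent.V7H44.MF Pool.Agent.V7H53.TR
open scoped Pointwise commutatorElement

variable {p : ℕ} [Fact p.Prime]

variable (hp2 : p ≠ 2) {S : Set ℕ} (hS : ∀ ℓ ∈ S, ℓ.Prime) (hpS : p ∉ S)
  {R : ℕ → IntermediateField ℚ Qb}
  (hR : IsCyclotomicTower p R) {k F N F' : IntermediateField ℚ Qb} (hN : FiniteDimensional ℚ N)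
  (hkF : k ≤ F) (hNk : StableOver k N) {m₀ : ℕ} (hm₀ : BaseLevel p N m₀) (hF' : IsPLayer p k F N F')

include hp2 hS hpS hR hN hkF hNk hm₀ hF' in
theorem layer_level_from {d : ℕ} (hd : DimGe p k F N d) {m : ℕ} (hm : m₀ < m)
    (hgap : ¬ GapFrom p S R F' N d m₀ m) : RelBdd p S R F' N :=
  one_level_from hp2 hS hpS hR hN (hkF.trans hF'.le) hF'.le' hF'.stable hNk hm₀ hF'.maximal
    (hd.up hF'.le) hm hgap

include hp2 hS hpS hR hN hkF hNk hm₀ hF' in
theorem criterion_from {d : ℕ} (hd : DimGe p k F N d) (hd0 : 0 < d) :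
    Bdd p S R N ↔ Bdd p S R F ∧ ∃ m > m₀, ¬ GapFrom p S R F' N d m₀ m := by
  have hFN := hF'.le.trans hF'.le'
  constructor
  · intro h
    refine ⟨bdd_sub hR hN hFN h, ?_⟩
    obtain ⟨r, hr⟩ := h
    obtain ⟨n₀, hn₀, -⟩ := exists_degree hR hN m₀
    set m := (r + n₀) * finrank ℚ N + m₀ + 1 with hm
    obtain ⟨n, hn1, hn2⟩ := exists_degree hR hN m
    refine ⟨m, by omega, fun hgap => ?_⟩
    have hRm := tower_finite hR m
    have hF'f := fd_of_le hN hF'.le'
    have h1 := hgap r 0 n n₀ (hr _) (rank_zero S inferInstance) hn1 hn₀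
    have h2 : m < p ^ m := Nat.lt_pow_self (Fact.out : p.Prime).one_lt
    have h3 : (r + n₀) * finrank ℚ N < n * finrank ℚ N := by
      calc (r + n₀) * finrank ℚ N < m := by omega
        _ < p ^ m := h2
        _ ≤ _ := hn2
    have h4 : r + n₀ < n := Nat.lt_of_mul_lt_mul_right h3
    have h5 : d * (r + n₀) < d * n := Nat.mul_lt_mul_of_pos_left h4 hd0
    have h6 : r ≤ d * r := Nat.le_mul_of_pos_left r hd0
    rw [mul_add] at h5
    omega
  · rintro ⟨h, m, hmm, hm⟩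
    exact (layer_level_from hp2 hS hpS hR hN hkF hNk hm₀ hF' hd hmm hm).bdd
      (layer_bdd hp2 hR hN hkF hF' h)

include hp2 hS hpS hR hN hkF hNk hm₀ hF' in
theorem numerical_from {d : ℕ} (hd : DimGe p k F N d) (h : Bdd p S R F) {m : ℕ} (hm : m₀ < m)
    {r n n₀ : ℕ} (hn : LayerDegree R N m n) (hn₀ : LayerDegree R N m₀ n₀)
    (hr : PRankLe p S (N ⊔ R m) r) (hlt : r + d * n₀ < d * n) : Bdd p S R N := by
  refine (layer_level_from (m := m) hp2 hS hpS hR hN hkF hNk hm₀ hF' hd hm fun hgap => ?_).bdd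
    (layer_bdd hp2 hR hN hkF hF' h)
  have hRm := tower_finite hR m
  have hF'f := fd_of_le hN hF'.le'
  have h1 := hgap _ 0 n n₀ hr (rank_zero S inferInstance) hn hn₀
  omega

end Pool.Agent.V7H53.GG
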