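import Pool.Agent.V7H53.GG.Comb

/-!
# The bound at the upper level
-/

set_option autoImplicit false

namespace Pool.Agent.V7H53.GG

open Subgroup Module Polynomial Pool.Agent.Q60.MU
open scoped commutatorElement

section vanish

variable {𝔾 : Type} [Group 𝔾] {p : ℕ} [Fact p.Prime]
  {H K A B : Subgroup 𝔾} {γ : 𝔾} {c : ℕ}
  (hP : Pair p H K A B γ c)
  {V : Type} [AddCommGroup V] [Module (ZMod p) V] {ρ : Representation (ZMod p) H V}
  (hB : ∀ g : H, (g : 𝔾) ∈ B → ∀ v, ρ g v = v)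
  {VA : Type} [AddCommGroup VA] [Module (ZMod p) VA] {ρA : Representation (ZMod p) H VA}
  {φ : V →ₗ[ZMod p] VA} (hφ : ∀ g v, φ (ρ g v) = ρA g (φ v))
  {Y : Set H} {j : ℕ}
  (hker : ∀ v, φ v = 0 → ∀ y ∈ Y, ρ y v - v ∈ LinearMap.range ((ρ (gen hP) - 1) ^ (j + 1)))
  (hYs : ∀ y ∈ Y, ∃ n, ¬ p ∣ n ∧ (y : 𝔾) ^ n ∈ B)
  (hPA : (br ρA Y ⊤).map ((ρA (gen hP) - 1) ^ j) = ⊥)

include hB hφ hker hYs hPA in
theorem vanish : ∀ y ∈ Y, ∀ v ∈ LinearMap.range ((ρ (gen hP) - 1) ^ (j + 1)), ρ y v = v := by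
  set T := ρ (gen hP) - 1 with hT
  set TA := ρA (gen hP) - 1 with hTA
  have hT1 : ∀ v, φ (T v) = TA (φ v) := by
    intro v
    show φ (ρ (gen hP) v - v) = ρA (gen hP) (φ v) - φ v
    rw [map_sub, hφ]
  have hTφ : ∀ (j : ℕ) v, φ ((T ^ j) v) = (TA ^ j) (φ v) := by
    intro j
    induction j with
    | zero => intro v; rfl
    | succ j ih =>
      intro v
      rw [pow_succ, Module.End.mul_apply, ih, hT1, pow_succ, Module.End.mul_apply]
  have hTc : ∀ g x, T (ρ g x) = ρ g (T x) := T_comm fun g x => act_comm hP hB g x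
  have htop : Stable ρ ⊤ := fun _ _ _ => trivial
  have hs : ∀ y ∈ Y, Semi (ρ y) := by
    intro y hy
    obtain ⟨n, hn, hyn⟩ := hYs y hy
    exact act_semi hB y hn hyn
  obtain ⟨N, hN⟩ := act_nil hP hB
  set X := (br ρ Y ⊤).map (T ^ j) with hX
  have hXbr : br ρ Y X = X := by
    rw [hX, ← br_map (pow_comm' hTc _), br_idem hs htop]
  have hXker : ∀ x ∈ X, φ x = 0 := by
    rintro _ ⟨v, hv, rfl⟩
    rw [hTφ]
    have h1 : φ v ∈ br ρA Y ⊤ := by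
      have h2 : br ρ Y ⊤ ≤ (br ρA Y ⊤).comap φ := br_le_iff.2 fun y hy v _ => by
        show φ (ρ y v - v) ∈ br ρA Y ⊤
        rw [map_sub, hφ]
        exact mem_br hy trivial
      exact h2 hv
    have h3 : (TA ^ j) (φ v) ∈ (br ρA Y ⊤).map (TA ^ j) := ⟨_, h1, rfl⟩
    rw [hPA] at h3
    exact (Submodule.mem_bot _).1 h3
  have hXR : X ≤ LinearMap.range (T ^ (j + 1)) := by
    rw [← hXbr]
    exact br_le_iff.2 fun y hy v hv => hker v (hXker v hv) y hy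
  have hRX : br ρ Y (LinearMap.range (T ^ (j + 1))) = X.map T := by
    have h1 : LinearMap.range (T ^ (j + 1)) = (⊤ : Submodule (ZMod p) V).map (T ^ (j + 1)) :=
      LinearMap.range_eq_map _
    rw [h1, ← br_map (pow_comm' hTc _), hX, ← Submodule.map_comp]
    have h2 : T ^ (j + 1) = T ∘ₗ (T ^ j) := by
      rw [pow_succ']
      rfl
    rw [h2]
  have hXT : X ≤ X.map T := by
    rw [← hRX]
    conv_lhs => rw [← hXbr]
    exact br_mono hXR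
  have hX0 : X = ⊥ := nil_bot hN hXT
  intro y hy v hv
  have h4 : ρ y v - v ∈ br ρ Y (LinearMap.range (T ^ (j + 1))) := mem_br hy hv
  rw [hRX, hX0, Submodule.map_bot, Submodule.mem_bot, sub_eq_zero] at h4
  exact h4

include hB hφ hker hYs hPA in
theorem range_le [Module.Finite (ZMod p) VA] {y : H} (hy : y ∈ Y) :
    finrank (ZMod p) (LinearMap.range (ρ y - 1)) ≤ finrank (ZMod p) VA := by
  have hv := vanish hP hB hφ hker hYs hPA
  obtain ⟨n, hn, hyn⟩ := hYs y hy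
  have hs : Semi (ρ y) := act_semi hB y hn hyn
  have hinj : Function.Injective (φ.domRestrict (LinearMap.range (ρ y - 1))) := by
    rw [← LinearMap.ker_eq_bot, eq_bot_iff]
    rintro ⟨v, u, rfl⟩ h0
    have h1 : φ ((ρ y - 1) u) = 0 := h0
    have h2 : (ρ y - 1) ((ρ y - 1) u) ∈ LinearMap.range ((ρ (gen hP) - 1) ^ (j + 1)) :=
      hker _ h1 y hy
    have h3 : (ρ y - 1) ((ρ y - 1) ((ρ y - 1) u)) = 0 := by
      show ρ y ((ρ y - 1) ((ρ y - 1) u)) - (ρ y - 1) ((ρ y - 1) u) = 0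
      rw [hv y hy _ h2, sub_self]
    have h4 : (ρ y - 1) ((ρ y - 1) u) = 0 := semi_inj hs rfl h3
    have h5 : (ρ y - 1) u = 0 := semi_inj hs rfl h4
    rw [Submodule.mem_bot]
    exact Subtype.ext h5
  exact LinearMap.finrank_le_finrank_of_injective hinj

end vanish

section sup

variable {k : Type} [Field k] {V : Type} [AddCommGroup V] [Module k V] [Module.Finite k V]

theorem finrank_sup_le {ι : Type} (s : Finset ι) (f : ι → Submodule k V) {r : ℕ}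
    (hf : ∀ i, finrank k (f i) ≤ r) : finrank k (s.sup f : Submodule k V) ≤ s.card * r := by
  classical
  induction s using Finset.induction_on with
  | empty =>
    rw [Finset.sup_empty, finrank_bot]
    exact Nat.zero_le _
  | insert a s ha ih =>
    rw [Finset.sup_insert, Finset.card_insert_of_notMem ha]
    have h1 := Submodule.finrank_add_le_finrank_add_finrank (f a) (s.sup f)
    have h2 := hf a
    have h3 : (s.card + 1) * r = s.card * r + r := by ring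
    omega

end sup

section bounds

variable {𝔾 : Type} [Group 𝔾] {p : ℕ} [Fact p.Prime]
  {H B : Subgroup 𝔾}
  {V : Type} [AddCommGroup V] [Module (ZMod p) V] [Module.Finite (ZMod p) V]
  {ρ : Representation (ZMod p) H V}
  (hB : ∀ g : H, (g : 𝔾) ∈ B → ∀ v, ρ g v = v) {Y : Set H}

include hB in
theorem br_finrank {LB : Subgroup 𝔾} (hLH : LB ≤ H) (hYL : ∀ y ∈ Y, (y : 𝔾) ∈ LB)
    (hidx : B.relIndex LB ≠ 0) {r : ℕ}
    (hr : ∀ y ∈ Y, finrank (ZMod p) (LinearMap.range (ρ y - 1)) ≤ r) :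
    finrank (ZMod p) (br ρ Y ⊤) ≤ B.relIndex LB * r := by
  classical
  have hfi : (B.subgroupOf LB).FiniteIndex := ⟨hidx⟩
  have ft : Fintype (LB ⧸ B.subgroupOf LB) := Fintype.ofFinite _
  let e : (LB ⧸ B.subgroupOf LB) → H := fun q => ⟨(q.out : LB), hLH q.out.2⟩
  let f : (LB ⧸ B.subgroupOf LB) → Submodule (ZMod p) V := fun q =>
    if finrank (ZMod p) (LinearMap.range (ρ (e q) - 1)) ≤ r then LinearMap.range (ρ (e q) - 1)
    else ⊥
  have hf : ∀ q, finrank (ZMod p) (f q) ≤ r := by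
    intro q
    by_cases h : finrank (ZMod p) (LinearMap.range (ρ (e q) - 1)) ≤ r
    · have h1 : f q = LinearMap.range (ρ (e q) - 1) := if_pos h
      rw [h1]
      exact h
    · have h1 : f q = ⊥ := if_neg h
      rw [h1, finrank_bot]
      exact Nat.zero_le _
  have hle : br ρ Y ⊤ ≤ (Finset.univ.sup f : Submodule (ZMod p) V) := by
    refine br_le_iff.2 fun y hy v _ => ?_
    obtain ⟨κ, hκ⟩ := QuotientGroup.mk_out_eq_mul (B.subgroupOf LB) (⟨y, hYL y hy⟩ : LB)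
    set q : LB ⧸ B.subgroupOf LB := ((⟨y, hYL y hy⟩ : LB) : LB ⧸ B.subgroupOf LB) with hq
    have h1 : ρ (e q) = ρ y := by
      have h2 : e q = y * ⟨(κ : LB), hLH (κ : LB).2⟩ := by
        apply Subtype.ext
        show ((q.out : LB) : 𝔾) = y * ((κ : LB) : 𝔾)
        rw [hκ]
        rfl
      have h3 : ((⟨((κ : LB) : 𝔾), hLH (κ : LB).2⟩ : H) : 𝔾) ∈ B := mem_subgroupOf.1 κ.2
      rw [h2, map_mul]
      apply LinearMap.ext
      intro x
      rw [Module.End.mul_apply, hB _ h3]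
    have h3 : f q = LinearMap.range (ρ y - 1) := by
      have h4 : f q = LinearMap.range (ρ (e q) - 1) := if_pos (by rw [h1]; exact hr y hy)
      rw [h4, h1]
    have h5 : ρ y v - v ∈ f q := by
      rw [h3]
      exact ⟨v, rfl⟩
    exact (Finset.le_sup (f := f) (Finset.mem_univ q)) h5
  refine (Submodule.finrank_mono hle).trans ((finrank_sup_le _ f hf).trans ?_)
  rw [Finset.card_univ, ← Nat.card_eq_fintype_card]
  exact le_rfl

/-- the elements acting trivially modulo a stable submodule -/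
theorem exists_trivOn (ρ : Representation (ZMod p) H V) (c : Submodule (ZMod p) V) :
    ∃ N : Subgroup 𝔾, ∀ g, g ∈ N ↔ ∃ h : g ∈ H, ∀ v, ρ ⟨g, h⟩ v - v ∈ c := by
  refine ⟨⟨⟨⟨{g | ∃ h : g ∈ H, ∀ v, ρ ⟨g, h⟩ v - v ∈ c}, ?_⟩, ?_⟩, ?_⟩, fun g => Iff.rfl⟩
  · rintro a b ⟨ha, h1⟩ ⟨hb, h2⟩
    refine ⟨H.mul_mem ha hb, fun v => ?_⟩
    have h3 : (⟨a * b, H.mul_mem ha hb⟩ : H) = ⟨a, ha⟩ * ⟨b, hb⟩ := rfl
    rw [h3, map_mul, Module.End.mul_apply]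
    have h4 : ρ ⟨a, ha⟩ (ρ ⟨b, hb⟩ v) - v = (ρ ⟨a, ha⟩ (ρ ⟨b, hb⟩ v) - ρ ⟨b, hb⟩ v) +
        (ρ ⟨b, hb⟩ v - v) := by abel
    rw [h4]
    exact c.add_mem (h1 _) (h2 _)
  · refine ⟨H.one_mem, fun v => ?_⟩
    have h3 : (⟨1, H.one_mem⟩ : H) = 1 := rfl
    rw [h3, map_one, Module.End.one_apply, sub_self]
    exact c.zero_mem
  · rintro a ⟨ha, h1⟩
    refine ⟨H.inv_mem ha, fun v => ?_⟩
    have h3 : (⟨a⁻¹, H.inv_mem ha⟩ : H) = (⟨a, ha⟩ : H)⁻¹ := rfl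
    have h4 := h1 (ρ (⟨a, ha⟩ : H)⁻¹ v)
    rw [← Module.End.mul_apply, ← map_mul, mul_inv_cancel, map_one, Module.End.one_apply] at h4
    rw [h3, ← neg_sub]
    exact c.neg_mem h4

include hB in
theorem quot_bound [TopologicalSpace 𝔾] [ContinuousMul 𝔾] {Ω : Type} [MulAction 𝔾 Ω]
    {I : Ω → Subgroup 𝔾} (hI : ∀ (g : 𝔾) (w : Ω), ∀ x ∈ I w, g * x * g⁻¹ ∈ I (g • w))
    {W LB : Subgroup 𝔾} {π : 𝔾 → V} (hQ : IsQ H B W ρ π) (hW : Valid p I B W)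
    (hBn : ∀ d ∈ H, ∀ x ∈ B, d * x * d⁻¹ ∈ B)
    (hBL : B ≤ LB) (hLH : LB ≤ H)
    (hidx : B.relIndex LB ≠ 0)
    (hgen : LB ≤ Subgroup.closure (((fun y : H => (y : 𝔾)) '' Y) ∪ B))
    (T : Finset Ω) (hT : ∀ w, I w ⊓ LB ≤ B ∨ ∃ u ∈ T, ∃ l ∈ LB, w = l • u)
    {C : ℕ} (hC : RankLe p I LB C) :
    p ^ finrank (ZMod p) (V ⧸ br ρ Y ⊤) ≤ cst (B.relIndex LB) T.card * C := by
  obtain ⟨Q, hQm, hQi⟩ := hQ.index (br ρ Y ⊤)
  obtain ⟨N, hN⟩ := exists_trivOn ρ (br ρ Y ⊤)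
  have hLN : LB ≤ N := by
    refine hgen.trans ((closure_le N).2 ?_)
    rintro x (⟨y, hy, rfl⟩ | hx)
    · exact (hN _).2 ⟨y.2, fun v => mem_br hy trivial⟩
    · refine (hN _).2 ⟨hLH (hBL hx), fun v => ?_⟩
      rw [hB _ hx, sub_self]
      exact Submodule.zero_mem _
  have hWQ : W ≤ Q := by
    intro x hx
    refine (hQm x).2 ⟨hW.le hx, ?_⟩
    rw [(hQ.ker x (hW.le hx)).2 hx]
    exact Submodule.zero_mem _
  rw [← hQi]
  refine genus hI hBL hidx (fun x hx => ((hQm x).1 hx).1) (isOpen_mono hWQ hW.opn) ?_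
    (fun x hx => hWQ (hW.gen hx)) ?_ T hT hC
  · rw [hQi]
    exact pow_ne_zero _ (Fact.out : p.Prime).ne_zero
  · intro l hl k hk
    obtain ⟨hlH, hl'⟩ := (hN l).1 (hLN hl)
    refine (hQm _).2 ⟨comm_mem hBn ⟨l, hlH⟩ hk, ?_⟩
    rw [hQ.comm hBn ⟨l, hlH⟩ hk]
    exact hl' _

end bounds

section level

variable {𝔾 : Type} [Group 𝔾] [TopologicalSpace 𝔾] {p : ℕ} [Fact p.Prime]
  {Ω : Type} {I : Ω → Subgroup 𝔾} {H A WA LA Q : Subgroup 𝔾}
  {V : Type} [AddCommGroup V] [Module (ZMod p) V] [Module.Finite (ZMod p) V]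
  {ρ : Representation (ZMod p) H V} {π : 𝔾 → V} {Y : Set H}

/-- generation modulo a subgroup which contains the `p`-th powers -/
theorem gen_sup (hQ : Valid p I LA Q)
    {S : Set 𝔾} (hS : ∀ y ∈ S, y ∈ LA ∧ ∃ n, ¬ p ∣ n ∧ y ^ n ∈ A)
    (hgen : LA ≤ Subgroup.closure (S ∪ A)) : LA ≤ A ⊔ Q := by
  refine hgen.trans ((closure_le _).2 ?_)
  rintro y (hy | hy)
  · obtain ⟨hyL, n, hn, hyn⟩ := hS y hy
    have h1 : y ^ p ∈ A ⊔ Q := (le_sup_right : Q ≤ A ⊔ Q)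
      (hQ.gen (Or.inl (Or.inl ⟨y, hyL, rfl⟩)))
    have h2 : y ^ n ∈ A ⊔ Q := (le_sup_left : A ≤ A ⊔ Q) hyn
    have h3 : IsCoprime (p : ℤ) (n : ℤ) :=
      Nat.isCoprime_iff_coprime.2 ((Nat.Prime.coprime_iff_not_dvd Fact.out).2 hn)
    obtain ⟨a, b, hab⟩ := h3
    have h4 : y = (y ^ p) ^ a * (y ^ n) ^ b := by
      rw [← zpow_natCast, ← zpow_natCast, ← zpow_mul, ← zpow_mul, ← zpow_add,
        mul_comm (p : ℤ) a, mul_comm (n : ℤ) b, hab, zpow_one]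
    rw [h4]
    exact (A ⊔ Q).mul_mem ((A ⊔ Q).zpow_mem h1 a) ((A ⊔ Q).zpow_mem h2 b)
  · exact (le_sup_left : A ≤ A ⊔ Q) hy

theorem relIndex_eq (hA : A ≤ LA) (hQ : Valid p I LA Q) (h : LA ≤ A ⊔ Q) :
    Q.relIndex LA = Q.relIndex A := by
  have hN : (Q.subgroupOf LA).Normal := by
    refine ⟨fun q hq l => ?_⟩
    rw [mem_subgroupOf] at hq ⊢
    have h1 : ((l * q * l⁻¹ : LA) : 𝔾) = ⁅(l : 𝔾), (q : 𝔾)⁆ * q := by
      rw [commutatorElement_def]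
      push_cast
      group
    rw [h1]
    exact Q.mul_mem (hQ.gen (Or.inl (Or.inr ⟨l, l.2, q, q.2, rfl⟩))) hq
  have h1 : A.subgroupOf LA ⊔ Q.subgroupOf LA = ⊤ := by
    rw [← subgroupOf_sup hA hQ.le, subgroupOf_eq_top]
    exact h
  have h2 := relIndex_sup_right (A.subgroupOf LA) (Q.subgroupOf LA)
  rw [h1, relIndex_subgroupOf hA, relIndex_top_right] at h2
  exact h2

theorem top_quot (hQA : IsQ H A WA ρ π) (hAn : ∀ d ∈ H, ∀ x ∈ A, d * x * d⁻¹ ∈ A)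
    (hAo : IsOpen (A : Set 𝔾)) (hmin : ∀ W', Valid p I A W' → WA ≤ W') (hA : A ≤ LA)
    (hQ : Valid p I LA Q) (h : LA ≤ A ⊔ Q) (hYL : ∀ y ∈ Y, (y : 𝔾) ∈ LA) {s : ℕ}
    (hs : p ^ s ≤ Q.relIndex LA) : s ≤ finrank (ZMod p) (V ⧸ br ρ Y ⊤) := by
  have hWAQ : WA ≤ Q := (hmin _ (hQ.inf (Valid.self hAo) hA)).trans inf_le_left
  let c₀ : AddSubgroup V :=
    { carrier := {v | ∃ x ∈ A, x ∈ Q ∧ π x = v}
      add_mem' := by
        rintro _ _ ⟨x, hx, hxQ, rfl⟩ ⟨y, hy, hyQ, rfl⟩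
        exact ⟨x * y, A.mul_mem hx hy, Q.mul_mem hxQ hyQ, hQA.mul x hx y hy⟩
      zero_mem' := ⟨1, A.one_mem, Q.one_mem, hQA.one⟩
      neg_mem' := by
        rintro _ ⟨x, hx, hxQ, rfl⟩
        exact ⟨x⁻¹, A.inv_mem hx, Q.inv_mem hxQ, hQA.inv hx⟩ }
  let c : Submodule (ZMod p) V := AddSubgroup.toZModSubmodule p c₀
  have hc : ∀ v, v ∈ c ↔ ∃ x ∈ A, x ∈ Q ∧ π x = v := fun v => Iff.rfl
  have h1 : br ρ Y ⊤ ≤ c := by
    refine br_le_iff.2 fun y hy v _ => ?_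
    obtain ⟨x, hx, rfl⟩ := hQA.surj v
    refine (hc _).2 ⟨⁅(y : 𝔾), x⁆, comm_mem hAn y hx, ?_, hQA.comm hAn y hx⟩
    exact hQ.gen (Or.inl (Or.inr ⟨y, hYL y hy, x, hA hx, rfl⟩))
  obtain ⟨Q', hQ', hQi⟩ := hQA.index c
  have h2 : Q' = Q ⊓ A := by
    ext x
    rw [hQ', hc]
    constructor
    · rintro ⟨hx, x', hx', hxQ', hxx⟩
      refine ⟨?_, hx⟩
      have h3 : π (x * x'⁻¹) = 0 := by
        rw [hQA.mul x hx _ (A.inv_mem hx'), hQA.inv hx', hxx, add_neg_cancel]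
      have h4 := hWAQ ((hQA.ker _ (A.mul_mem hx (A.inv_mem hx'))).1 h3)
      have h5 : x = (x * x'⁻¹) * x' := by group
      rw [h5]
      exact Q.mul_mem h4 hxQ'
    · rintro ⟨hxQ, hx⟩
      exact ⟨hx, x, hx, hxQ, rfl⟩
  rw [h2, inf_relIndex_right, ← relIndex_eq hA hQ h] at hQi
  rw [hQi] at hs
  have h3 := (Nat.pow_le_pow_iff_right (Fact.out : p.Prime).one_lt).1 hs
  have h4 := c.finrank_quotient_add_finrank
  have h5 := (br ρ Y ⊤).finrank_quotient_add_finrank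
  have h6 := Submodule.finrank_mono h1
  omega

end level

end Pool.Agent.V7H53.GG
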