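import Pool.Agent.V7H53.GG.Main

/-!
# The growth theorem for groups: conclusion
-/

set_option autoImplicit false

namespace Pool.Agent.V7H53.GG

open Subgroup Module Polynomial Pool.Agent.Q60.MU
open scoped commutatorElement

variable {𝔾 : Type} [Group 𝔾] [TopologicalSpace 𝔾] [ContinuousMul 𝔾] {p : ℕ} [Fact p.Prime]
  {Ω : Type} [MulAction 𝔾 Ω] {I : Ω → Subgroup 𝔾}
  (hI : ∀ (g : 𝔾) (w : Ω), ∀ x ∈ I w, g * x * g⁻¹ ∈ I (g • w))
  {H K L : Subgroup 𝔾}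

include hI in
theorem upper {A B LA LB : Subgroup 𝔾} {γ : 𝔾} {c : ℕ} (hP : Pair p H K A B γ c)
    (hAf : A.relIndex H ≠ 0) (hBf : B.relIndex H ≠ 0) (hAo : IsOpen (A : Set 𝔾))
    (hBo : IsOpen (B : Set 𝔾)) (hALA : A ≤ LA) (hBLB : B ≤ LB) (hLBA : LB ≤ LA) (hLAH : LA ≤ H)
    (hLAL : LA ≤ L) (hLBn : ∀ d ∈ H, ∀ x ∈ LB, d * x * d⁻¹ ∈ LB)
    (hgenA : LA ≤ Subgroup.closure (Reg p A LA ∪ A))
    (hgenB : LB ≤ Subgroup.closure (Reg p B LB ∪ B)) {j : ℕ}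
    (hkerj : ∀ (WA W : Subgroup 𝔾), (∀ W', Valid p I A W' → WA ≤ W') → Valid p I B W →
      ∀ (V : Type) [AddCommGroup V] [Module (ZMod p) V] (ρ : Representation (ZMod p) H V)
        (π : 𝔾 → V), IsQ H B W ρ π → (∀ g : H, (g : 𝔾) ∈ B → ∀ v, ρ g v = v) →
        ∀ b ∈ B, b ∈ WA → ∀ g, ρ g (π b) - π b ∈ LinearMap.range ((ρ (gen hP) - 1) ^ (j + 1)))
    {d : ℕ}
    (hd : ∀ (S : Type) [AddCommGroup S] [Module (ZMod p) S] [Module.Finite (ZMod p) S]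
      (τ : Representation (ZMod p) H S), (∀ g : H, (g : 𝔾) ∈ K → ∀ x, τ g x = x) → IsSimple τ →
      (∃ g : H, (g : 𝔾) ∈ L ∧ ∃ x, τ g x ≠ x) → d ≤ finrank (ZMod p) S)
    {r s : ℕ} (hr : RankLe p I A (p ^ r)) (hs : ∃ Q, Valid p I LA Q ∧ p ^ s ≤ Q.relIndex LA)
    (hlt : r < s + d * (j + 1)) {e t : ℕ} (he : B.relIndex LB ≤ e) (he0 : B.relIndex LB ≠ 0)
    (T : Finset Ω) (hTt : T.card ≤ t) (hT : ∀ w, I w ⊓ LB ≤ B ∨ ∃ u ∈ T, ∃ l ∈ LB, w = l • u)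
    {C : ℕ} (hC : RankLe p I LB C) : RankLe p I B (p ^ (e * r) * (cst e t * C)) := by
  classical
  have hp : p.Prime := Fact.out
  have hAH : A ≤ H := hALA.trans hLAH
  have hBH : B ≤ H := hP.BA.trans hAH
  have hLBH : LB ≤ H := hLBA.trans hLAH
  -- the set of regular elements
  let Y : Set H := {y | (y : 𝔾) ∈ Reg p B LB}
  have hY : ∀ g, ∀ y ∈ Y, g * y * g⁻¹ ∈ Y := fun g y hy => reg_conj hP.Bn hLBn g.2 hy
  have hYs : ∀ y ∈ Y, ∃ n, ¬ p ∣ n ∧ (y : 𝔾) ^ n ∈ B := fun y hy => hy.2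
  have hYLB : ∀ y ∈ Y, (y : 𝔾) ∈ LB := fun y hy => hy.1
  have hYimg : ((fun y : H => (y : 𝔾)) '' Y) = Reg p B LB := by
    ext x
    constructor
    · rintro ⟨y, hy, rfl⟩
      exact hy
    · intro hx
      exact ⟨⟨x, hLBH hx.1⟩, hx, rfl⟩
  -- the lower level
  obtain ⟨WA, hWA, hWAn, hmin⟩ := min_valid hI hP.An hAf hAo hr
  obtain ⟨VA, i1, i2, i3, ρA, πA, hQA⟩ := exists_isQ (I := I) hAH hP.An hWA.fin hWA.gen hWAn
  have hVA : finrank (ZMod p) VA ≤ r := by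
    have h1 := hr WA hWA.le hWA.opn hWA.fin hWA.gen
    rw [hQA.total hWA.le] at h1
    exact (Nat.pow_le_pow_iff_right hp.one_lt).1 h1
  obtain ⟨Q, hQ, hQs⟩ := hs
  have hquo : s ≤ finrank (ZMod p) (VA ⧸ br ρA Y ⊤) := by
    refine top_quot hQA hP.An hAo hmin hALA hQ (gen_sup hQ ?_ hgenA) (fun y hy => hLBA hy.1) hQs
    exact fun y hy => hy
  have hPAdim : finrank (ZMod p) (br ρA Y ⊤) < d * (j + 1) := by
    have h1 := (br ρA Y ⊤).finrank_quotient_add_finrank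
    omega
  have hBA' : ∀ g : H, (g : 𝔾) ∈ B → ∀ v, ρA g v = v := fun g hg v =>
    hQA.triv hAH (fun a ha b hb => hWA.gen (Or.inl (Or.inr ⟨a, ha, b, hb, rfl⟩))) g (hP.BA hg) v
  obtain ⟨NA, hNA⟩ := act_nil hP hBA'
  have hsA : ∀ y ∈ Y, Semi (ρA y) := by
    intro y hy
    obtain ⟨n, hn, hyn⟩ := hYs y hy
    exact act_semi hBA' y hn hyn
  have htopA : Stable ρA ⊤ := fun _ _ _ => trivial
  have hPA : (br ρA Y ⊤).map ((ρA (gen hP) - 1) ^ j) = ⊥ := by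
    refine chain hY hsA (K := K.subgroupOf H) (γ := gen hP) (fun g x => act_comm hP hBA' g x)
      (fun g hg => act_pow hP hBA' g hg) hNA (d := d) ?_ (br_stable hY htopA)
      (br_idem hsA htopA) ?_
    · intro S _ _ _ τ h1 h2 h3
      refine hd S τ (fun g hg x => h1 g hg x) h2 ?_
      obtain ⟨y, hy, x, hx⟩ := h3
      exact ⟨y, hLAL (hLBA hy.1), x, hx⟩
    · exact hPAdim
  -- the upper level
  intro W₀ hW₀B hW₀o hW₀f hg₀
  have hW₁ : Valid p I B (WA ⊓ W₀) := hWA.inf ⟨hW₀B, hW₀o, hW₀f, hg₀⟩ hP.BA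
  obtain ⟨W, hWW₁, hWo, hWf, hg, hWn⟩ := exists_core hI hP.Bn hBf hW₁.le hW₁.opn hW₁.fin hW₁.gen
  have hWB : W ≤ B := hWW₁.trans hW₁.le
  have hW : Valid p I B W := ⟨hWB, hWo, hWf, hg⟩
  refine (relIndex_le_of_le_left (hWW₁.trans inf_le_right) hWf).trans ?_
  obtain ⟨V, j1, j2, j3, ρ, π, hQB⟩ := exists_isQ (I := I) hBH hP.Bn hWf hg hWn
  have hB : ∀ g : H, (g : 𝔾) ∈ B → ∀ v, ρ g v = v := fun g hg' v =>
    hQB.triv hBH (fun a ha b hb => hg (Or.inl (Or.inr ⟨a, ha, b, hb, rfl⟩))) g hg' v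
  obtain ⟨φ, hφ1, hφ2⟩ := exists_map hQA hQB hP.BA hP.Bn (hWW₁.trans inf_le_left)
  have hker : ∀ v, φ v = 0 → ∀ g ∈ Y, ρ g v - v ∈
      LinearMap.range ((ρ (gen hP) - 1) ^ (j + 1)) := by
    intro v hv g _
    obtain ⟨b, hb, rfl⟩ := hQB.surj v
    rw [hφ1 b hb] at hv
    exact hkerj WA W hmin hW V ρ π hQB hB b hb ((hQA.ker b (hP.BA hb)).1 hv) g
  have hrange : ∀ y ∈ Y, finrank (ZMod p) (LinearMap.range (ρ y - 1)) ≤ r := fun y hy =>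
    (range_le hP hB hφ2 hker hYs hPA hy).trans hVA
  have h1 := br_finrank hB hLBH hYLB he0 hrange
  have h2 := quot_bound (Y := Y) hB hI hQB hW hP.Bn hBLB hLBH he0 (by rw [hYimg]; exact hgenB) T hT hC
  have h3 := (br ρ Y ⊤).finrank_quotient_add_finrank
  rw [hQB.total hWB, ← h3, add_comm, pow_add]
  refine Nat.mul_le_mul ?_ ?_
  · exact Nat.pow_le_pow_right hp.pos (h1.trans (Nat.mul_le_mul_right _ he))
  · refine h2.trans (Nat.mul_le_mul_right _ ?_)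
    exact cst_mono (Nat.pos_of_ne_zero he0) he hTt

theorem relIndex_le_index' {X Z : Subgroup 𝔾} (hX : X.index ≠ 0) : X.relIndex Z ≤ X.index := by
  rw [← relIndex_top_right]
  rw [← relIndex_top_right] at hX
  exact relIndex_le_of_le_right le_top hX

theorem inf_relIndex_inf {X Z D : Subgroup 𝔾} :
    (X ⊓ D).relIndex (Z ⊓ D) = X.relIndex (Z ⊓ D) := by
  rw [← inf_relIndex_right, ← inf_relIndex_right X]
  congr 1
  ext x
  simp only [mem_inf]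
  tauto

include hI in
/-- **The growth theorem.** -/
theorem growth (hKL : K ≤ L) (hLH : L ≤ H) (hKn : ∀ d ∈ H, ∀ x ∈ K, d * x * d⁻¹ ∈ K)
    (hLn : ∀ d ∈ H, ∀ x ∈ L, d * x * d⁻¹ ∈ L) (hKo : IsOpen (K : Set 𝔾)) (hKf : K.index ≠ 0)
    {D : ℕ → Subgroup 𝔾} (hDn : ∀ m, (D m).Normal) (hDo : ∀ m, IsOpen (D m : Set 𝔾))
    (hDi : ∀ m, (D m).index = p ^ m) (hDc : ∀ m, IsCyclic (𝔾 ⧸ D m)) (hanti : Antitone D)
    (hun : ∀ w m, I w ≤ D m)
    (hram : ∃ t, ∀ m, ∃ T : Finset Ω, T.card ≤ t ∧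
      ∀ w, I w ⊓ D m ≤ K ∨ ∃ u ∈ T, ∃ d ∈ D m, w = d • u)
    (hgen : ∀ C : Subgroup 𝔾, K ≤ C → C ≤ L → (∀ d ∈ H, ∀ x ∈ C, d * x * d⁻¹ ∈ C) →
      (∃ k, C.relIndex L = p ^ k) → C = L) {d : ℕ}
    (hd : ∀ (S : Type) [AddCommGroup S] [Module (ZMod p) S] [Module.Finite (ZMod p) S]
      (τ : Representation (ZMod p) H S), (∀ g : H, (g : 𝔾) ∈ K → ∀ x, τ g x = x) → IsSimple τ →
      (∃ g : H, (g : 𝔾) ∈ L ∧ ∃ x, τ g x ≠ x) → d ≤ finrank (ZMod p) S)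
    {m r s : ℕ} (hr : RankLe p I (K ⊓ D m) (p ^ r))
    (hs : ∃ Q, Valid p I (L ⊓ D m) Q ∧ p ^ s ≤ Q.relIndex (L ⊓ D m))
    (hlt : r < s + d * (K ⊓ D m).relIndex K) :
    ∃ b, ∀ M C, RankLe p I (L ⊓ D M) C → RankLe p I (K ⊓ D M) (b * C) := by
  classical
  have hp : p.Prime := Fact.out
  obtain ⟨t, ht⟩ := hram
  have hKD : ∀ M, IsOpen ((K ⊓ D M : Subgroup 𝔾) : Set 𝔾) := fun M => by
    rw [coe_inf]
    exact hKo.inter (hDo M)
  have hDf : ∀ M, (D M).index ≠ 0 := fun M => by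
    rw [hDi]
    exact pow_ne_zero _ hp.ne_zero
  have hKDf : ∀ M (Z : Subgroup 𝔾), (K ⊓ D M).relIndex Z ≠ 0 := fun M Z h =>
    index_inf_ne_zero hKf (hDf M) (index_eq_zero_of_relIndex_eq_zero h)
  have hKDn : ∀ M, ∀ d ∈ H, ∀ x ∈ K ⊓ D M, d * x * d⁻¹ ∈ K ⊓ D M := fun M d hd x hx =>
    ⟨hKn d hd x hx.1, (hDn M).conj_mem x hx.2 d⟩
  have hLDn : ∀ M, ∀ d ∈ H, ∀ x ∈ L ⊓ D M, d * x * d⁻¹ ∈ L ⊓ D M := fun M d hd x hx =>
    ⟨hLn d hd x hx.1, (hDn M).conj_mem x hx.2 d⟩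
  have hLf : L.index ≠ 0 := fun h => hKf (by
    have := relIndex_mul_index hKL
    rw [h, mul_zero] at this
    exact this.symm)
  have hLo : IsOpen (L : Set 𝔾) := isOpen_mono hKL hKo
  have hKLf : K.relIndex L ≠ 0 := fun h => hKf (index_eq_zero_of_relIndex_eq_zero h)
  have hg := gen_top hKL hLH hKn hLn hKLf hgen
  have hgl : ∀ M, L ⊓ D M ≤ Subgroup.closure (Reg p (K ⊓ D M) (L ⊓ D M) ∪
      ((K ⊓ D M : Subgroup 𝔾) : Set 𝔾)) := fun M => gen_level hKL hLH hKn hg (hDn M) (hDi M)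
  refine ⟨p ^ (K.index * r) * cst K.index (L.index * t) + p ^ r * p ^ m, fun M C hC => ?_⟩
  rcases le_total m M with hmM | hMm
  · obtain ⟨γ, c, hc, hP⟩ := exists_pair (hKL.trans hLH) hKn (hDn m) (hDn M) (hanti hmM)
      (hDi m) (hDi M) (hDc M)
    obtain ⟨T, hTt, hT⟩ := ht M
    have hLDf : (L ⊓ D M).relIndex (D M) ≠ 0 := fun h =>
      index_inf_ne_zero hLf (hDf M) (index_eq_zero_of_relIndex_eq_zero h)
    obtain ⟨T', hT'c, hT'⟩ := exists_TL hLDf T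
    have h1 : T'.card ≤ L.index * t := by
      refine hT'c.trans (Nat.mul_le_mul ?_ hTt)
      rw [inf_relIndex_right]
      exact relIndex_le_index' hLf
    have h2 : (K ⊓ D M).relIndex (L ⊓ D M) ≤ K.index := by
      rw [inf_relIndex_inf]
      exact relIndex_le_index' hKf
    rw [hc] at hlt
    have hn : p ^ c = (p ^ c - 1) + 1 := by
      have := Nat.one_le_pow c p hp.pos
      omega
    refine (upper hI hP (hKDf m H) (hKDf M H) (hKD m) (hKD M) (inf_le_inf_right _ hKL)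
      (inf_le_inf_right _ hKL) (inf_le_inf_left _ (hanti hmM)) (inf_le_left.trans hLH)
      inf_le_left (hLDn M) (hgl m) (hgl M)
      (j := p ^ c - 1) (by
        intro WA W hmin hW V _ _ ρ π hQ hB b hb hbW g
        rw [← hn]
        exact ker_triv hP hQ hB hW hmin (fun w x hx => ⟨hx.2.1, hun w M hx.1⟩) (hKDf M _) b hb hbW g)
      hd hr hs (by rwa [← hn]) h2 (hKDf M _) T' h1 ?_ hC).mono ?_
    · intro w
      rcases hT w with h | ⟨u, hu, d, hd, rfl⟩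
      · exact Or.inl fun x hx => ⟨h ⟨hx.1, hx.2.2⟩, hx.2.2⟩
      · exact Or.inr (hT' u hu d hd)
    · rw [← mul_assoc]
      exact Nat.mul_le_mul_right _ (Nat.le_add_right _ _)
  · have h1 : K ⊓ D m ≤ K ⊓ D M := inf_le_inf_left _ (hanti hMm)
    refine (hr.of_le h1 (hKD m) (hKDf m _)).mono ?_
    have h2 : (K ⊓ D m).relIndex (K ⊓ D M) ≤ p ^ m := by
      rw [inf_comm K, inf_comm K, inf_relIndex_inf, ← hDi m]
      exact relIndex_le_index' (hDf m)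
    have h3 : 1 ≤ C := by
      have h4 : Valid p I (L ⊓ D M) (L ⊓ D M) := Valid.self (by
        rw [coe_inf]
        exact hLo.inter (hDo M))
      have h5 := hC _ h4.le h4.opn h4.fin h4.gen
      rwa [relIndex_self] at h5
    calc p ^ r * (K ⊓ D m).relIndex (K ⊓ D M) ≤ p ^ r * p ^ m := Nat.mul_le_mul_left _ h2
      _ ≤ p ^ (K.index * r) * cst K.index (L.index * t) + p ^ r * p ^ m := Nat.le_add_left _ _
      _ = (p ^ (K.index * r) * cst K.index (L.index * t) + p ^ r * p ^ m) * 1 := (mul_one _).symm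
      _ ≤ _ := Nat.mul_le_mul_left _ h3

end Pool.Agent.V7H53.GG
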