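import Pool.Agent.V7H53.GG.Rep
import Pool.Agent.Q60.MU.Reduction

/-!
# The representations on the elementary abelian quotients
-/

set_option autoImplicit false

namespace Pool.Agent.V7H53.GG

open Subgroup Module Polynomial Pool.Agent.Q60.MU
open scoped commutatorElement

section isq

variable {𝔾 : Type} [Group 𝔾] {p : ℕ} [Fact p.Prime]

/-- The map `π` identifies `A/W` with `V`, equivariantly for `H`. -/
structure IsQ (H A W : Subgroup 𝔾) {V : Type} [AddCommGroup V] [Module (ZMod p) V]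
    (ρ : Representation (ZMod p) H V) (π : 𝔾 → V) : Prop where
  surj : ∀ v, ∃ x ∈ A, π x = v
  mul : ∀ x ∈ A, ∀ y ∈ A, π (x * y) = π x + π y
  ker : ∀ x ∈ A, π x = 0 ↔ x ∈ W
  act : ∀ (d : H), ∀ x ∈ A, ρ d (π x) = π (d * x * (d : 𝔾)⁻¹)

theorem exists_isQ {Ω : Type} {I : Ω → Subgroup 𝔾} {H A W : Subgroup 𝔾} (hAH : A ≤ H)
    (hAn : ∀ d ∈ H, ∀ x ∈ A, d * x * d⁻¹ ∈ A) (hWf : W.relIndex A ≠ 0) (hg : gens p I A ⊆ W)
    (hWn : ∀ d ∈ H, ∀ x ∈ W, d * x * d⁻¹ ∈ W) :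
    ∃ (V : Type) (_ : AddCommGroup V) (_ : Module (ZMod p) V) (_ : Module.Finite (ZMod p) V)
      (ρ : Representation (ZMod p) H V) (π : 𝔾 → V), IsQ H A W ρ π := by
  classical
  obtain ⟨V, i1, i2, i3, ρ, π, hs, ha, h0, hρ⟩ := exists_rep hAH hAn hWf hg hWn
  have hd : ∀ x (h : x ∈ A), (if h : x ∈ A then π ⟨x, h⟩ else 0) = π ⟨x, h⟩ := fun x h => dif_pos h
  refine ⟨V, i1, i2, i3, ρ, fun x => if h : x ∈ A then π ⟨x, h⟩ else 0, ?_, ?_, ?_, ?_⟩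
  · intro v
    obtain ⟨x, rfl⟩ := hs v
    exact ⟨x, x.2, hd x x.2⟩
  · intro x hx y hy
    show (if h : x * y ∈ A then π ⟨x * y, h⟩ else 0) = (if h : x ∈ A then π ⟨x, h⟩ else 0) +
      (if h : y ∈ A then π ⟨y, h⟩ else 0)
    rw [hd x hx, hd y hy, hd _ (A.mul_mem hx hy)]
    exact ha ⟨x, hx⟩ ⟨y, hy⟩
  · intro x hx
    show (if h : x ∈ A then π ⟨x, h⟩ else 0) = 0 ↔ _
    rw [hd x hx]
    exact h0 ⟨x, hx⟩
  · intro d x hx
    show ρ d (if h : x ∈ A then π ⟨x, h⟩ else 0) =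
      (if h : d * x * (d : 𝔾)⁻¹ ∈ A then π ⟨d * x * (d : 𝔾)⁻¹, h⟩ else 0)
    rw [hd x hx, hd _ (hAn d d.2 x hx)]
    exact hρ d ⟨x, hx⟩

variable {H A W : Subgroup 𝔾} {V : Type} [AddCommGroup V] [Module (ZMod p) V]
    {ρ : Representation (ZMod p) H V} {π : 𝔾 → V}

theorem IsQ.one (h : IsQ H A W ρ π) : π 1 = 0 := (h.ker 1 A.one_mem).2 W.one_mem

theorem IsQ.inv (h : IsQ H A W ρ π) {x : 𝔾} (hx : x ∈ A) : π x⁻¹ = - π x := by
  have h1 := h.mul x hx x⁻¹ (A.inv_mem hx)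
  rw [mul_inv_cancel, h.one] at h1
  exact (neg_eq_of_add_eq_zero_right h1.symm).symm

theorem IsQ.comm (h : IsQ H A W ρ π) (hAn : ∀ d ∈ H, ∀ x ∈ A, d * x * d⁻¹ ∈ A) (d : H) {x : 𝔾}
    (hx : x ∈ A) : π ⁅(d : 𝔾), x⁆ = ρ d (π x) - π x := by
  rw [commutatorElement_def, h.mul _ (hAn d d.2 x hx) _ (A.inv_mem hx), h.inv hx, ← h.act d x hx,
    sub_eq_add_neg]

theorem comm_mem (hAn : ∀ d ∈ H, ∀ x ∈ A, d * x * d⁻¹ ∈ A) (d : H) {x : 𝔾}
    (hx : x ∈ A) : ⁅(d : 𝔾), x⁆ ∈ A := by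
  rw [commutatorElement_def]
  exact A.mul_mem (hAn d d.2 x hx) (A.inv_mem hx)

theorem IsQ.triv (h : IsQ H A W ρ π) (hAH : A ≤ H)
    (hc : ∀ a ∈ A, ∀ b ∈ A, ⁅a, b⁆ ∈ W) (g : H) (hg : (g : 𝔾) ∈ A) (v : V) :
    ρ g v = v := by
  obtain ⟨x, hx, rfl⟩ := h.surj v
  have hm : ⁅(g : 𝔾), x⁆ ∈ A := by
    rw [commutatorElement_def]
    exact A.mul_mem (A.mul_mem (A.mul_mem hg hx) (A.inv_mem hg)) (A.inv_mem hx)
  rw [h.act g x hx]
  have h1 : (g : 𝔾) * x * (g : 𝔾)⁻¹ = ⁅(g : 𝔾), x⁆ * x := by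
    rw [commutatorElement_def]
    group
  rw [h1, h.mul _ hm _ hx, (h.ker _ hm).2 (hc _ hg _ hx), zero_add]

theorem IsQ.index [Module.Finite (ZMod p) V] (h : IsQ H A W ρ π) (c : Submodule (ZMod p) V) :
    ∃ Q : Subgroup 𝔾, (∀ x, x ∈ Q ↔ x ∈ A ∧ π x ∈ c) ∧
      Q.relIndex A = p ^ finrank (ZMod p) (V ⧸ c) := by
  refine ⟨⟨⟨⟨{x | x ∈ A ∧ π x ∈ c}, ?_⟩, ?_⟩, ?_⟩, fun x => Iff.rfl, ?_⟩
  · rintro a b ⟨h1, h2⟩ ⟨h3, h4⟩
    refine ⟨A.mul_mem h1 h3, ?_⟩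
    rw [h.mul a h1 b h3]
    exact c.add_mem h2 h4
  · refine ⟨A.one_mem, ?_⟩
    rw [h.one]
    exact c.zero_mem
  · rintro a ⟨h1, h2⟩
    refine ⟨A.inv_mem h1, ?_⟩
    rw [h.inv h1]
    exact c.neg_mem h2
  · let φ : A →* Multiplicative (V ⧸ c) :=
      { toFun := fun x => Multiplicative.ofAdd (c.mkQ (π x))
        map_one' := by
          show Multiplicative.ofAdd (c.mkQ (π 1)) = 1
          rw [h.one, map_zero]
          rfl
        map_mul' := fun x y => by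
          show Multiplicative.ofAdd (c.mkQ (π ((x : 𝔾) * y))) = _
          rw [h.mul x x.2 y y.2, map_add]
          rfl }
    have h2 : Function.Surjective φ := by
      intro y
      obtain ⟨v, hv⟩ := c.mkQ_surjective (Multiplicative.toAdd y)
      obtain ⟨x, hx, rfl⟩ := h.surj v
      exact ⟨⟨x, hx⟩, congrArg Multiplicative.ofAdd hv⟩
    have h3 : Nat.card (V ⧸ c) = p ^ finrank (ZMod p) (V ⧸ c) := by
      have h4 := Module.natCard_eq_pow_finrank (K := ZMod p) (V := V ⧸ c)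
      rwa [Nat.card_zmod] at h4
    rw [← h3]
    show (Subgroup.comap A.subtype _).index = _
    have h1 : Subgroup.comap A.subtype (⟨⟨⟨{x | x ∈ A ∧ π x ∈ c}, by
        rintro a b ⟨h1, h2⟩ ⟨h3, h4⟩
        refine ⟨A.mul_mem h1 h3, ?_⟩
        rw [h.mul a h1 b h3]
        exact c.add_mem h2 h4⟩, by
        refine ⟨A.one_mem, ?_⟩
        rw [h.one]
        exact c.zero_mem⟩, by
        rintro a ⟨h1, h2⟩
        refine ⟨A.inv_mem h1, ?_⟩
        rw [h.inv h1]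
        exact c.neg_mem h2⟩ : Subgroup 𝔾) = φ.ker := by
      ext x
      rw [MonoidHom.mem_ker]
      constructor
      · rintro ⟨_, h⟩
        exact (Submodule.Quotient.mk_eq_zero c).2 h
      · intro h
        exact ⟨x.2, (Submodule.Quotient.mk_eq_zero c).1 h⟩
    rw [h1, index_ker, MonoidHom.range_eq_top.2 h2, card_top]
    rfl

theorem IsQ.total [Module.Finite (ZMod p) V] (h : IsQ H A W ρ π) (hWA : W ≤ A) :
    W.relIndex A = p ^ finrank (ZMod p) V := by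
  obtain ⟨Q, hQ, hQi⟩ := h.index ⊥
  have h1 : Q = W := by
    ext x
    rw [hQ]
    constructor
    · rintro ⟨h1, h2⟩
      exact (h.ker x h1).1 ((Submodule.mem_bot _).1 h2)
    · intro hx
      exact ⟨hWA hx, (Submodule.mem_bot _).2 ((h.ker x (hWA hx)).2 hx)⟩
  have h2 := (⊥ : Submodule (ZMod p) V).finrank_quotient_add_finrank
  rw [finrank_bot, add_zero] at h2
  rw [← h1, hQi, h2]

end isq

section valid

variable {𝔾 : Type} [Group 𝔾] [TopologicalSpace 𝔾]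

/-- The subgroup `W` of `A` belongs to an elementary extension. -/
structure Valid (p : ℕ) {Ω : Type} (I : Ω → Subgroup 𝔾) (A W : Subgroup 𝔾) : Prop where
  le : W ≤ A
  opn : IsOpen (W : Set 𝔾)
  fin : W.relIndex A ≠ 0
  gen : gens p I A ⊆ W

variable {p : ℕ} {Ω : Type} {I : Ω → Subgroup 𝔾}

theorem Valid.inf {A B W W' : Subgroup 𝔾} (h : Valid p I A W) (h' : Valid p I B W')
    (hBA : B ≤ A) : Valid p I B (W ⊓ W') where
  le := inf_le_right.trans h'.le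
  opn := by
    rw [coe_inf]
    exact h.opn.inter h'.opn
  fin := relIndex_inf_ne_zero (fun h1 => h.fin (relIndex_eq_zero_of_le_right hBA h1)) h'.fin
  gen := fun x hx => ⟨h.gen (gens_mono hBA hx), h'.gen hx⟩

theorem Valid.self {A : Subgroup 𝔾} (hA : IsOpen (A : Set 𝔾)) : Valid p I A A where
  le := le_rfl
  opn := hA
  fin := by
    rw [relIndex_self]
    exact one_ne_zero
  gen := gens_subset

theorem min_valid [ContinuousMul 𝔾] [MulAction 𝔾 Ω]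
    (hI : ∀ (g : 𝔾) (w : Ω), ∀ x ∈ I w, g * x * g⁻¹ ∈ I (g • w))
    {H A : Subgroup 𝔾} (hAn : ∀ d ∈ H, ∀ x ∈ A, d * x * d⁻¹ ∈ A) (hAf : A.relIndex H ≠ 0)
    (hAo : IsOpen (A : Set 𝔾)) {C : ℕ} (hC : RankLe p I A C) :
    ∃ W, Valid p I A W ∧ (∀ d ∈ H, ∀ x ∈ W, d * x * d⁻¹ ∈ W) ∧
      ∀ W', Valid p I A W' → W ≤ W' := by
  classical
  let P : ℕ → Prop := fun k => ∃ W, Valid p I A W ∧ W.relIndex A = k
  have hle : ∀ W, Valid p I A W → W.relIndex A ≤ C := fun W hW => hC W hW.le hW.opn hW.fin hW.gen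
  have hA1 : P (A.relIndex A) := ⟨A, Valid.self hAo, rfl⟩
  obtain ⟨W, hW, hWi⟩ := Nat.findGreatest_spec (P := P) (hle A (Valid.self hAo)) hA1
  have hmax : ∀ W', Valid p I A W' → W'.relIndex A ≤ W.relIndex A := by
    intro W' hW'
    rw [hWi]
    exact Nat.le_findGreatest (hle W' hW') ⟨W', hW', rfl⟩
  obtain ⟨W₁, h1, h2, h3, h4, h5⟩ := exists_core hI hAn hAf hW.le hW.opn hW.fin hW.gen
  have hW₁ : Valid p I A W₁ := ⟨h1.trans hW.le, h2, h3, h4⟩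
  refine ⟨W₁, hW₁, h5, fun W' hW' => ?_⟩
  have h6 := hmax _ (hW₁.inf hW' le_rfl)
  have h7 : W.relIndex A ≤ W₁.relIndex A := relIndex_le_of_le_left h1 h3
  have h8 := relIndex_mul_relIndex (W₁ ⊓ W') W₁ A inf_le_left hW₁.le
  have h9 : (W₁ ⊓ W').relIndex W₁ = 1 := by
    have h10 : (W₁ ⊓ W').relIndex W₁ * W₁.relIndex A ≤ 1 * W₁.relIndex A := by
      rw [h8, one_mul]
      exact h6.trans h7
    have h11 := Nat.le_of_mul_le_mul_right h10 (Nat.pos_of_ne_zero h3)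
    have h12 : (W₁ ⊓ W').relIndex W₁ ≠ 0 := by
      intro h
      rw [h, zero_mul] at h8
      exact (hW₁.inf hW' le_rfl).fin h8.symm
    omega
  exact (relIndex_eq_one.1 h9).trans inf_le_right

end valid

end Pool.Agent.V7H53.GG
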