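import Pool.Agent.V7H53.GG.Fin

/-!
# The growth theorem for groups
-/

set_option autoImplicit false

namespace Pool.Agent.V7H53.GG

open Subgroup Module Polynomial Pool.Agent.Q60.MU
open scoped commutatorElement

section gen

variable {𝔾 : Type} [Group 𝔾] {p : ℕ} [Fact p.Prime] {H K L : Subgroup 𝔾}

/-- The elements of `L` whose order modulo `K` is prime to `p`. -/
def Reg (p : ℕ) (K L : Subgroup 𝔾) : Set 𝔾 := {x | x ∈ L ∧ ∃ n, ¬ p ∣ n ∧ x ^ n ∈ K}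

theorem reg_conj (hKn : ∀ d ∈ H, ∀ x ∈ K, d * x * d⁻¹ ∈ K)
    (hLn : ∀ d ∈ H, ∀ x ∈ L, d * x * d⁻¹ ∈ L) {d x : 𝔾} (hd : d ∈ H) (hx : x ∈ Reg p K L) :
    d * x * d⁻¹ ∈ Reg p K L := by
  obtain ⟨h1, n, hn, h2⟩ := hx
  refine ⟨hLn d hd x h1, n, hn, ?_⟩
  rw [conj_pow]
  exact hKn d hd _ h2

theorem closure_conj {S : Set 𝔾} {d : 𝔾} (hS : ∀ x ∈ S, d * x * d⁻¹ ∈ Subgroup.closure S) :
    ∀ x ∈ Subgroup.closure S, d * x * d⁻¹ ∈ Subgroup.closure S := by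
  intro x hx
  induction hx using Subgroup.closure_induction with
  | mem x hx => exact hS x hx
  | one => rw [mul_one, mul_inv_cancel]; exact Subgroup.one_mem _
  | mul x y _ _ h1 h2 =>
    have h3 : d * (x * y) * d⁻¹ = (d * x * d⁻¹) * (d * y * d⁻¹) := by group
    rw [h3]
    exact Subgroup.mul_mem _ h1 h2
  | inv x _ h1 =>
    have h3 : d * x⁻¹ * d⁻¹ = (d * x * d⁻¹)⁻¹ := by group
    rw [h3]
    exact Subgroup.inv_mem _ h1

theorem gen_top (hKL : K ≤ L) (hLH : L ≤ H) (hKn : ∀ d ∈ H, ∀ x ∈ K, d * x * d⁻¹ ∈ K)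
    (hLn : ∀ d ∈ H, ∀ x ∈ L, d * x * d⁻¹ ∈ L) (hKf : K.relIndex L ≠ 0)
    (hgen : ∀ C : Subgroup 𝔾, K ≤ C → C ≤ L → (∀ d ∈ H, ∀ x ∈ C, d * x * d⁻¹ ∈ C) →
      (∃ k, C.relIndex L = p ^ k) → C = L) :
    L ≤ Subgroup.closure (Reg p K L ∪ K) := by
  classical
  have hp : p.Prime := Fact.out
  set C := Subgroup.closure (Reg p K L ∪ (K : Set 𝔾)) with hC
  have hKC : K ≤ C := fun x hx => Subgroup.subset_closure (Or.inr hx)
  have hCL : C ≤ L := by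
    rw [hC, closure_le]
    rintro x (hx | hx)
    · exact hx.1
    · exact hKL hx
  have hCn : ∀ d ∈ H, ∀ x ∈ C, d * x * d⁻¹ ∈ C := by
    intro d hd
    refine closure_conj ?_
    rintro x (hx | hx)
    · exact Subgroup.subset_closure (Or.inl (reg_conj hKn hLn hd hx))
    · exact Subgroup.subset_closure (Or.inr (hKn d hd x hx))
  have hCf : C.relIndex L ≠ 0 := fun h => hKf (relIndex_eq_zero_of_le_left hKC h)
  have hN : (C.subgroupOf L).Normal := ⟨fun q hq l => hCn l (hLH l.2) q hq⟩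
  have hfi : (C.subgroupOf L).FiniteIndex := ⟨hCf⟩
  have hPg : IsPGroup p (L ⧸ C.subgroupOf L) := by
    intro g
    obtain ⟨x, rfl⟩ := QuotientGroup.mk_surjective g
    obtain ⟨N, hN0, -, hxN⟩ := exists_pow_mem_of_relIndex_ne_zero hKf x.2
    obtain ⟨a, n, hn, hNa⟩ := Nat.exists_eq_pow_mul_and_not_dvd hN0.ne' p hp.ne_one
    refine ⟨a, ?_⟩
    rw [← QuotientGroup.mk_pow, QuotientGroup.eq_one_iff, mem_subgroupOf]
    refine Subgroup.subset_closure (Or.inl ⟨?_, n, hn, ?_⟩)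
    · push_cast
      exact L.pow_mem x.2 _
    · push_cast
      rw [← pow_mul, ← hNa]
      exact hxN.1
  obtain ⟨k, hk⟩ := IsPGroup.iff_card.1 hPg
  exact (hgen C hKC hCL hCn ⟨k, hk⟩).ge

theorem gen_level (hKL : K ≤ L) (hLH : L ≤ H) (hKn : ∀ d ∈ H, ∀ x ∈ K, d * x * d⁻¹ ∈ K)
    (hgen : L ≤ Subgroup.closure (Reg p K L ∪ K)) {D : Subgroup 𝔾} (hD : D.Normal) {M : ℕ}
    (hDi : D.index = p ^ M) :
    L ⊓ D ≤ Subgroup.closure (Reg p (K ⊓ D) (L ⊓ D) ∪ ((K ⊓ D : Subgroup 𝔾) : Set 𝔾)) := by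
  classical
  have hp : p.Prime := Fact.out
  set E := Subgroup.closure (Reg p (K ⊓ D) (L ⊓ D) ∪ ((K ⊓ D : Subgroup 𝔾) : Set 𝔾)) with hE
  have hEL : E ≤ L ⊓ D := by
    rw [hE, closure_le]
    rintro x (hx | hx)
    · exact hx.1
    · exact ⟨hKL hx.1, hx.2⟩
  have hEK : ∀ e ∈ E, ∀ k ∈ K, e * k * e⁻¹ ∈ K := fun e he k hk => hKn e (hLH (hEL he).1) k hk
  have key : ∀ x ∈ Subgroup.closure (Reg p K L ∪ (K : Set 𝔾)), ∃ e ∈ E, ∃ k ∈ K, x = e * k := by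
    intro x hx
    induction hx using Subgroup.closure_induction with
    | mem x hx =>
      rcases hx with ⟨hxL, n, hn, hxn⟩ | hx
      · have h3 : IsCoprime ((p ^ M : ℕ) : ℤ) (n : ℤ) :=
          Nat.isCoprime_iff_coprime.2 (((Nat.Prime.coprime_iff_not_dvd hp).2 hn).pow_left M)
        obtain ⟨u, v, huv⟩ := h3
        have hxD : x ^ p ^ M ∈ D := by
          rw [← hDi]
          exact D.pow_index_mem x
        refine ⟨(x ^ p ^ M) ^ u, ?_, (x ^ n) ^ v, K.zpow_mem hxn v, ?_⟩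
        · refine Subgroup.subset_closure (Or.inl ⟨⟨L.zpow_mem (L.pow_mem hxL _) u,
            D.zpow_mem hxD u⟩, n, hn, ?_, D.pow_mem (D.zpow_mem hxD u) n⟩)
          have h4 : ((x ^ p ^ M) ^ u) ^ n = ((x ^ n) ^ p ^ M) ^ u := by
            rw [← zpow_natCast, ← zpow_mul, mul_comm u, zpow_mul, zpow_natCast, ← pow_mul,
              mul_comm, pow_mul]
          rw [h4]
          exact K.zpow_mem (K.pow_mem hxn _) u
        · rw [← zpow_natCast x (p ^ M), ← zpow_natCast x n, ← zpow_mul, ← zpow_mul, ← zpow_add,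
            mul_comm _ u, mul_comm _ v, huv, zpow_one]
      · exact ⟨1, E.one_mem, x, hx, (one_mul x).symm⟩
    | one => exact ⟨1, E.one_mem, 1, K.one_mem, (one_mul 1).symm⟩
    | mul x y _ _ h1 h2 =>
      obtain ⟨e, he, k, hk, rfl⟩ := h1
      obtain ⟨e', he', k', hk', rfl⟩ := h2
      refine ⟨e * e', E.mul_mem he he', (e'⁻¹ * k * e'⁻¹⁻¹) * k',
        K.mul_mem (hEK _ (E.inv_mem he') k hk) hk', ?_⟩
      group
    | inv x _ h1 =>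
      obtain ⟨e, he, k, hk, rfl⟩ := h1
      refine ⟨e⁻¹, E.inv_mem he, e * k⁻¹ * e⁻¹, hEK e he _ (K.inv_mem hk), ?_⟩
      group
  rintro l ⟨hl, hlD⟩
  obtain ⟨e, he, k, hk, h⟩ := key l (hgen hl)
  have hkD : k ∈ D := by
    have h1 : k = e⁻¹ * l := by rw [h]; group
    rw [h1]
    exact D.mul_mem (D.inv_mem (hEL he).2) hlD
  rw [h]
  exact E.mul_mem he (Subgroup.subset_closure (Or.inr ⟨hk, hkD⟩))

end gen

section cyc

variable {𝔾 : Type} [Group 𝔾] {p : ℕ} [Fact p.Prime] {H K : Subgroup 𝔾}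

theorem exists_gen (hKn : ∀ d ∈ H, ∀ x ∈ K, d * x * d⁻¹ ∈ K)
    {D : Subgroup 𝔾} (hD : D.Normal) (hDf : D.index ≠ 0) (hDc : IsCyclic (𝔾 ⧸ D)) :
    ∃ γ ∈ K, (∀ g ∈ H, ⁅g, γ⁆ ∈ K ⊓ D) ∧ ∀ x ∈ K, ∃ i : ℕ, ∃ b ∈ K ⊓ D, x = b * γ ^ i := by
  classical
  have hfi : D.FiniteIndex := ⟨hDf⟩
  have hfin : Finite (𝔾 ⧸ D) := inferInstance
  obtain ⟨⟨z, hz⟩, hzg⟩ := (inferInstance : IsCyclic (K.map (QuotientGroup.mk' D))).exists_generator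
  obtain ⟨γ, hγ, rfl⟩ := hz
  have hcomm : ∀ a b : 𝔾 ⧸ D, a * b = b * a := by
    obtain ⟨w, hw⟩ := hDc.exists_generator
    intro a b
    obtain ⟨i, rfl⟩ := hw a
    obtain ⟨j, rfl⟩ := hw b
    show w ^ i * w ^ j = w ^ j * w ^ i
    rw [← zpow_add, ← zpow_add, add_comm]
  refine ⟨γ, hγ, fun g hg => ⟨?_, ?_⟩, fun x hx => ?_⟩
  · rw [commutatorElement_def]
    exact K.mul_mem (hKn g hg γ hγ) (K.inv_mem hγ)
  · show ⁅g, γ⁆ ∈ D
    rw [← QuotientGroup.eq_one_iff, commutatorElement_def, QuotientGroup.mk_mul,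
      QuotientGroup.mk_mul, QuotientGroup.mk_mul, QuotientGroup.mk_inv, QuotientGroup.mk_inv,
      hcomm (g : 𝔾 ⧸ D) γ, mul_inv_cancel_right, mul_inv_cancel]
  · have h1 := hzg ⟨QuotientGroup.mk' D x, x, hx, rfl⟩
    rw [← mem_powers_iff_mem_zpowers] at h1
    obtain ⟨i, hi⟩ := h1
    have h2 : (QuotientGroup.mk' D γ) ^ i = QuotientGroup.mk' D x := congrArg Subtype.val hi
    have h3 : x * (γ ^ i)⁻¹ ∈ D := by
      rw [← QuotientGroup.eq_one_iff, QuotientGroup.mk_mul, QuotientGroup.mk_inv,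
        QuotientGroup.mk_pow]
      rw [QuotientGroup.mk'_apply, QuotientGroup.mk'_apply] at h2
      rw [h2, mul_inv_cancel]
    exact ⟨i, x * (γ ^ i)⁻¹, ⟨K.mul_mem hx (K.inv_mem (K.pow_mem hγ i)), h3⟩, by group⟩

theorem exists_pair (hKH : K ≤ H) (hKn : ∀ d ∈ H, ∀ x ∈ K, d * x * d⁻¹ ∈ K)
    {D D' : Subgroup 𝔾} (hD : D.Normal) (hD' : D'.Normal) (hDD : D' ≤ D) {m M : ℕ}
    (hDi : D.index = p ^ m) (hDi' : D'.index = p ^ M) (hDc : IsCyclic (𝔾 ⧸ D')) :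
    ∃ (γ : 𝔾) (c : ℕ), (K ⊓ D).relIndex K = p ^ c ∧ Pair p H K (K ⊓ D) (K ⊓ D') γ c := by
  classical
  have hp : p.Prime := Fact.out
  have hDf' : D'.index ≠ 0 := by
    rw [hDi']
    exact pow_ne_zero _ hp.ne_zero
  obtain ⟨γ, hγ, hγc, hγg⟩ := exists_gen hKn hD' hDf' hDc
  have h1 : (K ⊓ D).relIndex K = D.relIndex K := inf_relIndex_left K D
  have h2 : (K ⊓ D).relIndex K ∣ p ^ m := by
    rw [h1, ← hDi]
    exact relIndex_dvd_index_of_normal D K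
  obtain ⟨c, -, hc⟩ := (Nat.dvd_prime_pow hp).1 h2
  have hN : ((K ⊓ D).subgroupOf K).Normal := ⟨fun q hq l => ⟨(l * q * l⁻¹).2, by
    have h3 : ((l * q * l⁻¹ : K) : 𝔾) = l * q * (l : 𝔾)⁻¹ := rfl
    show ((l * q * l⁻¹ : K) : 𝔾) ∈ D
    rw [h3]
    exact hD.conj_mem _ hq.2 _⟩⟩
  have hcard : Nat.card (K ⧸ (K ⊓ D).subgroupOf K) = p ^ c := hc
  have hfin : Finite (K ⧸ (K ⊓ D).subgroupOf K) :=
    Nat.finite_of_card_ne_zero (by rw [hcard]; exact pow_ne_zero _ hp.ne_zero)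
  set z : K ⧸ (K ⊓ D).subgroupOf K := ((⟨γ, hγ⟩ : K) : K ⧸ (K ⊓ D).subgroupOf K) with hz
  have hzi : ∀ i : ℕ, z ^ i = 1 ↔ γ ^ i ∈ K ⊓ D := by
    intro i
    rw [hz, ← QuotientGroup.mk_pow, QuotientGroup.eq_one_iff]
    exact Iff.rfl
  have hord : orderOf z = p ^ c := by
    rw [← hcard]
    apply orderOf_eq_card_of_forall_mem_zpowers
    intro y
    obtain ⟨x, rfl⟩ := QuotientGroup.mk_surjective y
    obtain ⟨i, b, hb, hx⟩ := hγg x x.2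
    refine ⟨i, ?_⟩
    show z ^ (i : ℤ) = _
    rw [zpow_natCast, hz, ← QuotientGroup.mk_pow]
    refine QuotientGroup.eq.2 ?_
    have h3 : (((⟨γ, hγ⟩ : K) ^ i)⁻¹ * x : K) =
        ((⟨γ, hγ⟩ : K) ^ i)⁻¹ * ⟨b, hb.1⟩ * (((⟨γ, hγ⟩ : K) ^ i)⁻¹)⁻¹ := by
      apply Subtype.ext
      show (γ ^ i)⁻¹ * (x : 𝔾) = (γ ^ i)⁻¹ * b * ((γ ^ i)⁻¹)⁻¹
      rw [hx]
      group
    rw [h3]
    refine hN.conj_mem _ ?_ _
    exact ⟨hb.1, hDD hb.2⟩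
  refine ⟨γ, c, hc, ⟨hKH, inf_le_left, inf_le_inf_left K hDD, ?_, ?_, hγ, hγc, hγg, ?_, ?_,
    ⟨M, ?_⟩⟩⟩
  · exact fun d hd x hx => ⟨hKn d hd x hx.1, hD.conj_mem x hx.2 d⟩
  · exact fun d hd x hx => ⟨hKn d hd x hx.1, hD'.conj_mem x hx.2 d⟩
  · intro x hx
    obtain ⟨i, b, hb, h⟩ := hγg x hx.1
    have h3 : γ ^ i ∈ K ⊓ D := by
      have h4 : γ ^ i = b⁻¹ * x := by rw [h]; group
      rw [h4]
      exact (K ⊓ D).mul_mem ((K ⊓ D).inv_mem ⟨hb.1, hDD hb.2⟩) hx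
    have h5 := orderOf_dvd_of_pow_eq_one ((hzi i).2 h3)
    rw [hord] at h5
    obtain ⟨j, hj⟩ := h5
    exact ⟨j, b, hb, by rw [h, hj]⟩
  · rw [← hzi, ← hord]
    exact pow_orderOf_eq_one z
  · refine ⟨K.pow_mem hγ _, ?_⟩
    rw [← hDi']
    exact D'.pow_index_mem γ

end cyc

end Pool.Agent.V7H53.GG
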