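import Pool.Agent.V7H53.GG.Pext

/-!
# The rank is positive if `p` is in `S`
-/

set_option autoImplicit false

namespace Pool.Agent.V7H53.GG

open Subgroup Module IntermediateField Pool.Agent.Q60.MU Pool.Agent.V7H44.MF Pool.Agent.V7H53.TR
open scoped Pointwise commutatorElement

variable {p : ℕ} [Fact p.Prime]

theorem elementary_of_valid {S : Set ℕ} {E : IntermediateField ℚ Qb} [FiniteDimensional ℚ E]
    {W : Subgroup Gal(Qb/ℚ)} (hW : Valid p (inertiaOff S) E.fixingSubgroup W) :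
    IsElementary p S E (fixedField W) := by
  have hK0 := index_ne_zero' E
  obtain ⟨hWK, hWo, hWf, hg⟩ := hW
  have hmul := relIndex_mul_index hWK
  have hW0 : W.index ≠ 0 := by
    rw [← hmul]
    exact mul_ne_zero hWf hK0
  have hfix := fix_fixed hWo
  have hEM : E ≤ fixedField W := (le_iff_le _ _).2 hWK
  have hfd := finite_fixed hWo hW0
  have hmem : ∀ x, x ∈ fixedField W ↔ ∀ w ∈ W, w x = x := fun x => mem_fixedField_iff _ _
  refine ⟨hEM, hfd, ?_, ?_, ?_, ?_⟩
  · intro σ hσ x hx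
    rw [hmem] at hx ⊢
    intro w hw
    have h1 : ⁅σ⁻¹, w⁆ ∈ W := hg (Or.inl (Or.inr ⟨σ⁻¹, inv_mem hσ, w, hWK hw, rfl⟩))
    have h2 : w (σ x) = σ ((⁅σ⁻¹, w⁆ * w) x) := by
      rw [← AlgEquiv.mul_apply, ← AlgEquiv.mul_apply]
      congr 1
      rw [commutatorElement_def]
      group
    rw [h2, hx _ (W.mul_mem h1 hw)]
  · intro σ hσ τ hτ x hx
    rw [hmem] at hx
    have h1 : ⁅σ⁻¹, τ⁻¹⁆ ∈ W := hg (Or.inl (Or.inr ⟨σ⁻¹, inv_mem hσ, τ⁻¹, inv_mem hτ, rfl⟩))
    have h2 : σ (τ x) = τ (σ (⁅σ⁻¹, τ⁻¹⁆ x)) := by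
      rw [← AlgEquiv.mul_apply, ← AlgEquiv.mul_apply, ← AlgEquiv.mul_apply]
      congr 1
      rw [commutatorElement_def]
      group
    rw [h2, hx _ h1]
  · intro σ hσ x hx
    rw [hmem] at hx
    exact hx _ (hg (Or.inl (Or.inl ⟨σ, hσ, rfl⟩)))
  · intro A hA σ hσA hσ x hx
    rw [hmem] at hx
    by_cases hσ1 : σ = 1
    · rw [hσ1]
      rfl
    · exact hx _ (hg (Or.inr ⟨hσ, A, (mem_inertiaOff hσ1).2 ⟨hA, hσA⟩⟩))

/-- The cyclotomic extension gives rank at least one. -/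
theorem one_le_rank (hp2 : p ≠ 2) {S : Set ℕ} (hS : p ∈ S) {R : ℕ → IntermediateField ℚ Qb}
    (hR : IsCyclotomicTower p R) {F : IntermediateField ℚ Qb} (hF : FiniteDimensional ℚ F)
    (m : ℕ) : PRankGe p S (F ⊔ R m) 1 := by
  classical
  have hp : p.Prime := Fact.out
  have hRf := tower_finite hR
  have hRm := hRf m
  set L := F.fixingSubgroup with hL
  have hLf : L.index ≠ 0 := index_ne_zero' F
  have hanti := tower_anti hR hp2
  have hDn := tower_normal hR
  have hDi := tower_index hR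
  have hDf : ∀ i, (R i).fixingSubgroup.index ≠ 0 := fun i => by
    rw [hDi i]
    exact pow_ne_zero _ hp.ne_zero
  have hAf : ∀ i, (L ⊓ (R i).fixingSubgroup).index ≠ 0 := fun i => index_inf_ne_zero hLf (hDf i)
  have hex : ∃ i, m < i ∧ L ⊓ (R i).fixingSubgroup ≠ L ⊓ (R m).fixingSubgroup := by
    by_contra hcon
    push Not at hcon
    set q := (L ⊓ (R m).fixingSubgroup).index with hq
    have h1 : p ^ (m + q + 1) ∣ q := by
      have h2 := hcon (m + q + 1) (by omega)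
      have h3 : (L ⊓ (R (m + q + 1)).fixingSubgroup).index = q := by rw [h2]
      have h4 := index_dvd_of_le (inf_le_right : L ⊓ (R (m + q + 1)).fixingSubgroup ≤
        (R (m + q + 1)).fixingSubgroup)
      rwa [h3, hDi (m + q + 1)] at h4
    have h2 := Nat.le_of_dvd (Nat.pos_of_ne_zero (hAf m)) h1
    have h3 : m + q + 1 < p ^ (m + q + 1) := Nat.lt_pow_self hp.one_lt
    omega
  obtain ⟨hmi, hne⟩ := Nat.find_spec hex
  have hmin := fun j (hj : j < Nat.find hex) => Nat.find_min hex hj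
  set i := Nat.find hex with hi
  obtain ⟨j, hj⟩ : ∃ j, i = j + 1 := ⟨i - 1, by omega⟩
  have hAj : L ⊓ (R j).fixingSubgroup = L ⊓ (R m).fixingSubgroup := by
    rcases Nat.eq_or_lt_of_le (show m ≤ j by omega) with h | h
    · rw [h]
    · by_contra hcon
      exact hmin j (by omega) ⟨h, hcon⟩
  have hle : L ⊓ (R i).fixingSubgroup ≤ L ⊓ (R m).fixingSubgroup :=
    inf_le_inf_left _ (hanti hmi.le)
  have hDij : (R i).fixingSubgroup ≤ (R j).fixingSubgroup := hanti (by omega)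
  have hrel : (R i).fixingSubgroup.relIndex (R j).fixingSubgroup = p := by
    have h1 := relIndex_mul_index hDij
    have h2 : p ^ i = p * p ^ j := by rw [hj, pow_succ']
    rw [hDi, hDi, h2] at h1
    exact Nat.eq_of_mul_eq_mul_right (pow_pos hp.pos j) h1
  have hDNi := hDn i
  have hpow : ∀ a ∈ L ⊓ (R m).fixingSubgroup, a ^ p ∈ (R i).fixingSubgroup := by
    intro a ha
    rw [← hAj] at ha
    have h1 := ((R i).fixingSubgroup.subgroupOf (R j).fixingSubgroup).pow_index_mem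
      (⟨a, ha.2⟩ : (R j).fixingSubgroup)
    have h2 : ((R i).fixingSubgroup.subgroupOf (R j).fixingSubgroup).index = p := hrel
    rw [h2, mem_subgroupOf] at h1
    exact h1
  have hcomm : ∀ a b : Gal(Qb/ℚ), ⁅a, b⁆ ∈ (R i).fixingSubgroup := by
    intro a b
    obtain ⟨γ, -, h1, h2⟩ := exists_gen (H := ⊤) (K := ⊤) (fun d _ x _ => Subgroup.mem_top _)
      hDNi (hDf i) (tower_cyclic hR hp2 i)
    have hab : ∀ x y : Gal(Qb/ℚ) ⧸ (R i).fixingSubgroup, x * y = y * x := by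
      have hc := tower_cyclic hR hp2 i
      obtain ⟨w, hw⟩ := hc.exists_generator
      intro x y
      obtain ⟨u, rfl⟩ := hw x
      obtain ⟨v, rfl⟩ := hw y
      show w ^ u * w ^ v = w ^ v * w ^ u
      rw [← zpow_add, ← zpow_add, add_comm]
    rw [← QuotientGroup.eq_one_iff, commutatorElement_def, QuotientGroup.mk_mul,
      QuotientGroup.mk_mul, QuotientGroup.mk_mul, QuotientGroup.mk_inv, QuotientGroup.mk_inv,
      hab (a : Gal(Qb/ℚ) ⧸ (R i).fixingSubgroup) b, mul_inv_cancel_right, mul_inv_cancel]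
  have hLo : IsOpen (L : Set Gal(Qb/ℚ)) := F.fixingSubgroup_isOpen
  have hEf : FiniteDimensional ℚ (F ⊔ R m : IntermediateField ℚ Qb) := inferInstance
  have hfixE : (F ⊔ R m).fixingSubgroup = L ⊓ (R m).fixingSubgroup := fixingSubgroup_sup
  have hWo : IsOpen ((L ⊓ (R i).fixingSubgroup : Subgroup Gal(Qb/ℚ)) : Set Gal(Qb/ℚ)) := by
    rw [Subgroup.coe_inf]
    exact hLo.inter (tower_open hR i)
  have hrf : (L ⊓ (R i).fixingSubgroup).relIndex (L ⊓ (R m).fixingSubgroup) ≠ 0 := fun h =>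
    hAf i (index_eq_zero_of_relIndex_eq_zero h)
  have hval : Valid p (inertiaOff S) (F ⊔ R m).fixingSubgroup (L ⊓ (R i).fixingSubgroup) := by
    rw [hfixE]
    refine ⟨hle, hWo, hrf, ?_⟩
    rintro x ((⟨a, ha, rfl⟩ | ⟨a, ha, b, hb, rfl⟩) | ⟨hx, w, hw⟩)
    · exact ⟨L.pow_mem ha.1 p, hpow a ha⟩
    · refine ⟨?_, hcomm a b⟩
      show ⁅a, b⁆ ∈ L
      rw [commutatorElement_def]
      exact L.mul_mem (L.mul_mem (L.mul_mem ha.1 hb.1) (L.inv_mem ha.1)) (L.inv_mem hb.1)
    · exact ⟨hx.1, inertiaOff_le_tower hS hR w i hw⟩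
  refine ⟨_, elementary_of_valid hval, ?_⟩
  rw [finrank_eq_fixingSubgroup_index, finrank_eq_fixingSubgroup_index, fix_fixed hWo, hfixE,
    ← relIndex_mul_index hle, pow_one]
  refine Nat.mul_le_mul_right _ ?_
  -- the relative index is at least `p`
  have h1 : (L ⊓ (R i).fixingSubgroup).relIndex (L ⊓ (R m).fixingSubgroup) ∣ p := by
    rw [← hAj, inf_comm L, inf_comm L, inf_relIndex_inf, ← hrel]
    have h3 : ((R i).fixingSubgroup.subgroupOf (R j).fixingSubgroup).Normal := inferInstance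
    have h2 := relIndex_dvd_index_of_normal ((R i).fixingSubgroup.subgroupOf (R j).fixingSubgroup)
      (((R j).fixingSubgroup ⊓ L).subgroupOf (R j).fixingSubgroup)
    rwa [relIndex_subgroupOf inf_le_left] at h2
  rcases (Nat.dvd_prime hp).1 h1 with h2 | h2
  · exact absurd (le_antisymm hle (relIndex_eq_one.1 h2)) hne
  · exact h2.ge

end Pool.Agent.V7H53.GG
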