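import Pool.Agent.V7H53.GG.Grp

/-!
# Two levels of a cyclic extension
-/

set_option autoImplicit false

namespace Pool.Agent.V7H53.GG

open Subgroup Module Polynomial Pool.Agent.Q60.MU
open scoped commutatorElement

section poly

variable {p : ℕ} [Fact p.Prime]

theorem pow_sub_dvd (c i : ℕ) :
    ((X - 1 : (ZMod p)[X]) ^ p ^ c) ∣ (X ^ (p ^ c * i) - 1) := by
  have h1 : (X ^ (p ^ c * i) - 1 : (ZMod p)[X]) = (X ^ i - 1) ^ p ^ c := by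
    rw [sub_pow_char_pow, one_pow, ← pow_mul, mul_comm]
  rw [h1]
  refine pow_dvd_pow_of_dvd ?_ _
  have h2 := sub_dvd_pow_sub_pow (X : (ZMod p)[X]) 1 i
  rwa [one_pow] at h2

theorem sum_dvd (c i : ℕ) :
    ((X - 1 : (ZMod p)[X]) ^ p ^ c) ∣ ∑ j ∈ Finset.range (p ^ c * p * i), X ^ j := by
  have hp : 2 ≤ p := (Fact.out : p.Prime).two_le
  have h0 : (X - 1 : (ZMod p)[X]) ≠ 0 := by
    have := X_sub_C_ne_zero (1 : ZMod p)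
    rwa [map_one] at this
  have h1 := mul_geom_sum (X : (ZMod p)[X]) (p ^ c * p * i)
  have h2 := pow_sub_dvd (p := p) (c + 1) i
  rw [pow_succ p c, ← h1] at h2
  have h3 : ((X - 1 : (ZMod p)[X]) ^ (p ^ c + 1)) ∣ (X - 1) ^ (p ^ c * p) := by
    apply pow_dvd_pow
    have h4 : 1 ≤ p ^ c := Nat.one_le_pow _ _ (by omega)
    calc p ^ c + 1 ≤ p ^ c + p ^ c := by omega
      _ = p ^ c * 2 := by ring
      _ ≤ p ^ c * p := Nat.mul_le_mul_left _ hp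
  have h4 := h3.trans h2
  rw [pow_succ' (X - 1 : (ZMod p)[X])] at h4
  exact (mul_dvd_mul_iff_left h0).1 h4

theorem aeval_range {V : Type} [AddCommGroup V] [Module (ZMod p) V] (f : Module.End (ZMod p) V)
    (N : ℕ) {q : (ZMod p)[X]} (h : (X - 1) ^ N ∣ q) (v : V) :
    aeval f q v ∈ LinearMap.range ((f - 1) ^ N) := by
  obtain ⟨r, rfl⟩ := h
  refine ⟨aeval f r v, ?_⟩
  rw [map_mul, map_pow, map_sub, aeval_X, map_one]
  rfl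

end poly

variable {𝔾 : Type} [Group 𝔾] {p : ℕ} [Fact p.Prime]

/-- Two levels `B ≤ A` of a cyclic quotient `K/B` of `p`-power order. -/
structure Pair (p : ℕ) (H K A B : Subgroup 𝔾) (γ : 𝔾) (c : ℕ) : Prop where
  KH : K ≤ H
  AK : A ≤ K
  BA : B ≤ A
  An : ∀ d ∈ H, ∀ x ∈ A, d * x * d⁻¹ ∈ A
  Bn : ∀ d ∈ H, ∀ x ∈ B, d * x * d⁻¹ ∈ B
  γK : γ ∈ K
  γc : ∀ g ∈ H, ⁅g, γ⁆ ∈ B
  Kγ : ∀ x ∈ K, ∃ i : ℕ, ∃ b ∈ B, x = b * γ ^ i
  Aγ : ∀ x ∈ A, ∃ i : ℕ, ∃ b ∈ B, x = b * γ ^ (p ^ c * i)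
  γA : γ ^ p ^ c ∈ A
  nil : ∃ c', γ ^ p ^ c' ∈ B

section act

variable {H K A B X W : Subgroup 𝔾} {γ : 𝔾} {c : ℕ} (hP : Pair p H K A B γ c)
  {V : Type} [AddCommGroup V] [Module (ZMod p) V] {ρ : Representation (ZMod p) H V}
  (hB : ∀ g : H, (g : 𝔾) ∈ B → ∀ v, ρ g v = v)

/-- the generator as an element of `H` -/
def gen (hP : Pair p H K A B γ c) : H := ⟨γ, hP.KH hP.γK⟩

include hB in
theorem act_comm (g : H) (v : V) : ρ (gen hP) (ρ g v) = ρ g (ρ (gen hP) v) := by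
  have h1 : g * gen hP = ⟨⁅(g : 𝔾), γ⁆, hP.KH (hP.AK (hP.BA (hP.γc g g.2)))⟩ * (gen hP * g) := by
    apply Subtype.ext
    show (g : 𝔾) * γ = ⁅(g : 𝔾), γ⁆ * (γ * g)
    rw [commutatorElement_def]
    group
  have h2 : ρ (g * gen hP) v = ρ (gen hP * g) v := by
    rw [h1, map_mul, Module.End.mul_apply, hB _ (hP.γc g g.2)]
  rw [map_mul, map_mul] at h2
  exact h2.symm

include hB in
theorem act_pow (g : H) (hg : (g : 𝔾) ∈ K) : ∃ i : ℕ, ∀ v, ρ g v = ((ρ (gen hP)) ^ i) v := by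
  obtain ⟨i, b, hb, h⟩ := hP.Kγ g hg
  refine ⟨i, fun v => ?_⟩
  have h1 : g = ⟨b, hP.KH (hP.AK (hP.BA hb))⟩ * (gen hP) ^ i := by
    apply Subtype.ext
    rw [h]
    rfl
  rw [h1, map_mul, Module.End.mul_apply, hB _ hb, map_pow]

include hB in
theorem act_nil : ∃ N, (ρ (gen hP) - 1) ^ N = 0 := by
  obtain ⟨c', hc⟩ := hP.nil
  refine ⟨p ^ c', ?_⟩
  have h1 : (ρ (gen hP)) ^ p ^ c' = 1 := by
    rw [← map_pow]
    apply LinearMap.ext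
    intro v
    exact hB _ hc v
  have h2 : aeval (ρ (gen hP)) ((X - 1 : (ZMod p)[X]) ^ p ^ c') =
      aeval (ρ (gen hP)) (X ^ p ^ c' - 1 : (ZMod p)[X]) := by
    rw [sub_pow_char_pow, one_pow]
  rw [map_pow, map_sub, map_sub, map_pow, aeval_X, map_one, h1, sub_self] at h2
  exact h2

include hB in
theorem act_semi (g : H) {n : ℕ} (hn : ¬ p ∣ n) (hg : (g : 𝔾) ^ n ∈ B) : Semi (ρ g) := by
  refine semi_of_pow _ n ?_ ?_
  · intro h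
    exact hn ((ZMod.natCast_eq_zero_iff n p).1 h)
  · rw [← map_pow]
    apply LinearMap.ext
    intro v
    exact hB _ hg v

include hP hB in
/-- The elements of `A` act trivially modulo the image of `(γ - 1)^(p^c)`. -/
theorem act_A (g : H) (hg : (g : 𝔾) ∈ A) (v : V) :
    ρ g v - v ∈ LinearMap.range ((ρ (gen hP) - 1) ^ p ^ c) := by
  obtain ⟨i, b, hb, h⟩ := hP.Aγ g hg
  have h1 : g = ⟨b, hP.KH (hP.AK (hP.BA hb))⟩ * (gen hP) ^ (p ^ c * i) := by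
    apply Subtype.ext
    rw [h]
    rfl
  have h2 := aeval_range (ρ (gen hP)) (p ^ c) (pow_sub_dvd (p := p) c i) v
  rw [map_sub, map_pow, aeval_X, map_one] at h2
  rw [h1, map_mul, Module.End.mul_apply, hB _ hb, map_pow]
  exact h2

end act

section kernel

variable {H K A B W : Subgroup 𝔾} {γ : 𝔾} {c : ℕ} (hP : Pair p H K A B γ c)
  {V : Type} [AddCommGroup V] [Module (ZMod p) V] {ρ : Representation (ZMod p) H V}
  {π : 𝔾 → V} (hQ : IsQ H B W ρ π) (hB : ∀ g : H, (g : 𝔾) ∈ B → ∀ v, ρ g v = v)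

/-- the image of `(γ - 1)^(p^c)` -/
def R (hP : Pair p H K A B γ c) (ρ : Representation (ZMod p) H V) : Submodule (ZMod p) V :=
  LinearMap.range ((ρ (gen hP) - 1) ^ p ^ c)

include hB in
theorem R_stable : Stable ρ (R hP ρ) := by
  rintro g _ ⟨v, rfl⟩
  refine ⟨ρ g v, ?_⟩
  exact pow_comm' (T_comm fun g x => act_comm hP hB g x) _ g v

include hP hQ in
/-- the powers of `γ` -/
theorem norm_sub (g : H) (k : ℕ) : ⁅(g : 𝔾), γ ^ k⁆ ∈ B ∧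
    π ⁅(g : 𝔾), γ ^ k⁆ = aeval (ρ (gen hP)) (∑ j ∈ Finset.range k, X ^ j : (ZMod p)[X])
      (π ⁅(g : 𝔾), γ⁆) := by
  induction k with
  | zero =>
    rw [pow_zero, commutatorElement_one_right, Finset.sum_range_zero, map_zero,
      LinearMap.zero_apply]
    exact ⟨B.one_mem, hQ.one⟩
  | succ k ih =>
    obtain ⟨h1, h2⟩ := ih
    have h3 : ⁅(g : 𝔾), γ ^ (k + 1)⁆ = ⁅(g : 𝔾), γ ^ k⁆ *
        (((gen hP) ^ k : H) * ⁅(g : 𝔾), γ⁆ * (((gen hP) ^ k : H) : 𝔾)⁻¹) := by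
      show ⁅(g : 𝔾), γ ^ (k + 1)⁆ = ⁅(g : 𝔾), γ ^ k⁆ * (γ ^ k * ⁅(g : 𝔾), γ⁆ * (γ ^ k)⁻¹)
      rw [commutatorElement_def, commutatorElement_def, commutatorElement_def, pow_succ]
      group
    have h4 := hP.γc g g.2
    have h5 := hP.Bn _ ((gen hP) ^ k).2 _ h4
    refine ⟨?_, ?_⟩
    · rw [h3]
      exact B.mul_mem h1 h5
    · rw [h3, hQ.mul _ h1 _ h5, h2, ← hQ.act _ _ h4, Finset.sum_range_succ, map_add,
        LinearMap.add_apply, map_pow, map_pow, aeval_X]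

include hP hQ in
theorem norm_mem (g : H) (i : ℕ) : π ⁅(g : 𝔾), γ ^ (p ^ c * p * i)⁆ ∈ R hP ρ := by
  rw [(norm_sub hP hQ g _).2]
  exact aeval_range _ _ (sum_dvd c i) _

include hP hQ hB in
/-- powers of the elements of `A` -/
theorem pow_form {b δ : 𝔾} (hb : b ∈ B) (hδ : δ ∈ A) (k : ℕ) :
    ∃ b' ∈ B, (b * δ) ^ k = b' * δ ^ k ∧ π b' - k • π b ∈ R hP ρ := by
  have hAH : A ≤ H := hP.AK.trans hP.KH
  induction k with
  | zero =>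
    refine ⟨1, B.one_mem, by rw [pow_zero, pow_zero, mul_one], ?_⟩
    rw [hQ.one, zero_smul, sub_zero]
    exact (R hP ρ).zero_mem
  | succ k ih =>
    obtain ⟨b', hb', h1, h2⟩ := ih
    have hδk : δ ^ k ∈ H := H.pow_mem (hAH hδ) k
    have h3 : δ ^ k * b * (δ ^ k)⁻¹ ∈ B := hP.Bn _ hδk b hb
    refine ⟨b' * (δ ^ k * b * (δ ^ k)⁻¹), B.mul_mem hb' h3, ?_, ?_⟩
    · rw [pow_succ, h1, pow_succ]
      group
    · rw [hQ.mul _ hb' _ h3]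
      have h4 : π (δ ^ k * b * (δ ^ k)⁻¹) = ρ ⟨δ ^ k, hδk⟩ (π b) :=
        (hQ.act ⟨δ ^ k, hδk⟩ b hb).symm
      have h5 : ρ ⟨δ ^ k, hδk⟩ (π b) - π b ∈ R hP ρ :=
        act_A hP hB ⟨δ ^ k, hδk⟩ (A.pow_mem hδ k) (π b)
      rw [h4, succ_nsmul]
      have h6 : π b' + ρ ⟨δ ^ k, hδk⟩ (π b) - (k • π b + π b) =
          (π b' - k • π b) + (ρ ⟨δ ^ k, hδk⟩ (π b) - π b) := by abel
      rw [h6]
      exact (R hP ρ).add_mem h2 h5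

include hP hQ hB in
/-- commutators of the elements of `A` -/
theorem comm_form {a a' : 𝔾} (ha : a ∈ A) (ha' : a' ∈ A) : ⁅a, a'⁆ ∈ B ∧ π ⁅a, a'⁆ ∈ R hP ρ := by
  have hAH : A ≤ H := hP.AK.trans hP.KH
  obtain ⟨i, b, hb, rfl⟩ := hP.Aγ a ha
  obtain ⟨i', b', hb', rfl⟩ := hP.Aγ a' ha'
  have hA : ∀ j, γ ^ (p ^ c * j) ∈ A := fun j => by
    rw [pow_mul]
    exact A.pow_mem hP.γA j
  set δ := γ ^ (p ^ c * i) with hδ
  set δ' := γ ^ (p ^ c * i') with hδ'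
  have hδA : δ ∈ A := hA i
  have hδA' : δ' ∈ A := hA i'
  have hcom : δ * δ' = δ' * δ := by rw [hδ, hδ', ← pow_add, ← pow_add, add_comm]
  have h1 : ⁅b * δ, b' * δ'⁆ = b * (δ * b' * δ⁻¹) * (δ' * b⁻¹ * δ'⁻¹) * b'⁻¹ := by
    rw [commutatorElement_def]
    have h2 : b * δ * (b' * δ') * (b * δ)⁻¹ * (b' * δ')⁻¹ =
        b * (δ * b' * δ⁻¹) * (δ * δ' * δ⁻¹) * b⁻¹ * δ'⁻¹ * b'⁻¹ := by group
    rw [h2, hcom]
    group
  have m1 : δ * b' * δ⁻¹ ∈ B := hP.Bn _ (hAH hδA) _ hb'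
  have m2 : δ' * b⁻¹ * δ'⁻¹ ∈ B := hP.Bn _ (hAH hδA') _ (B.inv_mem hb)
  rw [h1]
  refine ⟨B.mul_mem (B.mul_mem (B.mul_mem hb m1) m2) (B.inv_mem hb'), ?_⟩
  rw [hQ.mul _ (B.mul_mem (B.mul_mem hb m1) m2) _ (B.inv_mem hb'),
    hQ.mul _ (B.mul_mem hb m1) _ m2, hQ.mul _ hb _ m1, hQ.inv hb']
  have h3 : π (δ * b' * δ⁻¹) = ρ ⟨δ, hAH hδA⟩ (π b') := (hQ.act ⟨δ, hAH hδA⟩ b' hb').symm
  have h4 : π (δ' * b⁻¹ * δ'⁻¹) = ρ ⟨δ', hAH hδA'⟩ (π b⁻¹) :=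
    (hQ.act ⟨δ', hAH hδA'⟩ b⁻¹ (B.inv_mem hb)).symm
  rw [h3, h4, hQ.inv hb, map_neg]
  have h5 := act_A hP hB ⟨δ, hAH hδA⟩ hδA (π b')
  have h6 := act_A hP hB ⟨δ', hAH hδA'⟩ hδA' (π b)
  have h7 : π b + ρ ⟨δ, hAH hδA⟩ (π b') + -ρ ⟨δ', hAH hδA'⟩ (π b) + -π b' =
      (ρ ⟨δ, hAH hδA⟩ (π b') - π b') - (ρ ⟨δ', hAH hδA'⟩ (π b) - π b) := by abel
  rw [h7]
  exact (R hP ρ).sub_mem h5 h6

end kernel

end Pool.Agent.V7H53.GG
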