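import Pool.Agent.V7H53.GG.Fld

/-!
# Extensions of `p`-power degree, subfields, perfect extensions
-/

set_option autoImplicit false

namespace Pool.Agent.V7H53.GG

open Subgroup Module IntermediateField Pool.Agent.Q60.MU Pool.Agent.V7H44.MF Pool.Agent.V7H53.TR
open scoped Pointwise commutatorElement

variable {p : ℕ} [Fact p.Prime]

/-- A simple representation of a finite `p`-group is trivial. -/
theorem detects_p {G : Type} [Group G] {K₀ : Subgroup G} (hN : K₀.Normal) {a : ℕ}
    (ha : K₀.index = p ^ a) {ι : Type} {s : Finset ι} {i : ι} (hi : i ∈ s)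
    (H : ι → Subgroup G) : Detects (ZMod p) K₀ s H := by
  classical
  intro S _ _ _ σ htriv hsim
  have hnt : Nontrivial S := hsim.1
  have hPg : IsPGroup p (G ⧸ K₀) := IsPGroup.of_card ha
  let τ' : (G ⧸ K₀) →* Module.End (ZMod p) S := QuotientGroup.lift K₀ σ (fun g hg => by
    apply LinearMap.ext
    intro x
    exact htriv g hg x)
  obtain ⟨v, hv, hfix⟩ := exists_fixed hPg (τ' : Representation (ZMod p) (G ⧸ K₀) S)
  let U : Submodule (ZMod p) S :=
    { carrier := {x | ∀ g, σ g x = x}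
      add_mem' := fun {a b} h1 h2 g => by rw [map_add, h1, h2]
      zero_mem' := fun g => map_zero _
      smul_mem' := fun c x h g => by rw [map_smul, h] }
  have hvU : v ∈ U := fun g => hfix (g : G ⧸ K₀)
  have hU : Stable σ U := fun g x hx => by
    rw [hx g]
    exact hx
  rcases hsim.2 U hU with h | h
  · rw [h, Submodule.mem_bot] at hvU
    exact absurd hvU hv
  · refine ⟨i, hi, fun htop => ?_⟩
    have h1 : coinv σ (H i) ≤ ⊥ := by
      rw [coinv, Submodule.span_le]
      rintro _ ⟨g, -, x, rfl⟩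
      have h2 : x ∈ U := by
        rw [h]
        trivial
      rw [h2 g, sub_self]
      exact Submodule.zero_mem _
    rw [htop, top_le_iff] at h1
    exact bot_ne_top h1

/-- **Ascent in extensions of `p`-power degree.** -/
theorem bdd_up (hp2 : p ≠ 2) {S : Set ℕ} {R : ℕ → IntermediateField ℚ Qb}
    (hR : IsCyclotomicTower p R) {F E : IntermediateField ℚ Qb} (hE : FiniteDimensional ℚ E)
    (hFE : F ≤ E) (hst : StableOver F E) {a : ℕ} (ha : finrank ℚ E = p ^ a * finrank ℚ F)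
    (h : Bdd p S R F) : Bdd p S R E := by
  classical
  have hp : p.Prime := Fact.out
  have hF : FiniteDimensional ℚ F :=
    Submodule.finiteDimensional_of_le (S₁ := Subalgebra.toSubmodule F.toSubalgebra)
      (S₂ := Subalgebra.toSubmodule E.toSubalgebra) hFE
  have hRf := tower_finite hR
  obtain ⟨r, hr⟩ := h
  set K := E.fixingSubgroup with hK
  set L := F.fixingSubgroup with hL
  have hKL : K ≤ L := fixingSubgroup_le hFE
  have hKo : IsOpen (K : Set Gal(Qb/ℚ)) := E.fixingSubgroup_isOpen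
  have hKf : K.index ≠ 0 := index_ne_zero' E
  have hLf : L.index ≠ 0 := index_ne_zero' F
  have hKLi : K.relIndex L = p ^ a := by
    have h1 := relIndex_mul_index hKL
    rw [finrank_eq_fixingSubgroup_index, finrank_eq_fixingSubgroup_index, ← h1] at ha
    exact Nat.eq_of_mul_eq_mul_right (Nat.pos_of_ne_zero hLf) ha
  obtain ⟨t, ht⟩ := ramified_of_finDec (finDec hp hp2 fun m => (hR m).1) hKo hKf
  have hcn := conj_of_stable hst
  have key : ∀ m, RankLe p (inertiaOff S) (K ⊓ (R m).fixingSubgroup)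
      ((cst K.index (K.index * (L.index * t)) * p ^ r) ^ (K.index * 1)) := by
    intro m
    set D := (R m).fixingSubgroup with hD
    have hDn : D.Normal := tower_normal hR m
    have hDf : D.index ≠ 0 := by
      rw [hD, tower_index hR m]
      exact pow_ne_zero _ hp.ne_zero
    have h0 : (K ⊓ D).relIndex (L ⊓ D) ≠ 0 := fun h =>
      index_inf_ne_zero hKf hDf (index_eq_zero_of_relIndex_eq_zero h)
    have h1 : (K ⊓ D).relIndex (L ⊓ D) ≤ K.index := by
      rw [inf_relIndex_inf]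
      exact relIndex_le_index' hKf
    have hLDf : (L ⊓ D).relIndex D ≠ 0 := fun h =>
      index_inf_ne_zero hLf hDf (index_eq_zero_of_relIndex_eq_zero h)
    obtain ⟨T, hTt, hT⟩ := ht m
    obtain ⟨T', hT'c, hT'⟩ := exists_TL hLDf T
    have hT'le : T'.card ≤ L.index * t := by
      refine hT'c.trans (Nat.mul_le_mul ?_ hTt)
      rw [inf_relIndex_right]
      exact relIndex_le_index' hLf
    have hnorm : ∀ d ∈ L ⊓ D, ∀ x ∈ K ⊓ D, d * x * d⁻¹ ∈ K ⊓ D := fun d hd x hx =>
      ⟨hcn d hd.1 x hx.1, hDn.conj_mem x hx.2 d⟩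
    have hN : ((K ⊓ D).subgroupOf (L ⊓ D)).Normal :=
      ⟨fun q hq l => hnorm l l.2 q hq⟩
    -- the index is a power of `p`
    have hdvd : (K ⊓ D).relIndex (L ⊓ D) ∣ p ^ a := by
      rw [inf_relIndex_inf, ← hKLi]
      have hKn : (K.subgroupOf L).Normal := ⟨fun q hq l => hcn l l.2 q hq⟩
      have h2 := relIndex_dvd_index_of_normal (K.subgroupOf L) ((L ⊓ D).subgroupOf L)
      rwa [relIndex_subgroupOf inf_le_left] at h2
    obtain ⟨c, -, hc⟩ := (Nat.dvd_prime_pow hp).1 hdvd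
    have h5 := main_ineq (p := p) (inertiaOff_conj S) (K := K ⊓ D) (D := L ⊓ D)
      (inf_le_inf_right _ hKL) hnorm h0 h1 {L ⊓ D} (by
        intro L' hL'
        rw [Finset.mem_singleton] at hL'
        rw [hL']
        exact ⟨inf_le_inf_right _ hKL, le_rfl⟩)
      (detects_p hN hc (Finset.mem_singleton_self _) _) T' hT'le (by
        intro w
        rcases hT w with h | ⟨u, hu, d, hd, rfl⟩
        · exact Or.inl fun x hx => ⟨h ⟨inertiaOff_le S w hx.1, hx.2.2⟩, hx.2.2⟩
        · exact Or.inr (hT' u hu d hd)) (C := p ^ r) (by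
        intro L' hL'
        rw [Finset.mem_singleton] at hL'
        rw [hL']
        exact (rankLe_level S hRf F m r).2 (hr m))
    rwa [Finset.card_singleton] at h5
  obtain ⟨b, hb⟩ := exists_pow hp ((cst K.index (K.index * (L.index * t)) * p ^ r) ^ (K.index * 1))
  exact ⟨b, fun m => (rankLe_level S hRf E m b).1 ((key m).mono hb)⟩

/-- **Descent to subfields.** -/
theorem bdd_sub {S : Set ℕ} {R : ℕ → IntermediateField ℚ Qb}
    (hR : IsCyclotomicTower p R) {N E : IntermediateField ℚ Qb} (hN : FiniteDimensional ℚ N)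
    (hEN : E ≤ N) (h : Bdd p S R N) : Bdd p S R E := by
  have hp : p.Prime := Fact.out
  have hE : FiniteDimensional ℚ E :=
    Submodule.finiteDimensional_of_le (S₁ := Subalgebra.toSubmodule E.toSubalgebra)
      (S₂ := Subalgebra.toSubmodule N.toSubalgebra) hEN
  have hRf := tower_finite hR
  have hKf := index_ne_zero' N
  obtain ⟨r, hr⟩ := h
  obtain ⟨b, hb⟩ := exists_pow hp N.fixingSubgroup.index
  refine ⟨r + b, fun m => ?_⟩
  rw [← rankLe_level S hRf]
  have hDf : (R m).fixingSubgroup.index ≠ 0 := by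
    rw [tower_index hR m]
    exact pow_ne_zero _ hp.ne_zero
  refine (RankLe.of_le (inf_le_inf_right _ (fixingSubgroup_le hEN)) ?_ (fun h0 =>
    index_inf_ne_zero hKf hDf (index_eq_zero_of_relIndex_eq_zero h0))
    ((rankLe_level S hRf N m r).2 (hr m))).mono ?_
  · rw [Subgroup.coe_inf]
    exact N.fixingSubgroup_isOpen.inter (tower_open hR m)
  · rw [pow_add]
    refine Nat.mul_le_mul_left _ (le_trans ?_ hb)
    rw [inf_relIndex_inf]
    exact relIndex_le_index' hKf

/-- The maximal layer of `p`-power degree. -/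
theorem exists_layer {k F N : IntermediateField ℚ Qb} (hN : FiniteDimensional ℚ N)
    (hFN : F ≤ N) (hFk : StableOver k F) :
    ∃ F', F ≤ F' ∧ F' ≤ N ∧ StableOver k F' ∧ (∃ a, finrank ℚ F' = p ^ a * finrank ℚ F) ∧
      NoPLayer p k F' N := by
  classical
  have hfd : ∀ E : IntermediateField ℚ Qb, E ≤ N → FiniteDimensional ℚ E := fun E hE =>
    Submodule.finiteDimensional_of_le (S₁ := Subalgebra.toSubmodule E.toSubalgebra)
      (S₂ := Subalgebra.toSubmodule N.toSubalgebra) hE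
  let P : ℕ → Prop := fun n => ∃ F', F ≤ F' ∧ F' ≤ N ∧ StableOver k F' ∧
    (∃ a, finrank ℚ F' = p ^ a * finrank ℚ F) ∧ finrank ℚ F' = n
  have hle : ∀ E : IntermediateField ℚ Qb, E ≤ N → finrank ℚ E ≤ finrank ℚ N := fun E hE =>
    Submodule.finrank_mono (s := Subalgebra.toSubmodule E.toSubalgebra)
      (t := Subalgebra.toSubmodule N.toSubalgebra) hE
  have h0 : P (finrank ℚ F) := ⟨F, le_rfl, hFN, hFk, ⟨0, by rw [pow_zero, one_mul]⟩, rfl⟩
  obtain ⟨F', h1, h2, h3, ⟨a, h4⟩, h5⟩ := Nat.findGreatest_spec (P := P) (hle F hFN) h0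
  refine ⟨F', h1, h2, h3, ⟨a, h4⟩, ?_⟩
  rintro E hE1 hE2 hE3 ⟨b, hb⟩
  have h6 : finrank ℚ E ≤ finrank ℚ F' := by
    rw [h5]
    refine Nat.le_findGreatest (hle E hE2) ⟨E, h1.trans hE1, hE2, hE3, ⟨b + a, ?_⟩, rfl⟩
    rw [hb, h4, pow_add, mul_assoc]
  have := hfd E hE2
  exact (IntermediateField.eq_of_le_of_finrank_le hE1 h6).symm

theorem DimGe.up {k F F' N : IntermediateField ℚ Qb} {d : ℕ} (h : DimGe p k F N d)
    (hFF : F ≤ F') : DimGe p k F' N d := by
  intro V _ _ _ τ h1 h2 h3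
  exact h V τ h1 h2 fun h4 => h3 fun g hg => h4 g (fixingSubgroup_le hFF hg)

/-- perfect extensions -/
theorem dim_two {k F N : IntermediateField ℚ Qb} (hkF : k ≤ F) (hFN : F ≤ N)
    (hab : NoAbelianLayer F N) (hN : FiniteDimensional ℚ N) : DimGe p k F N 2 := by
  classical
  intro V _ _ _ τ' h1 h2 h3
  let τ : Representation (ZMod p) k.fixingSubgroup V := τ'
  by_contra hcon
  have hnt : Nontrivial V := h2.1
  have hdim : finrank (ZMod p) V = 1 := by
    have h4 := finrank_pos (R := ZMod p) (M := V)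
    omega
  -- the endomorphisms commute
  obtain ⟨v, hv, hspan⟩ := finrank_eq_one_iff'.1 hdim
  have hscal : ∀ g, ∃ c : ZMod p, ∀ x, τ g x = c • x := by
    intro g
    obtain ⟨c, hc⟩ := hspan (τ g v)
    refine ⟨c, fun x => ?_⟩
    obtain ⟨b, rfl⟩ := hspan x
    rw [map_smul, ← hc, smul_smul, smul_smul, mul_comm]
  have hcomm : ∀ g g' x, τ g (τ g' x) = τ g' (τ g x) := by
    intro g g' x
    obtain ⟨c, hc⟩ := hscal g
    obtain ⟨c', hc'⟩ := hscal g'
    rw [hc, hc', hc', hc, smul_smul, smul_smul, mul_comm]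
  have hLH : F.fixingSubgroup ≤ k.fixingSubgroup := fixingSubgroup_le hkF
  -- the kernel in the Galois group of `F`
  let C : Subgroup Gal(Qb/ℚ) :=
    { carrier := {g | ∃ h : g ∈ F.fixingSubgroup, ∀ x, τ ⟨g, hLH h⟩ x = x}
      mul_mem' := by
        rintro a b ⟨ha, ha'⟩ ⟨hb, hb'⟩
        refine ⟨Subgroup.mul_mem _ ha hb, fun x => ?_⟩
        have h4 : (⟨a * b, hLH (Subgroup.mul_mem _ ha hb)⟩ : k.fixingSubgroup) =
          ⟨a, hLH ha⟩ * ⟨b, hLH hb⟩ := rfl
        rw [h4, map_mul, Module.End.mul_apply, hb', ha']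
      one_mem' := by
        refine ⟨Subgroup.one_mem _, fun x => ?_⟩
        have h4 : (⟨1, hLH (Subgroup.one_mem _)⟩ : k.fixingSubgroup) = 1 := rfl
        rw [h4, map_one]
        rfl
      inv_mem' := by
        rintro a ⟨ha, ha'⟩
        refine ⟨Subgroup.inv_mem _ ha, fun x => ?_⟩
        have h4 : (⟨a⁻¹, hLH (Subgroup.inv_mem _ ha)⟩ : k.fixingSubgroup) = (⟨a, hLH ha⟩)⁻¹ := rfl
        conv_lhs => rw [h4, ← ha' x]
        rw [← Module.End.mul_apply, ← map_mul, inv_mul_cancel, map_one]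
        rfl }
  have hCm : ∀ g, g ∈ C ↔ ∃ h : g ∈ F.fixingSubgroup, ∀ x, τ ⟨g, hLH h⟩ x = x := fun g => Iff.rfl
  have hCL : C ≤ F.fixingSubgroup := fun g hg => ((hCm g).1 hg).1
  have hKL : N.fixingSubgroup ≤ F.fixingSubgroup := fixingSubgroup_le hFN
  have hKC : N.fixingSubgroup ≤ C := fun g hg => (hCm g).2 ⟨hKL hg, fun x => h1 _ hg x⟩
  have hCo : IsOpen (C : Set Gal(Qb/ℚ)) := Subgroup.isOpen_mono hKC N.fixingSubgroup_isOpen
  have hfix := fix_fixed hCo
  have hcmem : ∀ a ∈ F.fixingSubgroup, ∀ b ∈ F.fixingSubgroup, ⁅a, b⁆ ∈ C := by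
    intro a ha b hb
    have hm : ⁅a, b⁆ ∈ F.fixingSubgroup := by
      rw [commutatorElement_def]
      exact Subgroup.mul_mem _ (Subgroup.mul_mem _ (Subgroup.mul_mem _ ha hb)
        (Subgroup.inv_mem _ ha)) (Subgroup.inv_mem _ hb)
    refine (hCm _).2 ⟨hm, fun x => ?_⟩
    have h4 : (⟨⁅a, b⁆, hLH hm⟩ : k.fixingSubgroup) =
        ⟨a, hLH ha⟩ * ⟨b, hLH hb⟩ * (⟨a, hLH ha⟩)⁻¹ * (⟨b, hLH hb⟩)⁻¹ := rfl
    rw [h4, map_mul, map_mul, map_mul, Module.End.mul_apply, Module.End.mul_apply,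
      Module.End.mul_apply, hcomm _ (⟨a, hLH ha⟩)⁻¹]
    rw [← Module.End.mul_apply (τ ⟨a, hLH ha⟩), ← map_mul, mul_inv_cancel, map_one,
      Module.End.one_apply, ← Module.End.mul_apply, ← map_mul, mul_inv_cancel, map_one]
    rfl
  have hmem : ∀ x, x ∈ fixedField C ↔ ∀ w ∈ C, w x = x := fun x => mem_fixedField_iff _ _
  have hE := hab (fixedField C) ((le_iff_le _ _).2 hCL) (by
      rw [← InfiniteGalois.fixedField_fixingSubgroup N]
      exact fixedField_antitone hKC) (by
      refine fixed_stable fun d hd x hx => ?_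
      have h4 : d * x * d⁻¹ = ⁅d, x⁆ * x := by rw [commutatorElement_def]; group
      rw [h4]
      exact C.mul_mem (hcmem d hd x (hCL hx)) hx) (by
      intro σ hσ σ' hσ' x hx
      rw [hmem] at hx
      have h4 : ⁅σ⁻¹, σ'⁻¹⁆ ∈ C := hcmem _ (inv_mem hσ) _ (inv_mem hσ')
      have h5 : σ (σ' x) = σ' (σ (⁅σ⁻¹, σ'⁻¹⁆ x)) := by
        rw [← AlgEquiv.mul_apply, ← AlgEquiv.mul_apply, ← AlgEquiv.mul_apply]
        congr 1
        rw [commutatorElement_def]
        group
      rw [h5, hx _ h4])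
  apply h3
  intro g hg x
  let g' : k.fixingSubgroup := g
  have h6 : (g' : Gal(Qb/ℚ)) ∈ C := by
    rw [← hfix, hE]
    exact hg
  exact ((hCm _).1 h6).2 x

/-- perfect extensions have no layers of `p`-power degree -/
theorem noPLayer_of_perfect {k F N : IntermediateField ℚ Qb} (hkF : k ≤ F)
    (hab : NoAbelianLayer F N) (hN : FiniteDimensional ℚ N) : NoPLayer p k F N := by
  classical
  rintro E hE1 hE2 hE3 ⟨a, ha⟩
  have hp : p.Prime := Fact.out
  have hE : FiniteDimensional ℚ E :=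
    Submodule.finiteDimensional_of_le (S₁ := Subalgebra.toSubmodule E.toSubalgebra)
      (S₂ := Subalgebra.toSubmodule N.toSubalgebra) hE2
  have hF : FiniteDimensional ℚ F :=
    Submodule.finiteDimensional_of_le (S₁ := Subalgebra.toSubmodule F.toSubalgebra)
      (S₂ := Subalgebra.toSubmodule E.toSubalgebra) hE1
  set C := E.fixingSubgroup with hC
  set L := F.fixingSubgroup with hL
  have hCL : C ≤ L := fixingSubgroup_le hE1
  have hLH : L ≤ k.fixingSubgroup := fixingSubgroup_le hkF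
  have hcn := conj_of_stable hE3
  have hN' : (C.subgroupOf L).Normal := ⟨fun q hq l => hcn l (hLH l.2) q hq⟩
  have hi : C.relIndex L = p ^ a := by
    have h1 := relIndex_mul_index hCL
    rw [finrank_eq_fixingSubgroup_index, finrank_eq_fixingSubgroup_index, ← h1] at ha
    exact Nat.eq_of_mul_eq_mul_right (Nat.pos_of_ne_zero (index_ne_zero' F)) ha
  have hPg : IsPGroup p (L ⧸ C.subgroupOf L) := IsPGroup.of_card hi
  have hfin : Finite (L ⧸ C.subgroupOf L) := Nat.finite_of_card_ne_zero (by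
    have h1 : Nat.card (L ⧸ C.subgroupOf L) = p ^ a := hi
    rw [h1]
    exact pow_ne_zero _ hp.ne_zero)
  -- the quotient is perfect
  have hperf : commutator (L ⧸ C.subgroupOf L) = ⊤ := by
    let Q := ((commutator (L ⧸ C.subgroupOf L)).comap (QuotientGroup.mk' (C.subgroupOf L))).map
      L.subtype
    have hQm : ∀ x (hx : x ∈ L), x ∈ Q ↔ ((⟨x, hx⟩ : L) : L ⧸ C.subgroupOf L) ∈
        commutator (L ⧸ C.subgroupOf L) := by
      intro x hx
      constructor
      · rintro ⟨y, hy, hyx⟩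
        have h1 : y = ⟨x, hx⟩ := Subtype.ext hyx
        rw [← h1]
        exact hy
      · intro h
        exact ⟨⟨x, hx⟩, h, rfl⟩
    have hQL : Q ≤ L := by
      rintro _ ⟨y, -, rfl⟩
      exact y.2
    have hCQ : C ≤ Q := by
      intro x hx
      rw [hQm x (hCL hx)]
      have h1 : ((⟨x, hCL hx⟩ : L) : L ⧸ C.subgroupOf L) = 1 := by
        rw [QuotientGroup.eq_one_iff]
        exact hx
      rw [h1]
      exact Subgroup.one_mem _
    have hQo : IsOpen (Q : Set Gal(Qb/ℚ)) := Subgroup.isOpen_mono hCQ E.fixingSubgroup_isOpen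
    have hfix := fix_fixed hQo
    have hcmem : ∀ a ∈ L, ∀ b ∈ L, ⁅a, b⁆ ∈ Q := by
      intro a ha b hb
      refine ⟨⁅(⟨a, ha⟩ : L), (⟨b, hb⟩ : L)⁆, ?_, rfl⟩
      show QuotientGroup.mk' (C.subgroupOf L) ⁅(⟨a, ha⟩ : L), (⟨b, hb⟩ : L)⁆ ∈
        commutator (L ⧸ C.subgroupOf L)
      rw [map_commutatorElement]
      exact commutator_mem_commutator (Subgroup.mem_top _) (Subgroup.mem_top _)
    have hE' := hab (fixedField Q) ((le_iff_le _ _).2 hQL) (by
      refine le_trans ?_ hE2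
      rw [← InfiniteGalois.fixedField_fixingSubgroup E]
      exact fixedField_antitone hCQ) (by
      refine fixed_stable fun d hd x hx => ?_
      have h4 : d * x * d⁻¹ = ⁅d, x⁆ * x := by rw [commutatorElement_def]; group
      rw [h4]
      exact Q.mul_mem (hcmem d hd x (hQL hx)) hx) (by
      intro σ hσ σ' hσ' x hx
      rw [mem_fixedField_iff] at hx
      have h4 : ⁅σ⁻¹, σ'⁻¹⁆ ∈ Q := hcmem _ (inv_mem hσ) _ (inv_mem hσ')
      have h5 : σ (σ' x) = σ' (σ (⁅σ⁻¹, σ'⁻¹⁆ x)) := by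
        rw [← AlgEquiv.mul_apply, ← AlgEquiv.mul_apply, ← AlgEquiv.mul_apply]
        congr 1
        rw [commutatorElement_def]
        group
      rw [h5, hx _ h4])
    rw [eq_top_iff]
    intro y _
    obtain ⟨x, rfl⟩ := QuotientGroup.mk_surjective y
    have h6 : (x : Gal(Qb/ℚ)) ∈ Q := by
      rw [← hfix, hE']
      exact x.2
    exact (hQm x x.2).1 h6
  have hsub : Subsingleton (L ⧸ C.subgroupOf L) := by
    by_contra hns
    have hnt : Nontrivial (L ⧸ C.subgroupOf L) := not_subsingleton_iff_nontrivial.1 hns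
    have hnil : Group.IsNilpotent (L ⧸ C.subgroupOf L) := hPg.isNilpotent
    have hsol : Group.IsSolvable (L ⧸ C.subgroupOf L) := inferInstance
    exact absurd hperf (Group.IsSolvable.commutator_lt_top_of_nontrivial _).ne
  have h1 : C.relIndex L = 1 := Nat.card_of_subsingleton (1 : L ⧸ C.subgroupOf L)
  have h2 : L ≤ C := relIndex_eq_one.1 h1
  have h3 : C = L := le_antisymm hCL h2
  rw [← InfiniteGalois.fixedField_fixingSubgroup E, ← InfiniteGalois.fixedField_fixingSubgroup F,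
    ← hC, ← hL, h3]

end Pool.Agent.V7H53.GG
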