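import Pool.Agent.Q60.MU.Main
import Pool.Agent.Q60.MU.Coind

/-!
# Representations with a central unipotent element
-/

set_option autoImplicit false

namespace Pool.Agent.V7H53.GG

open Module Polynomial Pool.Agent.Q60.MU

section semi

variable {k : Type} [Field k] {V : Type} [AddCommGroup V] [Module k V]

/-- The generalized kernel of `f - 1` is the kernel of `f - 1`. -/
def Semi (f : Module.End k V) : Prop :=
  ∃ q : k[X], f - 1 = (f - 1) * (f - 1) * aeval f q

theorem semi_of_pow (f : Module.End k V) (n : ℕ) (hn : (n : k) ≠ 0) (hf : f ^ n = 1) : Semi f := by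
  set Q : k[X] := ∑ i ∈ Finset.range n, X ^ i with hQ
  obtain ⟨H, hH⟩ := X_sub_C_dvd_sub_C_eval (a := (1 : k)) (p := Q)
  have h1 : Q.eval 1 = n := by
    rw [hQ, eval_finset_sum]
    simp
  have h2 : (X - 1 : k[X]) * Q = X ^ n - 1 := mul_geom_sum X n
  rw [h1, map_one] at hH
  have h3 : (C (n : k)) * (X - 1) = (X ^ n - 1) - (X - 1) * (X - 1) * H := by
    rw [← h2]
    have h4 : Q = C (n : k) + (X - 1) * H := by rw [← hH]; ring
    rw [h4]
    ring
  have h5 := congrArg (aeval f) h3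
  simp only [map_mul, map_sub, map_pow, aeval_X, map_one, aeval_C, hf, sub_self, zero_sub] at h5
  refine ⟨- (C ((n : k)⁻¹) * H), ?_⟩
  rw [map_neg, map_mul, aeval_C, mul_neg]
  have h6 : algebraMap k (Module.End k V) (n : k)⁻¹ * algebraMap k (Module.End k V) (n : k) = 1 := by
    rw [← map_mul, inv_mul_cancel₀ hn, map_one]
  have h7 : (f - 1) * (f - 1) * (algebraMap k (Module.End k V) (n : k)⁻¹ * aeval f H) =
      algebraMap k (Module.End k V) (n : k)⁻¹ * ((f - 1) * (f - 1) * aeval f H) := by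
    rw [← mul_assoc, ← mul_assoc, ← Algebra.commutes ((n : k)⁻¹) ((f - 1) * (f - 1))]
  rw [h7]
  have h8 : (f - 1) * (f - 1) * aeval f H =
      - (algebraMap k (Module.End k V) (n : k) * (f - 1)) := by
    rw [h5, neg_neg]
  rw [h8, mul_neg, neg_neg, ← mul_assoc, h6, one_mul]

theorem aeval_mem (f : Module.End k V) (W : Submodule k V) (h : ∀ x ∈ W, f x ∈ W) (q : k[X]) :
    ∀ x ∈ W, aeval f q x ∈ W := by
  have hpow : ∀ n : ℕ, ∀ x ∈ W, (f ^ n) x ∈ W := by
    intro n
    induction n with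
    | zero => intro x hx; exact hx
    | succ n ih =>
      intro x hx
      rw [pow_succ]
      exact ih _ (h x hx)
  induction q using Polynomial.induction_on' with
  | add p q hp hq =>
    intro x hx
    rw [map_add, LinearMap.add_apply]
    exact W.add_mem (hp x hx) (hq x hx)
  | monomial n a =>
    intro x hx
    rw [aeval_monomial]
    exact W.smul_mem a (hpow n x hx)

theorem semi_inj {f : Module.End k V} (hf : Semi f) {v u : V} (hv : v = (f - 1) u)
    (h0 : (f - 1) v = 0) : v = 0 := by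
  obtain ⟨q, hq⟩ := hf
  have h1 : (f - 1) * (f - 1) * aeval f q = aeval f q * ((f - 1) * (f - 1)) := by
    have h2 : (f - 1) * (f - 1) = aeval f ((X - 1) * (X - 1) : k[X]) := by simp
    rw [h2, ← map_mul, ← map_mul, mul_comm]
  have h3 : v = (aeval f q) ((f - 1) ((f - 1) u)) := by
    rw [hv]
    conv_lhs => rw [hq, h1]
    rfl
  rw [h3, ← hv, h0, map_zero]

end semi

section rep

variable {k : Type} [Field k] {G : Type} [Group G] {V : Type} [AddCommGroup V] [Module k V]
  (ρ : Representation k G V) (Y : Set G)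

/-- the span of the `y x - x`, `y ∈ Y`, `x ∈ W` -/
def br (W : Submodule k V) : Submodule k V :=
  Submodule.span k {x | ∃ y ∈ Y, ∃ v ∈ W, x = ρ y v - v}

variable {ρ Y}

theorem mem_br {W : Submodule k V} {y : G} (hy : y ∈ Y) {v : V} (hv : v ∈ W) :
    ρ y v - v ∈ br ρ Y W := Submodule.subset_span ⟨y, hy, v, hv, rfl⟩

theorem br_le_iff {W U : Submodule k V} : br ρ Y W ≤ U ↔ ∀ y ∈ Y, ∀ v ∈ W, ρ y v - v ∈ U := by
  rw [br, Submodule.span_le]
  constructor
  · intro h y hy v hv
    exact h ⟨y, hy, v, hv, rfl⟩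
  · rintro h _ ⟨y, hy, v, hv, rfl⟩
    exact h y hy v hv

theorem br_mono {W U : Submodule k V} (h : W ≤ U) : br ρ Y W ≤ br ρ Y U :=
  br_le_iff.2 fun _ hy _ hv => mem_br hy (h hv)

theorem br_le {W : Submodule k V} (hW : Stable ρ W) : br ρ Y W ≤ W :=
  br_le_iff.2 fun y _ v hv => W.sub_mem (hW y v hv) hv

theorem br_stable (hY : ∀ g, ∀ y ∈ Y, g * y * g⁻¹ ∈ Y) {W : Submodule k V} (hW : Stable ρ W) :
    Stable ρ (br ρ Y W) := by
  intro g x hx
  have h1 : br ρ Y W ≤ (br ρ Y W).comap (ρ g) := by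
    refine br_le_iff.2 fun y hy v hv => ?_
    show ρ g (ρ y v - v) ∈ br ρ Y W
    have h2 : ρ g (ρ y v - v) = ρ (g * y * g⁻¹) (ρ g v) - ρ g v := by
      rw [map_sub, map_mul, map_mul, Module.End.mul_apply, Module.End.mul_apply,
        ← Module.End.mul_apply (ρ g⁻¹), ← map_mul, inv_mul_cancel, map_one,
        Module.End.one_apply]
    rw [h2]
    exact mem_br (hY g y hy) (hW g v hv)
  exact h1 hx

theorem br_idem (hs : ∀ y ∈ Y, Semi (ρ y)) {W : Submodule k V} (hW : Stable ρ W) :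
    br ρ Y (br ρ Y W) = br ρ Y W := by
  refine le_antisymm (br_mono (br_le hW)) ?_
  refine br_le_iff.2 fun y hy v hv => ?_
  obtain ⟨q, hq⟩ := hs y hy
  have h1 : ρ y v - v = ρ y ((ρ y - 1) (aeval (ρ y) q v)) - (ρ y - 1) (aeval (ρ y) q v) := by
    have h2 := LinearMap.congr_fun hq v
    exact h2
  rw [h1]
  exact mem_br hy (mem_br hy (aeval_mem (ρ y) W (hW y) q v hv))

theorem br_map {T : V →ₗ[k] V} (hT : ∀ g x, T (ρ g x) = ρ g (T x)) (W : Submodule k V) :
    (br ρ Y W).map T = br ρ Y (W.map T) := by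
  refine le_antisymm ?_ ?_
  · rw [Submodule.map_le_iff_le_comap]
    refine br_le_iff.2 fun y hy v hv => ?_
    show T (ρ y v - v) ∈ br ρ Y (W.map T)
    rw [map_sub, hT]
    exact mem_br hy (Submodule.mem_map_of_mem hv)
  · refine br_le_iff.2 ?_
    rintro y hy _ ⟨v, hv, rfl⟩
    rw [← hT, ← map_sub]
    exact Submodule.mem_map_of_mem (mem_br hy hv)

theorem map_stable {T : V →ₗ[k] V} (hT : ∀ g x, T (ρ g x) = ρ g (T x)) {W : Submodule k V}
    (hW : Stable ρ W) : Stable ρ (W.map T) := by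
  rintro g _ ⟨v, hv, rfl⟩
  rw [← hT]
  exact Submodule.mem_map_of_mem (hW g v hv)

theorem pow_comm' {T : Module.End k V} (hT : ∀ g x, T (ρ g x) = ρ g (T x)) (j : ℕ) :
    ∀ g x, (T ^ j) (ρ g x) = ρ g ((T ^ j) x) := by
  induction j with
  | zero => intro g x; rfl
  | succ j ih =>
    intro g x
    rw [pow_succ, Module.End.mul_apply, hT, ih]
    rfl

end rep

section chain

variable {k : Type} [Field k] {G : Type} [Group G] {V : Type} [AddCommGroup V] [Module k V]
  [Module.Finite k V] {ρ : Representation k G V} {Y : Set G}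
  (hY : ∀ g, ∀ y ∈ Y, g * y * g⁻¹ ∈ Y) (hs : ∀ y ∈ Y, Semi (ρ y))
  {K : Subgroup G} {γ : G} (hγ : ∀ g x, ρ γ (ρ g x) = ρ g (ρ γ x))
  (hK : ∀ g ∈ K, ∃ i : ℕ, ∀ x, ρ g x = ((ρ γ) ^ i) x) {N : ℕ} (hN : (ρ γ - 1) ^ N = 0)
  {d : ℕ} (hd : ∀ (S : Type) [AddCommGroup S] [Module k S] [Module.Finite k S]
    (τ : Representation k G S), (∀ g ∈ K, ∀ x, τ g x = x) → IsSimple τ →
    (∃ y ∈ Y, ∃ x, τ y x ≠ x) → d ≤ finrank k S)

omit [Module.Finite k V] in
include hγ in
theorem T_comm : ∀ g x, (ρ γ - 1) (ρ g x) = ρ g ((ρ γ - 1) x) := by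
  intro g x
  show ρ γ (ρ g x) - ρ g x = ρ g (ρ γ x - x)
  rw [hγ, map_sub]

omit [Module.Finite k V] in
include hN in
theorem nil_bot {W : Submodule k V} (h : W ≤ W.map (ρ γ - 1)) : W = ⊥ := by
  have h1 : ∀ n : ℕ, W ≤ W.map ((ρ γ - 1) ^ n) := by
    intro n
    induction n with
    | zero => rw [pow_zero]; intro x hx; exact ⟨x, hx, rfl⟩
    | succ n ih =>
      intro x hx
      obtain ⟨u, hu, rfl⟩ := h hx
      obtain ⟨v, hv, rfl⟩ := ih hu
      exact ⟨v, hv, by rw [pow_succ']; rfl⟩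
  have h2 := h1 N
  rw [hN, Submodule.map_zero] at h2
  exact le_bot_iff.1 h2

omit [Module.Finite k V] in
include hK in
theorem K_sub {W : Submodule k V} (hW : Stable ρ W) {g : G} (hg : g ∈ K) {x : V} (hx : x ∈ W) :
    ρ g x - x ∈ W.map (ρ γ - 1) := by
  obtain ⟨i, hi⟩ := hK g hg
  have h1 : ((ρ γ) - 1) * ∑ j ∈ Finset.range i, (ρ γ) ^ j = (ρ γ) ^ i - 1 := mul_geom_sum (ρ γ) i
  have hpow : ∀ j : ℕ, ((ρ γ) ^ j) x ∈ W := by
    intro j
    rw [← map_pow]
    exact hW _ x hx
  refine ⟨(∑ j ∈ Finset.range i, (ρ γ) ^ j) x, ?_, ?_⟩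
  · rw [LinearMap.sum_apply]
    exact W.sum_mem fun j _ => hpow j
  · rw [hi, ← Module.End.mul_apply, h1]
    rfl

include hY hs hγ hK hN hd in
/-- One step of the chain. -/
theorem step {W : Submodule k V} (hW : Stable ρ W) (hp : br ρ Y W = W) (h0 : W ≠ ⊥) :
    finrank k (W.map (ρ γ - 1)) + d ≤ finrank k W := by
  have hTs : Stable ρ (W.map (ρ γ - 1)) := map_stable (T_comm hγ) hW
  have hTW : W.map (ρ γ - 1) ≤ W := by
    rintro _ ⟨v, hv, rfl⟩
    exact W.sub_mem (hW γ v hv) hv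
  have hlt : W.map (ρ γ - 1) < W := lt_of_le_of_ne hTW fun h => h0 (nil_bot hN h.ge)
  obtain ⟨U, ⟨hU1, hU2, hU3⟩, hmax⟩ := WellFounded.has_min
    (wellFounded_gt : WellFounded ((· > ·) : Submodule k V → Submodule k V → Prop))
    {U | Stable ρ U ∧ W.map (ρ γ - 1) ≤ U ∧ U < W} ⟨_, hTs, le_rfl, hlt⟩
  -- the simple quotient
  let U' : Submodule k W := U.comap W.subtype
  have hU' : Stable (sub ρ hW) U' := by
    intro g x hx
    exact hU1 g x hx
  have hsimple : IsSimple (quo (sub ρ hW) hU') := by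
    refine ⟨Submodule.Quotient.nontrivial_iff.2 ?_, fun Q hQ => ?_⟩
    · intro h
      apply not_le_of_gt hU3
      intro x hx
      have h1 : (⟨x, hx⟩ : W) ∈ U' := by rw [h]; exact Submodule.mem_top
      exact h1
    · let Q' : Submodule k V := (Q.comap U'.mkQ).map W.subtype
      have hQ's : Stable ρ Q' := by
        rintro g _ ⟨x, hx, rfl⟩
        refine ⟨sub ρ hW g x, ?_, rfl⟩
        have h2 := hQ g (U'.mkQ x) hx
        rw [quo_mk] at h2
        exact h2
      have hUQ : U ≤ Q' := by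
        intro x hx
        refine ⟨⟨x, hU3.le hx⟩, ?_, rfl⟩
        show U'.mkQ _ ∈ Q
        have h3 : U'.mkQ (⟨x, hU3.le hx⟩ : W) = 0 := by
          rw [Submodule.mkQ_apply, Submodule.Quotient.mk_eq_zero]
          exact hx
        rw [h3]
        exact Q.zero_mem
      have hQW : Q' ≤ W := by
        rintro _ ⟨x, _, rfl⟩
        exact x.2
      by_cases hQ1 : Q' = W
      · right
        rw [eq_top_iff]
        rintro x -
        obtain ⟨y, rfl⟩ := Submodule.mkQ_surjective U' x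
        have h4 : (y : V) ∈ Q' := by rw [hQ1]; exact y.2
        obtain ⟨z, hz, hzy⟩ := h4
        have h5 : z = y := Subtype.ext hzy
        rw [← h5]
        exact hz
      · left
        have h6 : ¬ U < Q' := hmax Q' ⟨hQ's, hU2.trans hUQ, lt_of_le_of_ne hQW hQ1⟩
        have h7 : Q' = U := by
          by_contra hne
          exact h6 (lt_of_le_of_ne hUQ (Ne.symm hne))
        rw [eq_bot_iff]
        intro x hx
        obtain ⟨y, rfl⟩ := Submodule.mkQ_surjective U' x
        have h8 : (y : V) ∈ Q' := ⟨y, hx, rfl⟩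
        rw [h7] at h8
        rw [Submodule.mem_bot, Submodule.mkQ_apply, Submodule.Quotient.mk_eq_zero]
        exact h8
  have hdS := hd _ (quo (sub ρ hW) hU') (by
    intro g hg x
    obtain ⟨y, rfl⟩ := Submodule.mkQ_surjective U' x
    rw [quo_mk, ← sub_eq_zero, ← map_sub, Submodule.mkQ_apply, Submodule.Quotient.mk_eq_zero]
    exact hU2 (K_sub hK hW hg y.2)) hsimple (by
    by_contra hcon
    push Not at hcon
    apply not_le_of_gt hU3
    rw [← hp]
    refine br_le_iff.2 fun y hy v hv => ?_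
    have h9 := hcon y hy (U'.mkQ ⟨v, hv⟩)
    rw [quo_mk, ← sub_eq_zero, ← map_sub, Submodule.mkQ_apply, Submodule.Quotient.mk_eq_zero] at h9
    exact h9)
  have h1 : finrank k U' = finrank k U := by
    have h2 := LinearMap.finrank_range_add_finrank_ker (W.subtype.domRestrict U')
    have e : U'.map W.subtype = U := by
      apply le_antisymm
      · rintro _ ⟨x, hx, rfl⟩
        exact hx
      · intro x hx
        exact ⟨⟨x, hU3.le hx⟩, hx, rfl⟩
    rw [← e]
    exact (LinearEquiv.finrank_eq (Submodule.equivMapOfInjective W.subtype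
      W.injective_subtype U'))
  have h2 := U'.finrank_quotient_add_finrank
  have h3 := Submodule.finrank_mono hU2
  omega

include hY hs hγ hK hN hd in
/-- The chain. -/
theorem chain {W : Submodule k V} (hW : Stable ρ W) (hp : br ρ Y W = W) {j : ℕ}
    (hj : finrank k W < d * (j + 1)) : W.map ((ρ γ - 1) ^ j) = ⊥ := by
  by_contra hne
  have hst : ∀ i, Stable ρ (W.map ((ρ γ - 1) ^ i)) := fun i =>
    map_stable (pow_comm' (T_comm hγ) i) hW
  have hbr : ∀ i, br ρ Y (W.map ((ρ γ - 1) ^ i)) = W.map ((ρ γ - 1) ^ i) := fun i => by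
    rw [← br_map (pow_comm' (T_comm hγ) i), hp]
  have hsucc : ∀ i, (W.map ((ρ γ - 1) ^ i)).map (ρ γ - 1) = W.map ((ρ γ - 1) ^ (i + 1)) := by
    intro i
    rw [← Submodule.map_comp, pow_succ']
    rfl
  have hnz : ∀ i ≤ j, W.map ((ρ γ - 1) ^ i) ≠ ⊥ := by
    intro i hi h
    apply hne
    obtain ⟨l, rfl⟩ := Nat.exists_eq_add_of_le hi
    rw [add_comm, pow_add]
    have e : W.map ((ρ γ - 1) ^ l * (ρ γ - 1) ^ i) = (W.map ((ρ γ - 1) ^ i)).map ((ρ γ - 1) ^ l) := by
      rw [← Submodule.map_comp]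
      rfl
    rw [e, h, Submodule.map_bot]
  have key : ∀ i ≤ j + 1, finrank k (W.map ((ρ γ - 1) ^ i)) + i * d ≤ finrank k W := by
    intro i
    induction i with
    | zero =>
      intro _
      rw [pow_zero, zero_mul, add_zero]
      have e : W.map (1 : Module.End k V) = W := Submodule.map_id W
      rw [e]
    | succ i ih =>
      intro hi
      have h1 := ih (by omega)
      have h2 := step hY hs hγ hK hN hd (hst i) (hbr i) (hnz i (by omega))
      rw [hsucc] at h2
      have h3 : (i + 1) * d = i * d + d := by ring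
      omega
  have h4 := key (j + 1) le_rfl
  have h5 : (j + 1) * d = d * (j + 1) := mul_comm _ _
  omega

end chain

end Pool.Agent.V7H53.GG
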