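import Pool.Agent.V7H53.TR.Main
import Pool.Agent.V7H53.GG.Growth

/-!
# The cyclotomic tower
-/

set_option autoImplicit false

namespace Pool.Agent.V7H53.GG

open Subgroup Module IntermediateField Pool.Agent.Q60.MU Pool.Agent.V7H44.MF Pool.Agent.V7H53.TR
open scoped Pointwise commutatorElement

variable {p : ℕ} [Fact p.Prime]

/-- a topological generator modulo the roots of unity -/
theorem exists_cyc_gen (hp2 : p ≠ 2) (M : ℕ) : ∃ γ : Gal(Qb/ℚ), ∀ x : Gal(Qb/ℚ), ∃ i : ℤ,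
    (γ ^ i)⁻¹ * x ∈ (cyc p M).fixingSubgroup := by
  have hp : p.Prime := Fact.out
  have h0 := cyc_isCyclotomic hp M
  have hnz : NeZero (p ^ (M + 1)) := ⟨(pow_pos hp.pos _).ne'⟩
  have hG : IsGalois ℚ (cyc p M) := IsCyclotomicExtension.isGalois {p ^ (M + 1)} ℚ (cyc p M)
  have hcyc : IsCyclic (ZMod (p ^ (M + 1)))ˣ := ZMod.isCyclic_units_of_prime_pow p hp hp2 _
  let e := IsCyclotomicExtension.autEquivPow (n := p ^ (M + 1)) (K := ℚ) (cyc p M)
    (Polynomial.cyclotomic.irreducible_rat (NeZero.pos (p ^ (M + 1))))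
  have hcyc' : IsCyclic Gal((cyc p M)/ℚ) := e.isCyclic.2 hcyc
  obtain ⟨g, hg⟩ := hcyc'.exists_generator
  have hnorm : _root_.Normal ℚ (cyc p M) := hG.to_normal
  obtain ⟨γ, hγ⟩ := AlgEquiv.restrictNormalHom_surjective (F := ℚ) (K₁ := cyc p M) (E := Qb) g
  refine ⟨γ, fun x => ?_⟩
  obtain ⟨i, hi⟩ := hg (AlgEquiv.restrictNormalHom (cyc p M) x)
  refine ⟨i, ?_⟩
  have h1 : AlgEquiv.restrictNormalHom (cyc p M) (γ ^ i) =
      AlgEquiv.restrictNormalHom (cyc p M) x := by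
    rw [map_zpow, hγ]
    exact hi
  rw [IntermediateField.mem_fixingSubgroup_iff]
  intro y hy
  have h2 : (γ ^ i) y = x y := by
    have h3 := congrArg (algebraMap (cyc p M) Qb) (DFunLike.congr_fun h1 (⟨y, hy⟩ : cyc p M))
    have h4 := AlgEquiv.restrictNormal_commutes (γ ^ i) (cyc p M) ⟨y, hy⟩
    have h5 := AlgEquiv.restrictNormal_commutes x (cyc p M) ⟨y, hy⟩
    exact h4.symm.trans (h3.trans h5)
  rw [AlgEquiv.mul_apply, ← h2, ← AlgEquiv.mul_apply, inv_mul_cancel, AlgEquiv.one_apply]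

theorem cyc_mono {m M : ℕ} (h : m ≤ M) : cyc p m ≤ cyc p M := by
  unfold cyc
  rw [IntermediateField.adjoin_le_iff]
  intro z hz
  refine IntermediateField.subset_adjoin _ _ ?_
  obtain ⟨j, rfl⟩ := Nat.exists_eq_add_of_le h
  show z ^ p ^ (m + j + 1) = 1
  have h1 : p ^ (m + j + 1) = p ^ (m + 1) * p ^ j := by rw [← pow_add]; congr 1; ring
  have h2 : z ^ p ^ (m + 1) = 1 := hz
  rw [h1, pow_mul, h2, one_pow]

variable {R : ℕ → IntermediateField ℚ Qb} (hR : IsCyclotomicTower p R)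

include hR in
theorem tower_normal (m : ℕ) : (R m).fixingSubgroup.Normal :=
  (InfiniteGalois.normal_iff_isGalois (R m)).2 (tower_galois hR m)

include hR in
theorem tower_index (m : ℕ) : (R m).fixingSubgroup.index = p ^ m := by
  rw [← finrank_eq_fixingSubgroup_index]
  exact (hR m).2

include hR in
theorem tower_open (m : ℕ) : IsOpen ((R m).fixingSubgroup : Set Gal(Qb/ℚ)) := by
  have := tower_finite hR m
  exact (R m).fixingSubgroup_isOpen

include hR in
theorem tower_cyclic (hp2 : p ≠ 2) (m : ℕ) :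
    letI := tower_normal hR m
    IsCyclic (Gal(Qb/ℚ) ⧸ (R m).fixingSubgroup) := by
  have hN := tower_normal hR m
  obtain ⟨γ, hγ⟩ := exists_cyc_gen (p := p) hp2 m
  refine ⟨⟨(γ : Gal(Qb/ℚ) ⧸ (R m).fixingSubgroup), fun y => ?_⟩⟩
  obtain ⟨x, rfl⟩ := QuotientGroup.mk_surjective y
  obtain ⟨i, hi⟩ := hγ x
  refine ⟨i, ?_⟩
  show (γ : Gal(Qb/ℚ) ⧸ (R m).fixingSubgroup) ^ i = _
  rw [← QuotientGroup.mk_zpow]
  exact QuotientGroup.eq.2 (fixingSubgroup_le (hR m).1 hi)

include hR in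
theorem tower_anti (hp2 : p ≠ 2) : Antitone fun m => (R m).fixingSubgroup := by
  intro m M hmM x hx
  have hp : p.Prime := Fact.out
  have hN := tower_normal hR m
  have hN' := tower_normal hR M
  obtain ⟨γ, hγ⟩ := exists_cyc_gen (p := p) hp2 M
  obtain ⟨i, hi⟩ := hγ x
  have h1 : (γ ^ i)⁻¹ * x ∈ (R M).fixingSubgroup := fixingSubgroup_le (hR M).1 hi
  have h2 : (γ ^ i)⁻¹ * x ∈ (R m).fixingSubgroup :=
    fixingSubgroup_le ((hR m).1.trans (cyc_mono hmM)) hi
  have h3 : γ ^ i ∈ (R M).fixingSubgroup := by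
    have h4 : γ ^ i = x * ((γ ^ i)⁻¹ * x)⁻¹ := by group
    rw [h4]
    exact Subgroup.mul_mem _ hx (Subgroup.inv_mem _ h1)
  -- the order of `γ` modulo `(R M).fixingSubgroup`
  have hord : orderOf (γ : Gal(Qb/ℚ) ⧸ (R M).fixingSubgroup) = p ^ M := by
    rw [← tower_index hR M]
    refine (orderOf_eq_card_of_forall_mem_zpowers fun y => ?_)
    obtain ⟨z, rfl⟩ := QuotientGroup.mk_surjective y
    obtain ⟨j, hj⟩ := hγ z
    refine ⟨j, ?_⟩
    show (γ : Gal(Qb/ℚ) ⧸ (R M).fixingSubgroup) ^ j = _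
    rw [← QuotientGroup.mk_zpow]
    exact QuotientGroup.eq.2 (fixingSubgroup_le (hR M).1 hj)
  have h4 : ((p ^ M : ℕ) : ℤ) ∣ i := by
    rw [← hord]
    apply orderOf_dvd_iff_zpow_eq_one.2
    rw [← QuotientGroup.mk_zpow, QuotientGroup.eq_one_iff]
    exact h3
  have h5 : γ ^ i ∈ (R m).fixingSubgroup := by
    obtain ⟨j, hj⟩ := (Int.natCast_dvd_natCast.2 (pow_dvd_pow p hmM)).trans h4
    rw [hj, zpow_mul, zpow_natCast]
    refine Subgroup.zpow_mem _ ?_ j
    rw [← tower_index hR m]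
    exact Subgroup.pow_index_mem _ γ
  have h6 : x = γ ^ i * ((γ ^ i)⁻¹ * x) := by group
  show x ∈ (R m).fixingSubgroup
  rw [h6]
  exact Subgroup.mul_mem _ h5 h2

/-- Away from `p` the roots of unity of order a power of `p` are unramified. -/
theorem inertia_cyc {A : ValuationSubring Qb} (hA : (p : Qb) ∉ A.nonunits) {σ : Gal(Qb/ℚ)}
    (hσ : σ ∈ inertia A) (m : ℕ) : σ ∈ (cyc p m).fixingSubgroup := by
  have hp : p.Prime := Fact.out
  have hnz : NeZero (p ^ (m + 1)) := ⟨(pow_pos hp.pos _).ne'⟩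
  obtain ⟨ζ, hζ, hcyc⟩ := exists_zeta hp m
  rw [hcyc, IntermediateField.mem_fixingSubgroup_iff]
  have key : σ ζ = ζ := by
    have h1 : (σ ζ) ^ p ^ (m + 1) = 1 := by rw [← map_pow, hζ.pow_eq_one, map_one]
    have h2 : (σ ζ * ζ⁻¹) ^ p ^ (m + 1) = 1 := by
      rw [mul_pow, h1, inv_pow, hζ.pow_eq_one, inv_one, mul_one]
    obtain ⟨j, hj, hj'⟩ := hζ.eq_pow_of_pow_eq_one h2
    have hζ0 : ζ ≠ 0 := hζ.ne_zero (pow_pos hp.pos _).ne'
    have hint : ∀ i : ℕ, ζ ^ i ∈ A := by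
      intro i
      apply integral_mem
      exact IsIntegral.pow ((hζ.isIntegral (pow_pos hp.pos _))) i
    rcases Nat.eq_zero_or_pos j with hj0 | hj0
    · rw [hj0, pow_zero] at hj'
      have h3 : σ ζ = (σ ζ * ζ⁻¹) * ζ := by field_simp
      rw [h3, ← hj', one_mul]
    · exfalso
      apply hA
      -- `1 - ζ ^ j` is a nonunit
      have h3 : σ ζ - ζ ∈ A.nonunits := hσ.2 ζ (by simpa using hint 1)
      have h4 : (1 - ζ ^ j) ∈ A.nonunits := by
        have hinv : -ζ⁻¹ ∈ A := by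
          have h5 : ζ⁻¹ = ζ ^ (p ^ (m + 1) - 1) := by
            refine (eq_inv_of_mul_eq_one_left ?_).symm
            rw [← pow_succ, Nat.sub_add_cancel (Nat.one_le_pow _ _ hp.pos), hζ.pow_eq_one]
          rw [h5]
          exact A.neg_mem _ (hint _)
        have h5 : 1 - ζ ^ j = (σ ζ - ζ) * (-ζ⁻¹) := by
          rw [hj']
          field_simp
          ring
        rw [h5]
        exact mul_nonunits h3 hinv
      -- `p ^ (m+1)` is a multiple of it
      obtain ⟨q, hq⟩ : ∃ q, p ^ (m + 1) = q + 1 :=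
        ⟨p ^ (m + 1) - 1, (Nat.sub_add_cancel (Nat.one_le_pow _ _ hp.pos)).symm⟩
      rw [hq] at hζ
      have h5 := hζ.prod_one_sub_pow_eq_order
      have h6 : j - 1 ∈ Finset.range q := by
        rw [Finset.mem_range]
        omega
      rw [← Finset.mul_prod_erase _ _ h6, Nat.sub_add_cancel hj0] at h5
      have h7 : ((q : Qb) + 1) ∈ A.nonunits := by
        rw [← h5]
        refine mul_nonunits h4 ?_
        refine prod_mem fun i _ => ?_
        exact sub_mem A.one_mem (hint _)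
      have h8 : (p : Qb) ^ (m + 1) ∈ A.nonunits := by
        have h9 : (p : Qb) ^ (m + 1) = (q : Qb) + 1 := by exact_mod_cast congrArg (Nat.cast (R := Qb)) hq
        rw [h9]
        exact h7
      rw [ValuationSubring.mem_nonunits_iff] at h8 ⊢
      by_contra hcon
      rw [map_pow] at h8
      exact absurd (one_le_pow_of_one_le' (not_lt.1 hcon) (m + 1)) (not_le.2 h8)
  intro x hx
  have h1 : IntermediateField.adjoin ℚ {ζ} ≤ fixedField (Subgroup.zpowers σ) := by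
    rw [IntermediateField.adjoin_simple_le_iff, mem_fixedField_iff]
    rintro _ ⟨i, rfl⟩
    have h2 : σ ∈ MulAction.stabilizer Gal(Qb/ℚ) ζ := key
    exact (Subgroup.zpow_mem (MulAction.stabilizer Gal(Qb/ℚ) ζ) h2 i)
  exact (mem_fixedField_iff _ _).1 (h1 hx) σ (Subgroup.mem_zpowers σ)

end Pool.Agent.V7H53.GG
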